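import Pool.Agent.H86.Z1.GB
import Pool.Agent.H14.Z1.Macro

/-!
# Project Z1: chords of the limit function `G` and tuples

Proof sketches.
* `G_chord_avg`: for `a ≤ t ≤ Y`, `a < Y`: `t = ((Y-t)/(Y-a)) a + ((t-a)/(Y-a)) Y`, so `(Y-t) G a + (t-a) G Y ≤ (Y-a) G t` (`G_conc`); sum over `i`, divide by `m`
  (`∑ (Y - x i) = m (Y - w)`). If `a = Y` all the terms vanish (all `x i = a = w`).
* `st_hi` (`Y = 1 - b ≥ 3/4`): `G_chord_avg` with `A = 4a`, `B = 4b` (`G_ge_four`, `G_ge_four'`, `a ≤ w ≤ 1/4`).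
* `st_tr` (`64/729 ≤ a`, `Y ≤ 1/4`): the chord inequality for `2 √`.
-/

set_option autoImplicit false

namespace Pool.Agent.H86.Z1

open Finset Pool.Agent.H14RC Pool.Agent.H86.FM

private lemma sum_eq_mean {m : ℕ} (hm : 1 ≤ m) (x : Fin m → ℝ) :
    ∑ i, x i = m * ((∑ i, x i) / m) := by
  have hm' : (m : ℝ) ≠ 0 := by
    have : (0 : ℝ) < m := by exact_mod_cast hm
    exact this.ne'
  field_simp

theorem mean_mem {m : ℕ} (hm : 1 ≤ m) (x : Fin m → ℝ) {a Y : ℝ} (hx : ∀ i, a ≤ x i ∧ x i ≤ Y) :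
    a ≤ (∑ i, x i) / m ∧ (∑ i, x i) / m ≤ Y :=
  Pool.Agent.H14.Z1.mean_bounds hm x hx (sum_eq_mean hm x)

theorem G_chord_avg {m : ℕ} (hm : 1 ≤ m) (x : Fin m → ℝ) {a Y A B : ℝ} (ha : 0 ≤ a) (hY : Y ≤ 1)
    (hA : A ≤ G a) (hB : B ≤ G Y) (hx : ∀ i, a ≤ x i ∧ x i ≤ Y) :
    (Y - (∑ i, x i) / m) * A + ((∑ i, x i) / m - a) * B ≤ (Y - a) * ((∑ i, G (x i)) / m) := by
  have hm' : (0 : ℝ) < m := by exact_mod_cast hm
  obtain ⟨h1, h2⟩ := mean_mem hm x hx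
  have h := Pool.Agent.H14.Z1.chord_sum x ha hY hx (sum_eq_mean hm x)
  set w := (∑ i, x i) / m
  have h3 : (Y - w) * A ≤ (Y - w) * G a := mul_le_mul_of_nonneg_left hA (by linarith)
  have h4 : (w - a) * B ≤ (w - a) * G Y := mul_le_mul_of_nonneg_left hB (by linarith)
  have h5 : (Y - w) * G a + (w - a) * G Y ≤ (Y - a) * ((∑ i, G (x i)) / m) := by
    rw [← mul_div_assoc, le_div_iff₀ hm']
    linarith
  linarith

private lemma hi_arith {a r Y : ℝ} (ha : 0 ≤ a) (hr0 : 0 ≤ r) (hr : 899 / 10000 ≤ r ^ 2)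
    (hr' : r ^ 2 ≤ 2491 / 10000) (hY : 3 / 4 ≤ Y) (hY1 : Y ≤ 1) :
    (Y - a) * (2 * r + 1 / 2000) ≤ (Y - r ^ 2) * (4 * a) + (r ^ 2 - a) * (4 * (1 - Y)) + (Y - a) ^ 2 := by
  have hr1 : r ≤ 4991 / 10000 := by nlinarith
  have hr2 : 2998 / 10000 ≤ r := by nlinarith
  have h1 : 0 ≤ a * (6 * Y - 4 * r ^ 2 - 4 + 2 * r) := by
    apply mul_nonneg ha; nlinarith
  have h2 : 1 / 2000 ≤ r ^ 2 * ((1 - 2 * r) * (3 + 2 * r)) := by
    have h3 : 1 / 160 ≤ (1 - 2 * r) * (3 + 2 * r) := by nlinarith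
    nlinarith
  have h3 : 1 / 2000 * Y ≤ Y ^ 2 - 2 * r * Y + 4 * r ^ 2 * (1 - Y) := by
    nlinarith [sq_nonneg (Y - (r + 2 * r ^ 2))]
  nlinarith [sq_nonneg a]

theorem st_hi {m : ℕ} (hm : 1 ≤ m) (x : Fin m → ℝ) {a Y : ℝ} (ha : 0 ≤ a) (hY : Y ≤ 1) (hY4 : 3 / 4 ≤ Y)
    (hx : ∀ i, a ≤ x i ∧ x i ≤ Y) (h1 : 899 / 10000 ≤ (∑ i, x i) / m) (h2 : (∑ i, x i) / m ≤ 2491 / 10000) :
    2 * √((∑ i, x i) / m) + 1 / 2000 ≤ (∑ i, G (x i)) / m + (Y - a) := by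
  obtain ⟨h3, h4⟩ := mean_mem hm x hx
  have hc := G_chord_avg hm x ha hY (G_ge_four ha (by linarith)) (G_ge_four' hY4 hY) hx
  set w := (∑ i, x i) / m
  have hw : √w ^ 2 = w := Real.sq_sqrt (by linarith)
  have h5 := hi_arith (a := a) (r := √w) (Y := Y) ha (Real.sqrt_nonneg w) (by rw [hw]; exact h1)
    (by rw [hw]; exact h2) hY4 hY
  rw [hw] at h5
  have hd : 0 < Y - a := by linarith
  have h6 : (Y - a) * (2 * √w + 1 / 2000) ≤ (Y - a) * ((∑ i, G (x i)) / m + (Y - a)) := by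
    nlinarith
  exact le_of_mul_le_mul_left h6 hd

private lemma tr_arith {s t r : ℝ} (hs : 8 / 27 ≤ s) (hsr : s ≤ r) (hrt : r ≤ t) :
    (t ^ 2 - s ^ 2) * (2 * r - 5 / 2 * (t ^ 2 - s ^ 2) ^ 2) ≤
      (t ^ 2 - r ^ 2) * (2 * s) + (r ^ 2 - s ^ 2) * (2 * t) := by
  obtain ⟨d, hd⟩ : ∃ d, d = t - s := ⟨_, rfl⟩
  obtain ⟨e, he⟩ : ∃ e, e = t + s := ⟨_, rfl⟩
  have hd0 : 0 ≤ d := by linarith
  have he0 : 16 / 27 ≤ e := by linarith
  have h1 : t ^ 2 - s ^ 2 = d * e := by rw [hd, he]; ring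
  have h2 : (t ^ 2 - r ^ 2) * (2 * s) + (r ^ 2 - s ^ 2) * (2 * t) - (t ^ 2 - s ^ 2) * (2 * r) =
      - (2 * d * ((r - s) * (t - r))) := by rw [hd]; ring
  have h3 : (r - s) * (t - r) ≤ d ^ 2 / 4 := by
    rw [hd]; nlinarith [sq_nonneg ((r - s) - (t - r))]
  have h4 : 1 / 5 * d ^ 3 ≤ (d * e) ^ 3 := by
    have : (16 / 27 : ℝ) ^ 3 ≤ e ^ 3 := pow_le_pow_left₀ (by norm_num) he0 3
    have h5 : 1 / 5 * d ^ 3 ≤ e ^ 3 * d ^ 3 :=
      mul_le_mul_of_nonneg_right (by norm_num at this ⊢; linarith) (by positivity)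
    nlinarith
  have h6 : 2 * d * ((r - s) * (t - r)) ≤ 2 * d * (d ^ 2 / 4) := mul_le_mul_of_nonneg_left h3 (by linarith)
  have e1 : (t ^ 2 - s ^ 2) * (2 * r - 5 / 2 * (t ^ 2 - s ^ 2) ^ 2) =
    (t ^ 2 - s ^ 2) * (2 * r) - 5 / 2 * (t ^ 2 - s ^ 2) ^ 3 := by ring
  rw [e1]
  have e2 : (t ^ 2 - s ^ 2) ^ 3 = (d * e) ^ 3 := by rw [h1]
  rw [e2]
  have e3 : 2 * d * (d ^ 2 / 4) = 1 / 2 * d ^ 3 := by ring
  linarith

theorem st_tr {m : ℕ} (hm : 1 ≤ m) (x : Fin m → ℝ) {a Y : ℝ} (ha : 64 / 729 ≤ a) (hY : Y ≤ 1 / 4)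
    (hx : ∀ i, a ≤ x i ∧ x i ≤ Y) :
    2 * √((∑ i, x i) / m) - 5 / 2 * (Y - a) ^ 2 ≤ (∑ i, G (x i)) / m := by
  have hm' : (0 : ℝ) < m := by exact_mod_cast hm
  obtain ⟨h3, h4⟩ := mean_mem hm x hx
  have hGa : G a = 2 * √a := G_sqrt ha (by linarith)
  have hGY : G Y = 2 * √Y := G_sqrt (by linarith) hY
  have hc := G_chord_avg hm x (by linarith) (by linarith) (le_refl (G a)) (le_refl (G Y)) hx
  rcases (h3.trans h4).eq_or_lt with hd | hd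
  · have hw : (∑ i, x i) / m = a := le_antisymm (by linarith) h3
    have hG : ∀ i, G (x i) = 2 * √a := fun i => by
      have : x i = a := le_antisymm (by linarith [(hx i).2]) (hx i).1
      rw [this, hGa]
    rw [hw, Finset.sum_congr rfl fun i _ => hG i]
    simp only [sum_const, card_univ, Fintype.card_fin, nsmul_eq_mul]
    have e : (m : ℝ) * (2 * √a) / m = 2 * √a := by field_simp
    rw [e]
    nlinarith [sq_nonneg (Y - a)]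
  · set w := (∑ i, x i) / m
    have hw : √w ^ 2 = w := Real.sq_sqrt (by linarith)
    have hsa : √a ^ 2 = a := Real.sq_sqrt (by linarith)
    have hsY : √Y ^ 2 = Y := Real.sq_sqrt (by linarith)
    have h827 : 8 / 27 ≤ √a := by
      apply Real.le_sqrt_of_sq_le; norm_num; linarith
    have h5 := tr_arith (s := √a) (t := √Y) (r := √w) h827 (Real.sqrt_le_sqrt h3) (Real.sqrt_le_sqrt h4)
    rw [hw, hsa, hsY] at h5
    rw [hGa, hGY] at hc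
    have hd0 : 0 < Y - a := by linarith
    exact le_of_mul_le_mul_left (h5.trans hc) hd0

end Pool.Agent.H86.Z1
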