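import Mathlib

/-!
# Project Z1: the carry lemma for quasi-periodic subadditive functions (abstract, only Mathlib)

`QSub v κ g`: `g (x + v) = g x + κ`, subadditive, `g 0 = 0`. Model: `Pool/Agent/H86/FM/Carry.lean` (periodic case, `v = 1`, `κ = 0`).

Proof sketches.
* `QSub.int`: induction. `QSub.sum`: induction.
* `qcarry_up`: induction on the cardinality of `s` (model: `carry_up`). If all `z i ≤ v` take `z' = z`. Otherwise there are `j ∈ s` with `z j > v` and
  `i ∈ s` with `z i < v`. Put `z' j = v`, replace `z i` by `z i + z j - v` and apply the induction hypothesis to `s.erase j`: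
  `g (z i + z j - v) = g (z i + z j) - κ ≤ g (z i) + g (z j) - κ` and `g v = κ`. The new value is `> z i ≥ lo` and `≤ z j ≤ hi`.
* `qcarry_down`: if all `z i ≥ 0` take `z' = z`. Otherwise (sum `≥ 0`) there are `i` with `z i < 0` and `j` with `z j > 0`. Put `z' i = 0`, replace `z j` by `z i + z j`
  and apply the induction hypothesis to `s.erase i`: `g (z i + z j) + g 0 ≤ g (z i) + g (z j)`; the new value is `≥ z i ≥ lo` and `≤ z j ≤ hi`.
* `qcarry`: first `qcarry_up` if `v < hi` (otherwise `z' = z`), then `qcarry_down` if `lo < 0` (the sum is `≥ 0`); bounds: `lo ≤ · ≤ min v hi` after the first step.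
-/

set_option autoImplicit false

namespace Pool.Agent.H86.Z1

open Finset

structure QSub (v κ : ℝ) (g : ℝ → ℝ) : Prop where
  zero : g 0 = 0
  per : ∀ x, g (x + v) = g x + κ
  sub : ∀ x y, g (x + y) ≤ g x + g y

theorem QSub.int {v κ : ℝ} {g : ℝ → ℝ} (hg : QSub v κ g) (x : ℝ) (n : ℤ) : g (x + n * v) = g x + n * κ := by
  have hm : ∀ y, g (y - v) = g y - κ := by
    intro y
    have h := hg.per (y - v)
    rw [sub_add_cancel] at h
    linarith
  induction n using Int.induction_on with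
  | zero => simp
  | succ n ih =>
    have e : x + ((n : ℤ) + 1 : ℤ) * v = (x + ((n : ℤ) : ℝ) * v) + v := by
      push_cast
      ring
    rw [e, hg.per, ih]
    push_cast
    ring
  | pred n ih =>
    have e : x + ((-(n : ℤ) - 1 : ℤ) : ℝ) * v = (x + ((-(n : ℤ) : ℤ) : ℝ) * v) - v := by
      push_cast
      ring
    rw [e, hm, ih]
    push_cast
    ring

theorem QSub.sum {v κ : ℝ} {g : ℝ → ℝ} (hg : QSub v κ g) {ι : Type*} (s : Finset ι) (z : ι → ℝ) :
    g (∑ i ∈ s, z i) ≤ ∑ i ∈ s, g (z i) := by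
  classical
  induction s using Finset.induction_on with
  | empty => simp [hg.zero]
  | insert a s ha ih =>
    rw [Finset.sum_insert ha, Finset.sum_insert ha]
    have h := hg.sub (z a) (∑ i ∈ s, z i)
    linarith

private theorem QC_cap_aux {g : ℝ → ℝ} {c : ℝ} (hg : ∀ x y, g (x + y - c) + g c ≤ g x + g y)
    {ι : Type*} [DecidableEq ι] (lo : ℝ) (hloc : lo ≤ c) (n : ℕ) :
    ∀ (s : Finset ι) (z : ι → ℝ), s.card = n → (∀ i ∈ s, lo ≤ z i) → ∑ i ∈ s, z i ≤ s.card * c →
    ∃ z' : ι → ℝ, (∀ i ∈ s, lo ≤ z' i ∧ z' i ≤ c) ∧ ∑ i ∈ s, z' i = ∑ i ∈ s, z i ∧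
      ∑ i ∈ s, g (z' i) ≤ ∑ i ∈ s, g (z i) := by
  induction n with
  | zero =>
    intro s z hc _ _
    have hs : s = ∅ := Finset.card_eq_zero.mp hc
    subst hs
    exact ⟨z, by simp, rfl, le_refl _⟩
  | succ n ih =>
    intro s z hc hlo hs
    by_cases hall : ∀ i ∈ s, z i ≤ c
    · exact ⟨z, fun i hi => ⟨hlo i hi, hall i hi⟩, rfl, le_refl _⟩
    · push Not at hall
      obtain ⟨j, hj, hj1⟩ := hall
      have hex : ∃ i ∈ s, z i < c := by
        by_contra hcon
        push Not at hcon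
        have h2 : ∑ i ∈ s, c < ∑ i ∈ s, z i := Finset.sum_lt_sum hcon ⟨j, hj, hj1⟩
        rw [Finset.sum_const, nsmul_eq_mul] at h2
        linarith
      obtain ⟨i, hi, hi1⟩ := hex
      have hij : i ≠ j := by
        rintro rfl
        linarith
      have hi' : i ∈ s.erase j := Finset.mem_erase.mpr ⟨hij, hi⟩
      have hsj : ∑ k ∈ s.erase j, z k = ∑ k ∈ s, z k - z j := by
        have := Finset.add_sum_erase s z hj
        linarith
      have hgj : ∑ k ∈ s.erase j, g (z k) = ∑ k ∈ s, g (z k) - g (z j) := by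
        have := Finset.add_sum_erase s (fun k => g (z k)) hj
        linarith
      have hcard : (s.erase j).card = n := by
        rw [Finset.card_erase_of_mem hj, hc]
        rfl
      have hcs : ((s.card : ℕ) : ℝ) = n + 1 := by
        rw [hc]
        push_cast
        ring
      set z1 : ι → ℝ := Function.update z i (z i + z j - c) with hz1
      have hz1i : z1 i = z i + z j - c := by rw [hz1, Function.update_self]
      have hz1o : ∀ k, k ≠ i → z1 k = z k := fun k hk => by rw [hz1, Function.update_of_ne hk]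
      have hsum1 : ∑ k ∈ s.erase j, z1 k = ∑ k ∈ s, z k - c := by
        have e1 := Finset.add_sum_erase (s.erase j) z1 hi'
        have e2 := Finset.add_sum_erase (s.erase j) z hi'
        have e3 : ∑ k ∈ (s.erase j).erase i, z1 k = ∑ k ∈ (s.erase j).erase i, z k :=
          Finset.sum_congr rfl fun k hk => hz1o k (Finset.ne_of_mem_erase hk)
        rw [hz1i] at e1
        linarith
      have hgsum1 : ∑ k ∈ s.erase j, g (z1 k) + g c ≤ ∑ k ∈ s, g (z k) := by
        have e1 := Finset.add_sum_erase (s.erase j) (fun k => g (z1 k)) hi'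
        have e2 := Finset.add_sum_erase (s.erase j) (fun k => g (z k)) hi'
        have e3 : ∑ k ∈ (s.erase j).erase i, g (z1 k) = ∑ k ∈ (s.erase j).erase i, g (z k) :=
          Finset.sum_congr rfl fun k hk => by rw [hz1o k (Finset.ne_of_mem_erase hk)]
        rw [hz1i] at e1
        have e5 := hg (z i) (z j)
        linarith
      obtain ⟨z2, h21, h22, h23⟩ := ih (s.erase j) z1 hcard (by
        intro k hk
        by_cases hki : k = i
        · subst hki
          rw [hz1i]
          have := hlo k hi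
          linarith
        · rw [hz1o k hki]
          exact hlo k (Finset.mem_of_mem_erase hk)) (by
        rw [hsum1, hcard]
        rw [hcs] at hs
        linarith)
      refine ⟨Function.update z2 j c, ?_, ?_, ?_⟩
      · intro k hk
        by_cases hkj : k = j
        · subst hkj
          rw [Function.update_self]
          exact ⟨hloc, le_refl _⟩
        · rw [Function.update_of_ne hkj]
          exact h21 k (Finset.mem_erase.mpr ⟨hkj, hk⟩)
      · have e1 := Finset.add_sum_erase s (Function.update z2 j c) hj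
        have e3 : ∑ k ∈ s.erase j, Function.update z2 j c k = ∑ k ∈ s.erase j, z2 k :=
          Finset.sum_congr rfl fun k hk => Function.update_of_ne (Finset.ne_of_mem_erase hk) _ _
        rw [Function.update_self] at e1
        linarith
      · have e1 := Finset.add_sum_erase s (fun k => g (Function.update z2 j c k)) hj
        have e3 : ∑ k ∈ s.erase j, g (Function.update z2 j c k) = ∑ k ∈ s.erase j, g (z2 k) :=
          Finset.sum_congr rfl fun k hk => by rw [Function.update_of_ne (Finset.ne_of_mem_erase hk)]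
        rw [Function.update_self] at e1
        linarith

theorem qcarry_up {v κ : ℝ} {g : ℝ → ℝ} (hg : QSub v κ g) {ι : Type*} [DecidableEq ι] (s : Finset ι) (z : ι → ℝ)
    {lo hi : ℝ} (hz : ∀ i ∈ s, lo ≤ z i ∧ z i ≤ hi) (hlo : lo ≤ v) (hhi : v ≤ hi) (hs : ∑ i ∈ s, z i ≤ s.card * v) :
    ∃ z' : ι → ℝ, (∀ i ∈ s, lo ≤ z' i ∧ z' i ≤ v) ∧ ∑ i ∈ s, z' i = ∑ i ∈ s, z i ∧
      ∑ i ∈ s, g (z' i) ≤ ∑ i ∈ s, g (z i) := by
  refine QC_cap_aux (c := v) ?_ lo hlo s.card s z rfl (fun i hi => (hz i hi).1) hs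
  intro x y
  have h1 := hg.per (x + y - v)
  rw [sub_add_cancel] at h1
  have h2 := hg.per 0
  rw [zero_add, hg.zero] at h2
  have h3 := hg.sub x y
  linarith

theorem qcarry_down {v κ : ℝ} {g : ℝ → ℝ} (hg : QSub v κ g) {ι : Type*} [DecidableEq ι] (s : Finset ι) (z : ι → ℝ)
    {lo hi : ℝ} (hz : ∀ i ∈ s, lo ≤ z i ∧ z i ≤ hi) (hlo : lo ≤ 0) (hhi : 0 ≤ hi) (hs : 0 ≤ ∑ i ∈ s, z i) :
    ∃ z' : ι → ℝ, (∀ i ∈ s, 0 ≤ z' i ∧ z' i ≤ hi) ∧ ∑ i ∈ s, z' i = ∑ i ∈ s, z i ∧
      ∑ i ∈ s, g (z' i) ≤ ∑ i ∈ s, g (z i) := by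
  obtain ⟨w, h1, h2, h3⟩ := QC_cap_aux (g := fun x => g (-x)) (c := 0) (by
      intro x y
      have h := hg.sub (-x) (-y)
      have e : -(x + y - 0) = -x + -y := by ring
      simp only [e, neg_zero, hg.zero]
      linarith) (-hi) (by linarith) s.card s (fun i => -z i) rfl
    (fun i hi' => by have := (hz i hi').2; linarith) (by
      rw [Finset.sum_neg_distrib, mul_zero]
      linarith)
  refine ⟨fun i => -w i, fun i hi' => ?_, ?_, ?_⟩
  · have := h1 i hi'
    constructor <;> linarith [this.1, this.2]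
  · rw [Finset.sum_neg_distrib, h2, Finset.sum_neg_distrib, neg_neg]
  · simpa using h3

/-- The carry lemma: a real tuple with mean in `[0, v]` can be moved into `[0, v]` (and inside its old hull)
without changing the sum and without increasing the sum of the values of `g`. -/
theorem qcarry {v κ : ℝ} {g : ℝ → ℝ} (hv : 0 < v) (hg : QSub v κ g) {m : ℕ} (hm : 1 ≤ m) (z : Fin m → ℝ) {lo hi : ℝ}
    (hz : ∀ i, lo ≤ z i ∧ z i ≤ hi) (h0 : 0 ≤ ∑ i, z i) (h1 : ∑ i, z i ≤ m * v) :
    ∃ z' : Fin m → ℝ, (∀ i, max 0 lo ≤ z' i ∧ z' i ≤ min v hi) ∧ ∑ i, z' i = ∑ i, z i ∧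
      ∑ i, g (z' i) ≤ ∑ i, g (z i) := by
  have hmR : (1 : ℝ) ≤ m := by exact_mod_cast hm
  have hm0 : (0 : ℝ) < m := by linarith
  have hlo1 : lo ≤ v := by
    have h2 : ∑ _i : Fin m, lo ≤ ∑ i, z i := Finset.sum_le_sum fun i _ => (hz i).1
    rw [Finset.sum_const, Finset.card_univ, Fintype.card_fin, nsmul_eq_mul] at h2
    exact le_of_mul_le_mul_left (h2.trans h1) hm0
  have hhi0 : 0 ≤ hi := by
    have h2 : ∑ i, z i ≤ ∑ _i : Fin m, hi := Finset.sum_le_sum fun i _ => (hz i).2
    rw [Finset.sum_const, Finset.card_univ, Fintype.card_fin, nsmul_eq_mul] at h2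
    by_contra hcon
    push Not at hcon
    nlinarith
  obtain ⟨z1, h11, h12, h13⟩ : ∃ z1 : Fin m → ℝ, (∀ i, lo ≤ z1 i ∧ z1 i ≤ min v hi) ∧ ∑ i, z1 i = ∑ i, z i ∧
      ∑ i, g (z1 i) ≤ ∑ i, g (z i) := by
    by_cases hh : hi ≤ v
    · refine ⟨z, fun i => ⟨(hz i).1, ?_⟩, rfl, le_refl _⟩
      rw [min_eq_right hh]
      exact (hz i).2
    · push Not at hh
      obtain ⟨z1, k1, k2, k3⟩ := qcarry_up hg Finset.univ z (fun i _ => hz i) hlo1 hh.le (by
        rw [Finset.card_univ, Fintype.card_fin]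
        exact h1)
      refine ⟨z1, fun i => ?_, k2, k3⟩
      rw [min_eq_left hh.le]
      exact k1 i (Finset.mem_univ i)
  by_cases hl : 0 ≤ lo
  · refine ⟨z1, fun i => ?_, h12, h13⟩
    rw [max_eq_right hl]
    exact h11 i
  · push Not at hl
    obtain ⟨w, k1, k2, k3⟩ := qcarry_down hg Finset.univ z1 (fun i _ => h11 i) hl.le
      (le_min hv.le hhi0) (by rw [h12]; exact h0)
    refine ⟨w, fun i => ?_, k2.trans h12, k3.trans h13⟩
    rw [max_eq_left hl.le]
    exact k1 i (Finset.mem_univ i)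

end Pool.Agent.H86.Z1
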