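import Pool.Agent.H86.Z1.Sv
import Pool.Agent.H86.Z1.QC

/-!
# Project Z1: the quasi-periodic extension of `F` with period `q/m`

`Fv m q X = ⌊X m/q⌋ + F (X - ⌊X m/q⌋ q/m)`; here `F (q/m) = 1` for `0.285 m ≤ q ≤ m/2`.

Proof sketches.
* `F_node`: `mid` at `x = q/m`: `m x = q` is an integer, `Ft m q = F m 0 = 0` (`Ft_add_int`, `F_zero`).
* `Fv_of_mem`: floor is `0` for `X < q/m`; at `X = q/m` both sides are `1` (`F_node`, `F_zero`).
* `Fv_qsub`: `per`: `Int.floor_add_one` (`(X + q/m) m/q = X m/q + 1`). `sub`: write `X = a + n q/m`, `Y = b + k q/m` with `0 ≤ a, b < q/m`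
  (`n = ⌊X m/q⌋`); then `Fv (X + Y) = n + k + Fv (a + b)`; `a + b ≤ q/m`: `F_add`; `a + b > q/m`: `Fv (a + b) = 1 + F (a + b - q/m)` and `sv`.
* `Fv_le`, `Fv_nonneg`: `F ≤ m/(m-1) ≤ 101/100`, `F ≥ 0`.
* `Fv_tuple`: shift by `-n q/m` (`QSub.int`), `qcarry`, then `F_tuple` with bounds `max 0 (lo - n v)`, `min v (hi - n v)`, `v = q/m`; on `[0,v]` `Fv = F` (`Fv_of_mem`).
-/

set_option autoImplicit false

namespace Pool.Agent.H86.Z1

open Finset Pool.Agent.H14RC Pool.Agent.H86.FM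

noncomputable def Fv (m q : ℕ) (X : ℝ) : ℝ :=
  (⌊X * m / q⌋ : ℝ) + F m (X - (⌊X * m / q⌋ : ℝ) * ((q : ℝ) / m))

private theorem fv_facts {m : ℕ} (hm : 100000000 ≤ m) {q : ℕ} (hq : 285 * m ≤ 1000 * q) :
    (100000000 : ℝ) ≤ m ∧ (0 : ℝ) < q ∧ 285 / 1000 ≤ (q : ℝ) / m := by
  have hmR : (100000000 : ℝ) ≤ m := by exact_mod_cast hm
  have hqR : (285 : ℝ) * m ≤ 1000 * q := by exact_mod_cast hq
  have hm0 : (0 : ℝ) < m := by linarith
  refine ⟨hmR, by linarith, ?_⟩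
  rw [le_div_iff₀ hm0]
  linarith

private theorem fv_half {m : ℕ} (hm : 100000000 ≤ m) {q : ℕ} (hq2 : 2 * q ≤ m) :
    (q : ℝ) / m ≤ 1 / 2 := by
  have hmR : (100000000 : ℝ) ≤ m := by exact_mod_cast hm
  have hqR : (2 : ℝ) * q ≤ m := by exact_mod_cast hq2
  have hm0 : (0 : ℝ) < m := by linarith
  rw [div_le_iff₀ hm0]
  linarith

theorem F_node {m : ℕ} (hm : 100000000 ≤ m) {q : ℕ} (hq : 285 * m ≤ 1000 * q) (hq2 : 2 * q ≤ m) :
    F m ((q : ℝ) / m) = 1 := by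
  obtain ⟨hmR, hq0, hv⟩ := fv_facts hm hq
  have hv2 := fv_half hm hq2
  have hm0 : (0 : ℝ) < m := by linarith
  have h5 : (5 : ℝ) / m ≤ 1 / 1000 := by
    rw [div_le_iff₀ hm0]
    linarith
  rw [mid (by omega) (by linarith) (by linarith), mul_div_cancel₀ _ hm0.ne']
  unfold Ft
  rw [Int.fract_natCast, F_zero (by omega), zero_div, add_zero]

private theorem Fv_lt {m q : ℕ} (hm0 : (0 : ℝ) < m) (hq0 : (0 : ℝ) < q) {X : ℝ}
    (h0 : 0 ≤ X) (h1 : X < (q : ℝ) / m) : Fv m q X = F m X := by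
  have h2 : ⌊X * m / q⌋ = 0 := by
    rw [Int.floor_eq_zero_iff]
    constructor
    · positivity
    · rw [div_lt_one hq0]
      exact (lt_div_iff₀ hm0).1 h1
  unfold Fv
  rw [h2]
  simp

theorem Fv_of_mem {m : ℕ} (hm : 100000000 ≤ m) {q : ℕ} (hq : 285 * m ≤ 1000 * q) (hq2 : 2 * q ≤ m) {X : ℝ}
    (h0 : 0 ≤ X) (h1 : X ≤ (q : ℝ) / m) : Fv m q X = F m X := by
  obtain ⟨hmR, hq0, hv⟩ := fv_facts hm hq
  have hm0 : (0 : ℝ) < m := by linarith
  rcases lt_or_eq_of_le h1 with h | h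
  · exact Fv_lt hm0 hq0 h0 h
  · subst h
    have h2 : (q : ℝ) / m * m / q = 1 := by
      field_simp
    unfold Fv
    rw [h2, Int.floor_one, F_node hm hq hq2]
    simp only [Int.cast_one, one_mul, sub_self]
    rw [F_zero (by omega), add_zero]

private theorem Fv_int {m q : ℕ} (hm0 : (0 : ℝ) < m) (hq0 : (0 : ℝ) < q) (x : ℝ) (n : ℤ) :
    Fv m q (x + n * ((q : ℝ) / m)) = Fv m q x + n := by
  have h1 : (x + n * ((q : ℝ) / m)) * m / q = x * m / q + n := by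
    field_simp
  unfold Fv
  rw [h1, Int.floor_add_intCast]
  push_cast
  have h2 : x + n * ((q : ℝ) / m) - ((⌊x * m / q⌋ : ℝ) + n) * ((q : ℝ) / m) =
      x - (⌊x * m / q⌋ : ℝ) * ((q : ℝ) / m) := by ring
  rw [h2]
  ring

private theorem Fv_rem {m q : ℕ} (hm0 : (0 : ℝ) < m) (hq0 : (0 : ℝ) < q) (x : ℝ) :
    ∃ (n : ℤ) (a : ℝ), x = a + n * ((q : ℝ) / m) ∧ 0 ≤ a ∧ a < (q : ℝ) / m := by
  have hv : (0 : ℝ) < (q : ℝ) / m := div_pos hq0 hm0
  refine ⟨⌊x * m / q⌋, x - ⌊x * m / q⌋ * ((q : ℝ) / m), by ring, ?_, ?_⟩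
  · have h := Int.floor_le (x * m / q)
    have h2 : (⌊x * m / q⌋ : ℝ) * ((q : ℝ) / m) ≤ x * m / q * ((q : ℝ) / m) :=
      mul_le_mul_of_nonneg_right h hv.le
    have h3 : x * m / q * ((q : ℝ) / m) = x := by field_simp
    linarith
  · have h := Int.lt_floor_add_one (x * m / q)
    have h2 : x * m / q * ((q : ℝ) / m) < ((⌊x * m / q⌋ : ℝ) + 1) * ((q : ℝ) / m) :=
      mul_lt_mul_of_pos_right h hv
    have h3 : x * m / q * ((q : ℝ) / m) = x := by field_simp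
    rw [h3] at h2
    linarith

theorem Fv_qsub {m : ℕ} (hm : 100000000 ≤ m) {q : ℕ} (hq : 285 * m ≤ 1000 * q) (hq2 : 2 * q ≤ m) :
    QSub ((q : ℝ) / m) 1 (Fv m q) := by
  obtain ⟨hmR, hq0, hv⟩ := fv_facts hm hq
  have hv2 := fv_half hm hq2
  have hm0 : (0 : ℝ) < m := by linarith
  refine ⟨?_, ?_, ?_⟩
  · rw [Fv_of_mem hm hq hq2 le_rfl (by linarith), F_zero (by omega)]
  · intro x
    have h := Fv_int hm0 hq0 x 1
    simpa using h
  · intro X Y
    obtain ⟨n, a, rfl, ha0, ha1⟩ := Fv_rem hm0 hq0 X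
    obtain ⟨k, b, rfl, hb0, hb1⟩ := Fv_rem hm0 hq0 Y
    have e : a + n * ((q : ℝ) / m) + (b + k * ((q : ℝ) / m)) =
        (a + b) + ((n + k : ℤ) : ℝ) * ((q : ℝ) / m) := by
      push_cast
      ring
    rw [e, Fv_int hm0 hq0, Fv_int hm0 hq0, Fv_int hm0 hq0,
      Fv_of_mem hm hq hq2 ha0 ha1.le, Fv_of_mem hm hq hq2 hb0 hb1.le]
    have key : Fv m q (a + b) ≤ F m a + F m b := by
      rcases le_total (a + b) ((q : ℝ) / m) with h | h
      · rw [Fv_of_mem hm hq hq2 (by linarith) h]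
        exact F_add (by omega) ha0 hb0 (by linarith)
      · have e2 : a + b = (a + b - (q : ℝ) / m) + ((1 : ℤ) : ℝ) * ((q : ℝ) / m) := by
          push_cast
          ring
        rw [e2, Fv_int hm0 hq0, Fv_of_mem hm hq hq2 (by linarith) (by linarith)]
        have h3 := sv hm hq hq2 ha0 ha1.le hb0 hb1.le h
        push_cast
        linarith
    push_cast
    linarith

private theorem F_out {m : ℕ} (hm : 1 ≤ m) {x : ℝ} (hx : 1 < x) : F m x = 0 := by
  unfold F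
  apply Real.sSup_of_not_bddAbove
  rintro ⟨M, hM⟩
  have hf : InClass m (fun t => if t = x then M + 1 else G t) := by
    have hne : ∀ t : ℝ, t ≤ 1 → (if t = x then M + 1 else G t) = G t := by
      intro t ht
      rw [if_neg]
      rintro rfl
      linarith
    obtain ⟨g0, g1, ⟨N, hN⟩, gr⟩ := G_inClass (m := m) hm
    refine ⟨?_, ?_, ⟨N, ?_⟩, ?_⟩
    · exact (hne 0 zero_le_one).trans_le g0
    · exact (hne 1 le_rfl).trans_le g1
    · intro t h0 h1
      exact (hne t h1).trans_le (hN t h0 h1)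
    · intro y hy hmono
      have h := gr y hy hmono
      have hm0 : (0 : ℝ) < m := by exact_mod_cast hm
      have hmean : (∑ i ∈ range m, y i) / m ≤ 1 := by
        rw [div_le_one hm0]
        have h2 : ∑ i ∈ range m, y i ≤ ∑ _i ∈ range m, (1 : ℝ) :=
          Finset.sum_le_sum fun i hi => (hy i (Finset.mem_range.1 hi)).2
        simpa using h2
      have hsum : ∑ i ∈ range m, (if y i = x then M + 1 else G (y i)) = ∑ i ∈ range m, G (y i) :=
        Finset.sum_congr rfl fun i hi => hne _ (hy i (Finset.mem_range.1 hi)).2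
      show (if (∑ i ∈ range m, y i) / m = x then M + 1 else G ((∑ i ∈ range m, y i) / m)) ≤
        (∑ i ∈ range m, (if y i = x then M + 1 else G (y i))) / m + (y (m - 1) - y 0)
      rw [hne _ hmean, hsum]
      exact h
  have h1 := hM ⟨_, hf, rfl⟩
  simp only [if_true] at h1
  linarith

theorem Fv_le {m : ℕ} (hm : 100000000 ≤ m) {q : ℕ} (hq : 285 * m ≤ 1000 * q) (X : ℝ) :
    Fv m q X ≤ X * m / q + 101 / 100 := by
  obtain ⟨hmR, hq0, hv⟩ := fv_facts hm hq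
  have hm0 : (0 : ℝ) < m := by linarith
  have h1 := Int.floor_le (X * m / q)
  have key : ∀ a : ℝ, 0 ≤ a → F m a ≤ 101 / 100 := by
    intro a ha
    rcases le_or_gt a 1 with h | h
    · refine (F_le_sup (by omega) ha h).trans ?_
      rw [div_le_iff₀ (by linarith)]
      linarith
    · rw [F_out (by omega) h]
      norm_num
  have h2 : 0 ≤ X - (⌊X * m / q⌋ : ℝ) * ((q : ℝ) / m) := by
    have h3 : (⌊X * m / q⌋ : ℝ) * ((q : ℝ) / m) ≤ X * m / q * ((q : ℝ) / m) :=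
      mul_le_mul_of_nonneg_right h1 (div_pos hq0 hm0).le
    have h4 : X * m / q * ((q : ℝ) / m) = X := by field_simp
    linarith
  have h3 := key _ h2
  unfold Fv
  linarith

theorem Fv_tuple {m : ℕ} (hm : 100000000 ≤ m) {q : ℕ} (hq : 285 * m ≤ 1000 * q) (hq2 : 2 * q ≤ m)
    (z : Fin m → ℝ) {lo hi : ℝ} (hz : ∀ i, lo ≤ z i ∧ z i ≤ hi) (n : ℤ)
    (h0 : (n : ℝ) * ((q : ℝ) / m) ≤ (∑ i, z i) / m) (h1 : (∑ i, z i) / m ≤ ((n : ℝ) + 1) * ((q : ℝ) / m)) :
    Fv m q ((∑ i, z i) / m) ≤ (∑ i, Fv m q (z i)) / m +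
      (min (((n : ℝ) + 1) * ((q : ℝ) / m)) hi - max ((n : ℝ) * ((q : ℝ) / m)) lo) := by
  obtain ⟨hmR, hq0, hv⟩ := fv_facts hm hq
  have hv2 := fv_half hm hq2
  have hmR : (0 : ℝ) < m := by linarith
  set v : ℝ := (q : ℝ) / m with hvdef
  have hsum : ∑ i, (z i - n * v) = ∑ i, z i - m * (n * v) := by
    rw [Finset.sum_sub_distrib, Finset.sum_const, Finset.card_univ, Fintype.card_fin, nsmul_eq_mul]
  have h0' : (n : ℝ) * v * m ≤ ∑ i, z i := (le_div_iff₀ hmR).mp h0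
  have h1' : ∑ i, z i ≤ ((n : ℝ) + 1) * v * m := (div_le_iff₀ hmR).mp h1
  obtain ⟨w, hw1, hw2, hw3⟩ := qcarry (by linarith) (Fv_qsub hm hq hq2) (m := m) (by omega)
    (fun i => z i - n * v) (lo := lo - n * v) (hi := hi - n * v)
    (fun i => ⟨by linarith [(hz i).1], by linarith [(hz i).2]⟩)
    (by rw [hsum]; linarith) (by rw [hsum]; linarith)
  rw [← hvdef] at hw1
  have hper : ∀ x : ℝ, Fv m q (x - n * v) = Fv m q x - n := by
    intro x
    have h := Fv_int (m := m) hmR hq0 (x - n * v) n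
    rw [← hvdef, sub_add_cancel] at h
    linarith
  have hw3' : ∑ i, Fv m q (w i) ≤ ∑ i, Fv m q (z i) - m * n := by
    refine hw3.trans (le_of_eq ?_)
    rw [Finset.sum_congr rfl fun i _ => hper (z i), Finset.sum_sub_distrib, Finset.sum_const,
      Finset.card_univ, Fintype.card_fin, nsmul_eq_mul]
  have hw01 : ∀ i, 0 ≤ w i ∧ w i ≤ v := fun i =>
    ⟨(le_max_left _ _).trans (hw1 i).1, (hw1 i).2.trans (min_le_left _ _)⟩
  have hFt : F m ((∑ i, w i) / m) ≤ (∑ i, F m (w i)) / m +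
      (min v (hi - n * v) - max 0 (lo - n * v)) :=
    F_tuple (by omega) w (le_max_left _ _) ((min_le_left _ _).trans (by linarith)) hw1
  have hsw : (∑ i, w i) / m = (∑ i, z i) / m - n * v := by
    rw [hw2, hsum, sub_div, mul_div_cancel_left₀ _ hmR.ne']
  have hFw : ∑ i, F m (w i) = ∑ i, Fv m q (w i) :=
    Finset.sum_congr rfl fun i _ => (Fv_of_mem hm hq hq2 (hw01 i).1 (hw01 i).2).symm
  have hmean : F m ((∑ i, w i) / m) = Fv m q ((∑ i, z i) / m) - n := by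
    rw [hsw, ← Fv_of_mem hm hq hq2 (by linarith) (by linarith), hper]
  rw [hmean, hFw] at hFt
  have hdiv : (∑ i, Fv m q (w i)) / m ≤ (∑ i, Fv m q (z i)) / m - n := by
    have h := div_le_div_of_nonneg_right hw3' hmR.le
    rwa [sub_div, mul_div_cancel_left₀ _ hmR.ne'] at h
  have e1 : min v (hi - n * v) = min (((n : ℝ) + 1) * v) hi - n * v := by
    rw [← min_sub_sub_right]
    congr 1
    ring
  have e2 : max (0 : ℝ) (lo - n * v) = max ((n : ℝ) * v) lo - n * v := by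
    rw [← max_sub_sub_right]
    congr 1
    ring
  rw [e1, e2] at hFt
  linarith

end Pool.Agent.H86.Z1
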