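import Pool.Agent.H86.FM.GFacts

/-!
# Project Z1: more facts about the limit function `G`

Proof sketches.
* `G_sqrt`: `G_explicit 1` of `Pool.Agent.H14RC.Core` (`k = 1`: `(2/3)^6 = 64/729`, `(1/2)^2 = 1/4`), `x ^ (1/2) = √x` (`Real.sqrt_eq_rpow`).
* `G_le_sqrt`: `G_le 1` and `a 1 x = 2 * x^(1/2)`.
* `G_ge_lin`: concavity `G_conc` between `0` and `64/729`, `G (64/729) = 16/27` (`G_sqrt`), `G 0 = 0`.
* `G_ge_one`, `G_ge_four`, `G_ge_four'`: `w_le_G`.
* `G_ge_twelve`: as `G_ge_ten` of `GFacts` (`gf_ten`: with `r^(k+1) = x ≤ 1/100` show `12 r ≤ k+1`, since `(12/n)^n ≤ 100` for all `n ≥ 1`, `n = k+1`: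
  `n ≥ 12` is `r ≤ 1`; `n = 1,...,11` are numbers).
* `G_conc2`: `G_conc`.
-/

set_option autoImplicit false

namespace Pool.Agent.H86.Z1

open Finset Pool.Agent.H14RC Pool.Agent.H86.FM

private lemma gb_a_one (x : ℝ) : a 1 x = 2 * √x := by
  unfold a
  rw [Real.sqrt_eq_rpow]
  norm_num

theorem G_sqrt {x : ℝ} (h0 : 64 / 729 ≤ x) (h1 : x ≤ 1 / 4) : G x = 2 * √x := by
  have h := G_explicit 1 x (by norm_num; linarith) (by norm_num; linarith) (by linarith)
  rw [← gb_a_one]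
  exact h

theorem G_le_sqrt {x : ℝ} (h0 : 0 ≤ x) (h1 : x ≤ 1) : G x ≤ 2 * √x := by
  rw [← gb_a_one]
  exact G_le 1 h0 h1

theorem G_ge_lin {x : ℝ} (h0 : 0 ≤ x) (h1 : x ≤ 64 / 729) : 27 / 4 * x ≤ G x := by
  have h2 : G (64 / 729) = 16 / 27 := by
    rw [G_sqrt le_rfl (by norm_num)]
    have : (64 : ℝ) / 729 = (8 / 27) ^ 2 := by norm_num
    rw [this, Real.sqrt_sq (by norm_num)]
    norm_num
  have h3 := G_conc (x := 64 / 729) (y := 0) (s := 729 / 64 * x) (t := 1 - 729 / 64 * x)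
    (by norm_num) (by norm_num) le_rfl zero_le_one (by linarith) (by linarith) (by ring)
  have h4 : 729 / 64 * x * (64 / 729) + (1 - 729 / 64 * x) * 0 = x := by ring
  rw [h4, h2, G_zero] at h3
  linarith

theorem G_ge_one {x : ℝ} (h0 : 1 / 4 ≤ x) (h1 : x ≤ 3 / 4) : 1 ≤ G x := by
  refine le_trans ?_ (w_le_G (by linarith) (by linarith))
  exact le_min le_rfl (le_min (by linarith) (by linarith))

theorem G_ge_four {x : ℝ} (h0 : 0 ≤ x) (h1 : x ≤ 1 / 4) : 4 * x ≤ G x := by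
  refine le_trans ?_ (w_le_G h0 (by linarith))
  exact le_min (by linarith) (le_min le_rfl (by linarith))

theorem G_ge_four' {x : ℝ} (h0 : 3 / 4 ≤ x) (h1 : x ≤ 1) : 4 * (1 - x) ≤ G x := by
  refine le_trans ?_ (w_le_G (by linarith) h1)
  exact le_min (by linarith) (le_min (by linarith) le_rfl)

private lemma gb_twelve (k : ℕ) {x : ℝ} (hx0 : 0 ≤ x) (hx1 : x ≤ 1 / 100) : 12 * x ≤ a k x := by
  obtain ⟨r, hr0, hr⟩ := exists_root k hx0
  have h1 : 12 * r ≤ (k : ℝ) + 1 := by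
    by_contra hcon
    push Not at hcon
    rcases le_or_gt 11 k with hk | hk
    · have hk' : (11 : ℝ) ≤ k := by exact_mod_cast hk
      have hr1 : 1 ≤ r := by linarith
      have := one_le_pow₀ hr1 (n := k + 1)
      rw [hr] at this
      linarith
    · have h2 : (((k : ℝ) + 1) / 12) ^ (k + 1) ≤ r ^ (k + 1) :=
        pow_le_pow_left₀ (by positivity) (by linarith) _
      rw [hr] at h2
      have h3 : (1 : ℝ) / 100 < (((k : ℝ) + 1) / 12) ^ (k + 1) := by
        interval_cases k <;> norm_num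
      linarith
  rw [← hr, a_pow k hr0, pow_succ]
  have h4 : 0 ≤ r ^ k := by positivity
  nlinarith [mul_le_mul_of_nonneg_right h1 h4]

theorem G_ge_twelve {x : ℝ} (h0 : 0 ≤ x) (h1 : x ≤ 1 / 100) : 12 * x ≤ G x := by
  apply le_G
  · intro k
    exact gb_twelve k h0 h1
  · intro k
    have h2 := (a_quarter k).trans (a_mono k (y := 1 - x) (by norm_num) (by linarith))
    linarith

end Pool.Agent.H86.Z1
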