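import Pool.Agent.H86.FM.Group
import Pool.Agent.H86.Z1.Fv
import Pool.Agent.H86.Z1.GB

/-!
# Project Z1: the group inequality for the quasi-periodic extension

* `Fv_le'`: with `a = X - n q/m ∈ [0, q/m)`, `v = q/m`: `Fv X = n + F a ≤ n + 2 √a + 6/m ≤ n + a/v + v + 6/m = X/v + v + 6/m` (`F_le_G`, `G_le_sqrt`, AM-GM).
* `group_v`: `s = ∑ d i`. If `s ≤ q/m`: `group` (`s ≤ 1`) and `Fv_of_mem`. If `s > q/m ≥ 0.285`: `F (d i) ≥ G (d i) ≥ 12 d i` (`G_le_F`, `G_ge_twelve`), so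
`∑ F (d i) ≥ 12 s`; `Fv s ≤ s m/q + q/m + 6/m` (`Fv_le'`), `q/m + 6/m ≤ 0.51 ≤ 1.8 s`; `m b ≤ 5 s` because `A.card ≥ m/5`; the total is `≤ 10.4 s`.
-/

set_option autoImplicit false

namespace Pool.Agent.H86.Z1

open Finset Pool.Agent.H14RC Pool.Agent.H86.FM

theorem Fv_le' {m : ℕ} (hm : 100000000 ≤ m) {q : ℕ} (hq : 285 * m ≤ 1000 * q) (hq2 : 2 * q ≤ m) (X : ℝ) :
    Fv m q X ≤ X * m / q + (q : ℝ) / m + 6 / m := by
  have hmR : (100000000 : ℝ) ≤ m := by exact_mod_cast hm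
  have hqR : (285 : ℝ) * m ≤ 1000 * q := by exact_mod_cast hq
  have hqR2 : (2 : ℝ) * q ≤ m := by exact_mod_cast hq2
  have hm0 : (0 : ℝ) < m := by linarith
  have hq0 : (0 : ℝ) < q := by linarith
  have hv0 : (0 : ℝ) < (q : ℝ) / m := div_pos hq0 hm0
  have hv2 : (q : ℝ) / m ≤ 1 / 2 := by
    rw [div_le_iff₀ hm0]; linarith
  have hfl := Int.floor_le (X * m / q)
  have hfl2 := Int.lt_floor_add_one (X * m / q)
  have hXv : X * m / q * ((q : ℝ) / m) = X := by field_simp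
  have ha0 : 0 ≤ X - (⌊X * m / q⌋ : ℝ) * ((q : ℝ) / m) := by
    have h := mul_le_mul_of_nonneg_right hfl hv0.le
    linarith
  have ha1 : X - (⌊X * m / q⌋ : ℝ) * ((q : ℝ) / m) ≤ (q : ℝ) / m := by
    have h := mul_le_mul_of_nonneg_right hfl2.le hv0.le
    rw [hXv] at h
    linarith
  have hdiv : X * m / q = (⌊X * m / q⌋ : ℝ) + (X - (⌊X * m / q⌋ : ℝ) * ((q : ℝ) / m)) / ((q : ℝ) / m) := by
    field_simp
    ring
  unfold Fv
  set a : ℝ := X - (⌊X * m / q⌋ : ℝ) * ((q : ℝ) / m) with hadef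
  have h1 := F_le_G (m := m) (by omega) ha0 (by linarith)
  have h2 := G_le_sqrt ha0 (by linarith)
  have h3 : 2 * √a ≤ a / ((q : ℝ) / m) + (q : ℝ) / m := by
    have hs := Real.sq_sqrt ha0
    have e : a / ((q : ℝ) / m) + (q : ℝ) / m = (a + ((q : ℝ) / m) * ((q : ℝ) / m)) / ((q : ℝ) / m) := by
      rw [add_div, mul_div_assoc, div_self hv0.ne', mul_one]
    rw [e, le_div_iff₀ hv0]
    nlinarith [sq_nonneg (√a - (q : ℝ) / m)]
  linarith

theorem group_v {m : ℕ} (hm : 100000000 ≤ m) {q : ℕ} (hq : 285 * m ≤ 1000 * q) (hq2 : 2 * q ≤ m)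
    {ι : Type*} [DecidableEq ι] (A : Finset ι) (d : ι → ℝ) {b : ℝ} (hb : 0 ≤ b)
    (hd : ∀ i ∈ A, b ≤ d i ∧ d i ≤ 1 / 100) (hcard : (m : ℝ) / 5 + 15 ≤ A.card) :
    Fv m q (∑ i ∈ A, d i) + m * b ≤ ∑ i ∈ A, F m (d i) := by
  have hmR : (100000000 : ℝ) ≤ m := by exact_mod_cast hm
  have hqR : (285 : ℝ) * m ≤ 1000 * q := by exact_mod_cast hq
  have hqR2 : (2 : ℝ) * q ≤ m := by exact_mod_cast hq2
  have hm0 : (0 : ℝ) < m := by linarith
  have hq0 : (0 : ℝ) < q := by linarith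
  have hv0 : (0 : ℝ) < (q : ℝ) / m := div_pos hq0 hm0
  have hv1 : 285 / 1000 ≤ (q : ℝ) / m := by
    rw [le_div_iff₀ hm0]; linarith
  have hv2 : (q : ℝ) / m ≤ 1 / 2 := by
    rw [div_le_iff₀ hm0]; linarith
  have hs0 : 0 ≤ ∑ i ∈ A, d i := Finset.sum_nonneg fun i hi => hb.trans (hd i hi).1
  rcases le_or_gt (∑ i ∈ A, d i) ((q : ℝ) / m) with hs | hs
  · rw [Fv_of_mem hm hq hq2 hs0 hs]
    exact group (by omega) A d hb (fun i hi => (hd i hi).1) (by linarith) hcard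
  · have h1 : 12 * ∑ i ∈ A, d i ≤ ∑ i ∈ A, F m (d i) := by
      rw [Finset.mul_sum]
      refine Finset.sum_le_sum fun i hi => ?_
      have h0 : 0 ≤ d i := hb.trans (hd i hi).1
      exact (G_ge_twelve h0 (hd i hi).2).trans
        (G_le_F (by omega) h0 ((hd i hi).2.trans (by norm_num)))
    have h2 : (A.card : ℝ) * b ≤ ∑ i ∈ A, d i := by
      have h := Finset.card_nsmul_le_sum A d b (fun i hi => (hd i hi).1)
      rwa [nsmul_eq_mul] at h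
    have h3 : (m : ℝ) * b ≤ 5 * ∑ i ∈ A, d i := by
      have h : ((m : ℝ) / 5) * b ≤ A.card * b := mul_le_mul_of_nonneg_right (by linarith) hb
      linarith
    have h4 := Fv_le' hm hq hq2 (∑ i ∈ A, d i)
    have h5 : (∑ i ∈ A, d i) * m / q ≤ 1000 / 285 * ∑ i ∈ A, d i := by
      rw [div_le_iff₀ hq0]
      have h := mul_le_mul_of_nonneg_left hqR hs0
      linarith
    have h6 : (6 : ℝ) / m ≤ 1 / 100 := by
      rw [div_le_iff₀ hm0]; linarith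
    linarith

end Pool.Agent.H86.Z1
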