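import Pool.Agent.H86.Z1.Th
import Pool.Agent.H86.Z1.GrV

/-!
# Project Z1: tuples with many small entries

Proof sketches.
* `top_merge`: `t i = m x i - q ∈ [0, τ]`, `τ = m hi - q ≤ 1`. `F (x i) = 1 + Ft (m x i)/m = 1 + F (t i)/m` (`mid`, `Ft_add_int`, `Ft_of_mem`). `F_tuple` for the tuple `t i` (`i ∈ P`),
  `0` (others), bounds `0`, `τ`: `F ((∑_P t i)/m) ≤ (∑_P F (t i))/m + τ`, and `(∑_P t i)/m = ∑_P x i - |P| q/m`.
* `exch_few`: `A = {x i ≤ 1/100}`, `P = {q/m < x i}` has at most `q` elements, `B` = the rest. With `μ = ∑_P x i - |P| q/m ∈ [0, |P|/m] ⊆ [0, q/m]`: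
  `∑ F (x i) + m (hi - lo) ≥ [Fv q (∑_A x i) + m lo] + ∑_B F (x i) + |P| + F μ - (m hi - q) + m (hi - lo)` (`group_v`, `top_merge`)
  `= q + Fv q (∑_A x i) + ∑_B Fv q (x i) + Fv q (|P| q/m) + Fv q μ ≥ q + Fv q (∑ x i) = T_q (∑ x i)` (`Fv_of_mem`, `QSub.int`, `Fv_qsub`: subadditive).
* `exch_many`: `|{q/m < x i}| ≥ q + 1`: choose a subset `P` of exactly `q + 1` elements, `B` = everything outside `A ∪ P`, `q' = q + 1`. All the `x i ≤ hi ≤ (q+1)/m`, `μ ≤ (q+1)/m`.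
  `∑ F (x i) + m (hi - lo) ≥ [Fv q' (∑_A x i) + m lo] + ∑_B F (x i) + (q+1) + F μ - (m hi - q) + m (hi - lo)
   = (q + 1) + [q + Fv q' (∑_A x i) + ∑_B Fv q' (x i) + Fv q' μ]` and `q = Fv q' (q (q+1)/m)`, `q (q+1)/m = (q+1) (q/m)`, so this is
  `≥ (q+1) + Fv q' (∑ x i) = T_(q+1) (∑ x i)`.
* `exch`: `q = ⌊m hi⌋₊`; `q`, `q + 1` in `Qs m` (`Qs` membership from `29/100 ≤ hi ≤ 4999/10000`, `m ≥ 10^8`), `Th_le`.
-/

set_option autoImplicit false

namespace Pool.Agent.H86.Z1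

open Finset Pool.Agent.H14RC Pool.Agent.H86.FM

private theorem ex_facts {m : ℕ} (hm : 100000000 ≤ m) {q : ℕ} (hq : 285 * m ≤ 1000 * q)
    (hq2 : 2 * (q + 1) ≤ m) : (100000000 : ℝ) ≤ m ∧ 285 / 1000 ≤ (q : ℝ) / m ∧
      ((q : ℝ) + 1) / m ≤ 1 / 2 ∧ (5 : ℝ) / m ≤ 1 / 1000 := by
  have hmR : (100000000 : ℝ) ≤ m := by exact_mod_cast hm
  have hqR : (285 : ℝ) * m ≤ 1000 * q := by exact_mod_cast hq
  have hq2R : (2 : ℝ) * (q + 1) ≤ m := by exact_mod_cast hq2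
  have hm0 : (0 : ℝ) < m := by linarith
  refine ⟨hmR, ?_, ?_, ?_⟩
  · rw [le_div_iff₀ hm0]
    linarith
  · rw [div_le_iff₀ hm0]
    linarith
  · rw [div_le_iff₀ hm0]
    linarith

theorem top_merge {m : ℕ} (hm : 100000000 ≤ m) {q : ℕ} (hq : 285 * m ≤ 1000 * q) (hq2 : 2 * (q + 1) ≤ m)
    (x : Fin m → ℝ) (P : Finset (Fin m)) {hi : ℝ} (hP : ∀ i ∈ P, (q : ℝ) / m ≤ x i ∧ x i ≤ hi)
    (h1 : (q : ℝ) ≤ m * hi) (h2 : m * hi ≤ q + 1) :
    P.card + F m (∑ i ∈ P, x i - P.card * ((q : ℝ) / m)) ≤ ∑ i ∈ P, F m (x i) + (m * hi - q) := by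
  classical
  obtain ⟨hmR, hv, hv2, h5⟩ := ex_facts hm hq hq2
  have hm0 : (0 : ℝ) < m := by linarith
  have hm2 : 2 ≤ m := by omega
  have hhi : hi ≤ ((q : ℝ) + 1) / m := by
    rw [le_div_iff₀ hm0]
    linarith
  have ht : ∀ i ∈ P, 0 ≤ m * x i - q ∧ m * x i - q ≤ m * hi - q := by
    intro i hi'
    have h3 := hP i hi'
    have h4 := (div_le_iff₀ hm0).1 h3.1
    constructor
    · linarith
    · have := mul_le_mul_of_nonneg_left h3.2 hm0.le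
      linarith
  have hF : ∀ i ∈ P, F m (x i) = 1 + F m (m * x i - q) / m := by
    intro i hi'
    have h3 := hP i hi'
    have h4 := ht i hi'
    rw [mid (by omega) (by linarith) (by linarith)]
    have e : (m : ℝ) * x i = (m * x i - q) + ((q : ℤ) : ℝ) := by
      push_cast
      ring
    have e2 : Pool.Agent.H86.FM.Ft m ((m : ℝ) * x i) = F m (m * x i - q) := by
      have e3 := Ft_add_int m (m * x i - q) (q : ℤ)
      rw [← e] at e3
      rw [e3, Ft_of_mem hm2 (by linarith) (by linarith)]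
    rw [e2]
  set z : Fin m → ℝ := fun i => if i ∈ P then m * x i - q else 0 with hz
  have hzb : ∀ i, 0 ≤ z i ∧ z i ≤ m * hi - q := by
    intro i
    simp only [hz]
    split_ifs with h
    · exact ht i h
    · exact ⟨le_refl _, by linarith⟩
  have key := F_tuple hm2 z (le_refl 0) (by linarith : m * hi - q ≤ 1) hzb
  have hs1 : ∑ i, z i = ∑ i ∈ P, (m * x i - q) := by
    rw [hz, Finset.sum_ite_mem, Finset.univ_inter]
  have hs2 : ∑ i, F m (z i) = ∑ i ∈ P, F m (m * x i - q) := by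
    have e : ∀ i, F m (z i) = if i ∈ P then F m (m * x i - q) else 0 := by
      intro i
      simp only [hz]
      split_ifs
      · rfl
      · exact F_zero hm2
    rw [Finset.sum_congr rfl fun i _ => e i, Finset.sum_ite_mem, Finset.univ_inter]
  have hs3 : (∑ i, z i) / m = ∑ i ∈ P, x i - P.card * ((q : ℝ) / m) := by
    rw [hs1, Finset.sum_sub_distrib, ← Finset.mul_sum, Finset.sum_const, nsmul_eq_mul, sub_div,
      mul_div_cancel_left₀ _ hm0.ne', mul_div_assoc]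
  have hs4 : ∑ i ∈ P, F m (x i) = P.card + (∑ i ∈ P, F m (m * x i - q)) / m := by
    rw [Finset.sum_congr rfl hF, Finset.sum_add_distrib, Finset.sum_const, nsmul_eq_mul, mul_one,
      Finset.sum_div]
  rw [hs3, hs2] at key
  rw [hs4]
  linarith

private theorem ex_core {m : ℕ} (hm : 100000000 ≤ m) {q : ℕ} (hq : 285 * m ≤ 1000 * q)
    (hq2 : 2 * (q + 1) ≤ m) {q' : ℕ} (hq' : 285 * m ≤ 1000 * q') (hq2' : 2 * q' ≤ m)
    (x : Fin m → ℝ) {lo hi : ℝ} (hlo : 0 ≤ lo) (hx : ∀ i, lo ≤ x i ∧ x i ≤ hi)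
    (h1 : (q : ℝ) ≤ m * hi) (h2 : m * hi ≤ q + 1)
    (hsmall : (m : ℝ) / 5 + 15 ≤ ((univ.filter (fun i => x i ≤ 1 / 100)).card : ℝ))
    (P : Finset (Fin m)) (hP : ∀ i ∈ P, (q : ℝ) / m < x i)
    (hB : ∀ i, i ∉ P → x i ≤ (q' : ℝ) / m) (hc : P.card ≤ q') (n : ℕ)
    (hn : (P.card : ℝ) * ((q : ℝ) / m) = n * ((q' : ℝ) / m)) :
    Fv m q' (∑ i, x i) + P.card ≤ ∑ i, F m (x i) + (m * hi - q) - m * lo + n := by
  classical
  obtain ⟨hmR, hv, hv2, h5⟩ := ex_facts hm hq hq2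
  have hm0 : (0 : ℝ) < m := by linarith
  have hhi : hi ≤ ((q : ℝ) + 1) / m := by
    rw [le_div_iff₀ hm0]
    linarith
  have hqs := Fv_qsub hm hq' hq2'
  set A := univ.filter (fun i => x i ≤ 1 / 100) with hA
  have hAP : Disjoint A P := by
    rw [Finset.disjoint_left]
    intro i h3 h4
    rw [hA, mem_filter] at h3
    have h6 := hP i h4
    linarith [h3.2]
  set B := univ \ (A ∪ P) with hBd
  have hsplit : ∀ f : Fin m → ℝ, ∑ i, f i = (∑ i ∈ A, f i + ∑ i ∈ P, f i) + ∑ i ∈ B, f i := by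
    intro f
    rw [← Finset.sum_union hAP, hBd, add_comm, Finset.sum_sdiff (Finset.subset_univ _)]
  have hgrp := group_v hm hq' hq2' A x hlo (fun i hi' => ⟨(hx i).1, (mem_filter.1 hi').2⟩) hsmall
  have htop := top_merge hm hq hq2 x P (fun i hi' => ⟨(hP i hi').le, (hx i).2⟩) h1 h2
  set μ := ∑ i ∈ P, x i - P.card * ((q : ℝ) / m) with hμ
  have hμ2 : μ = ∑ i ∈ P, (x i - (q : ℝ) / m) := by
    rw [hμ, Finset.sum_sub_distrib, Finset.sum_const, nsmul_eq_mul]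
  have hμ0 : 0 ≤ μ := by
    rw [hμ2]
    exact Finset.sum_nonneg fun i hi' => by linarith [hP i hi']
  have hμ1 : μ ≤ (q' : ℝ) / m := by
    rw [hμ2]
    calc ∑ i ∈ P, (x i - (q : ℝ) / m) ≤ ∑ _i ∈ P, (1 : ℝ) / m := by
          refine Finset.sum_le_sum fun i _ => ?_
          have h3 : ((q : ℝ) + 1) / m = (q : ℝ) / m + 1 / m := add_div _ _ _
          linarith [(hx i).2]
      _ = (P.card : ℝ) / m := by
          rw [Finset.sum_const, nsmul_eq_mul, mul_one_div]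
      _ ≤ (q' : ℝ) / m := by
          apply div_le_div_of_nonneg_right _ hm0.le
          exact_mod_cast hc
  have hFμ : Fv m q' μ = F m μ := Fv_of_mem hm hq' hq2' hμ0 hμ1
  have hBF : ∑ i ∈ B, Fv m q' (x i) = ∑ i ∈ B, F m (x i) := by
    refine Finset.sum_congr rfl fun i hi' => ?_
    rw [hBd, mem_sdiff, mem_union, not_or] at hi'
    exact Fv_of_mem hm hq' hq2' (hlo.trans (hx i).1) (hB i hi'.2.2)
  have hX : ∑ i, x i = ((∑ i ∈ A, x i + ∑ i ∈ B, x i) + μ) + ((n : ℤ) : ℝ) * ((q' : ℝ) / m) := by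
    rw [hsplit x, hμ, Int.cast_natCast, ← hn]
    ring
  have hFX : Fv m q' (∑ i, x i) = Fv m q' ((∑ i ∈ A, x i + ∑ i ∈ B, x i) + μ) + n := by
    rw [hX, hqs.int]
    simp
  have h7 := hqs.sub (∑ i ∈ A, x i + ∑ i ∈ B, x i) μ
  have h8 := hqs.sub (∑ i ∈ A, x i) (∑ i ∈ B, x i)
  have h9 := hqs.sum B x
  rw [hFX, hsplit (fun i => F m (x i))]
  rw [hFμ] at h7
  rw [hBF] at h9
  linarith

theorem exch_few {m : ℕ} (hm : 100000000 ≤ m) {q : ℕ} (hq : 285 * m ≤ 1000 * q) (hq2 : 2 * (q + 1) ≤ m)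
    (x : Fin m → ℝ) {lo hi : ℝ} (hlo : 0 ≤ lo) (hx : ∀ i, lo ≤ x i ∧ x i ≤ hi)
    (h1 : (q : ℝ) ≤ m * hi) (h2 : m * hi ≤ q + 1)
    (hsmall : (m : ℝ) / 5 + 15 ≤ ((univ.filter (fun i => x i ≤ 1 / 100)).card : ℝ))
    (hfew : (univ.filter (fun i => (q : ℝ) / m < x i)).card ≤ q) :
    T m q (∑ i, x i) ≤ ∑ i, F m (x i) + m * (hi - lo) := by
  have h := ex_core hm hq hq2 hq (by omega : 2 * q ≤ m) x hlo hx h1 h2 hsmall
    (univ.filter (fun i => (q : ℝ) / m < x i)) (fun i hi' => (mem_filter.1 hi').2)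
    (fun i hi' => by
      by_contra hcon
      push Not at hcon
      exact hi' (mem_filter.2 ⟨mem_univ i, hcon⟩)) hfew _ rfl
  unfold T
  linarith

theorem exch_many {m : ℕ} (hm : 100000000 ≤ m) {q : ℕ} (hq : 285 * m ≤ 1000 * q) (hq2 : 2 * (q + 1) ≤ m)
    (x : Fin m → ℝ) {lo hi : ℝ} (hlo : 0 ≤ lo) (hx : ∀ i, lo ≤ x i ∧ x i ≤ hi)
    (h1 : (q : ℝ) ≤ m * hi) (h2 : m * hi ≤ q + 1)
    (hsmall : (m : ℝ) / 5 + 15 ≤ ((univ.filter (fun i => x i ≤ 1 / 100)).card : ℝ))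
    (hmany : q + 1 ≤ (univ.filter (fun i => (q : ℝ) / m < x i)).card) :
    T m (q + 1) (∑ i, x i) ≤ ∑ i, F m (x i) + m * (hi - lo) := by
  obtain ⟨hmR, hv, hv2, h5⟩ := ex_facts hm hq hq2
  have hm0 : (0 : ℝ) < m := by linarith
  obtain ⟨P, hPs, hPc⟩ := Finset.exists_subset_card_eq hmany
  have h := ex_core hm hq hq2 (q' := q + 1) (by omega) hq2 x hlo hx h1 h2 hsmall P
    (fun i hi' => (mem_filter.1 (hPs hi')).2)
    (fun i _ => by
      refine (hx i).2.trans ?_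
      rw [le_div_iff₀ hm0]
      push_cast
      linarith) hPc.le q (by
      rw [hPc]
      push_cast
      ring)
  rw [hPc] at h
  unfold T
  push_cast at h ⊢
  linarith

theorem exch {m : ℕ} (hm : 100000000 ≤ m) (x : Fin m → ℝ) {lo hi : ℝ} (hlo : 0 ≤ lo) (hx : ∀ i, lo ≤ x i ∧ x i ≤ hi)
    (h29 : 29 / 100 ≤ hi) (h49 : hi ≤ 4999 / 10000)
    (hsmall : (m : ℝ) / 5 + 15 ≤ ((univ.filter (fun i => x i ≤ 1 / 100)).card : ℝ)) :
    Th m (∑ i, x i) ≤ ∑ i, F m (x i) + m * (hi - lo) := by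
  have hmR : (100000000 : ℝ) ≤ m := by exact_mod_cast hm
  have hm0 : (0 : ℝ) < m := by linarith
  obtain ⟨q, hqd⟩ : ∃ q : ℕ, q = ⌊(m : ℝ) * hi⌋₊ := ⟨_, rfl⟩
  have hnn : (0 : ℝ) ≤ m * hi := by
    have : 0 ≤ hi := by linarith
    positivity
  have h1 : (q : ℝ) ≤ m * hi := by
    rw [hqd]
    exact Nat.floor_le hnn
  have h2 : m * hi < q + 1 := by
    rw [hqd]
    exact Nat.lt_floor_add_one _
  have hlowR : (285 : ℝ) * m + 1000 ≤ 1000 * q := by nlinarith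
  have hhighR : (2 : ℝ) * (q + 1) ≤ m := by nlinarith
  have hlow : 285 * m + 1000 ≤ 1000 * q := by exact_mod_cast hlowR
  have hhigh : 2 * (q + 1) ≤ m := by exact_mod_cast hhighR
  have hQ : q ∈ Qs m := by
    unfold Qs
    rw [Finset.mem_Icc]
    omega
  have hQ1 : q + 1 ∈ Qs m := by
    unfold Qs
    rw [Finset.mem_Icc]
    omega
  rcases Nat.lt_or_ge q (univ.filter (fun i => (q : ℝ) / m < x i)).card with h | h
  · exact (Th_le hQ1 _).trans (exch_many hm (by omega) hhigh x hlo hx h1 h2.le hsmall h)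
  · exact (Th_le hQ _).trans (exch_few hm (by omega) hhigh x hlo hx h1 h2.le hsmall h)

end Pool.Agent.H86.Z1
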