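import Pool.Agent.H86.Z1.Th

/-!
# Project Z1: near trivial tuples

`ds P Q X` is half the distance of `X` to `[P, Q]`.

Proof sketches.
* `kink_left`: `N0 ≤ w ≤ N1`, `lo ≤ w ≤ hi` (`w` the mean of the `z i`), and `P ≤ lo` or `hi ≤ P` or `P ≤ N0` or `N1 ≤ P`. Then
  `avg max 0 (P - z i) - max 0 (P - w) ≤ max 0 (hi - N1) + max 0 (N0 - lo)`:
  `P ≤ lo`: everything is `0`; `hi ≤ P`: `max 0 (P - z i) = P - z i`, difference `0`; `P ≤ N0`: `max 0 (P - z i) ≤ max 0 (N0 - lo)`;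
  `N1 ≤ P`: `max 0 (P - z i) ≤ (P - z i) + max 0 (hi - N1)`.
* `kink_right`: apply `kink_left` to `-z`, `-Q`, `-N1`, `-N0`, `-hi`, `-lo`.
* `xi_small`: `v = (q+1)/m`, `w` the mean (`lo ≤ w ≤ hi`), `n = ⌊w/v⌋`, `N0 = n v`, `N1 = (n+1) v`. On `[lo, hi]` `Th = T_(q+1) = (q+1) + Fv (q+1)` (`Th_eq`), so `Fv_tuple` gives
  `Th w ≤ avg Th (z i) + (min N1 hi - max N0 lo)`, and `(hi - lo) - (min N1 hi - max N0 lo) = max 0 (hi - N1) + max 0 (N0 - lo)`; then `kink_left` for `P = p0(p0+1)/m` and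
  `kink_right` for `Q = p1(p1+1)/m` (each is multiplied by `1/2`). The condition on `P`: `p0 ≤ q-1`: `P < q²/m < lo`; `p0 = q`: `P = q v` (node: `q ≤ n` or `q ≥ n+1`);
  `p0 = q+1`: `P = (q+2) v` (node); `p0 ≥ q+2`: `m P ≥ (q+2)(q+3) > m hi`. The same for `Q`.
-/

set_option autoImplicit false

namespace Pool.Agent.H86.Z1

open Finset Pool.Agent.H14RC Pool.Agent.H86.FM

noncomputable def ds (P Q X : ℝ) : ℝ := (max 0 (P - X) + max 0 (X - Q)) / 2

theorem ds_nonneg (P Q X : ℝ) : 0 ≤ ds P Q X := by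
  unfold ds
  have h1 := le_max_left 0 (P - X)
  have h2 := le_max_left 0 (X - Q)
  linarith

private theorem avg_affine {m : ℕ} (hm : 1 ≤ m) (z f : Fin m → ℝ) {c d : ℝ} (h : ∀ i, f i ≤ c + d * z i) :
    (∑ i, f i) / m ≤ c + d * ((∑ i, z i) / m) := by
  have hm' : (0 : ℝ) < m := by exact_mod_cast hm
  rw [div_le_iff₀ hm']
  have h1 : ∑ i, f i ≤ ∑ i, (c + d * z i) := sum_le_sum fun i _ => h i
  rw [sum_add_distrib, ← mul_sum, sum_const, card_univ, Fintype.card_fin, nsmul_eq_mul] at h1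
  have e : (c + d * ((∑ i, z i) / m)) * m = m * c + d * ∑ i, z i := by
    field_simp
  rw [e]
  exact h1

private theorem mean_mem {m : ℕ} (hm : 1 ≤ m) (z : Fin m → ℝ) {lo hi : ℝ} (hz : ∀ i, lo ≤ z i ∧ z i ≤ hi) :
    lo ≤ (∑ i, z i) / m ∧ (∑ i, z i) / m ≤ hi := by
  have hm' : (0 : ℝ) < m := by exact_mod_cast hm
  constructor
  · rw [le_div_iff₀ hm']
    calc lo * m = ∑ _i : Fin m, lo := by simp [mul_comm]
      _ ≤ ∑ i, z i := sum_le_sum fun i _ => (hz i).1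
  · rw [div_le_iff₀ hm']
    calc ∑ i, z i ≤ ∑ _i : Fin m, hi := sum_le_sum fun i _ => (hz i).2
      _ = hi * m := by simp [mul_comm]

theorem kink_left {m : ℕ} (hm : 1 ≤ m) (z : Fin m → ℝ) {lo hi P N0 N1 : ℝ} (hz : ∀ i, lo ≤ z i ∧ z i ≤ hi)
    (h0 : N0 ≤ (∑ i, z i) / m) (h1 : (∑ i, z i) / m ≤ N1) (hP : P ≤ lo ∨ hi ≤ P ∨ P ≤ N0 ∨ N1 ≤ P) :
    (∑ i, max 0 (P - z i)) / m - max 0 (P - (∑ i, z i) / m) ≤ max 0 (hi - N1) + max 0 (N0 - lo) := by
  have g1 := le_max_left 0 (hi - N1)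
  have g2 := le_max_left 0 (N0 - lo)
  have g1' := le_max_right 0 (hi - N1)
  have g2' := le_max_right 0 (N0 - lo)
  have k1 := le_max_left 0 (P - (∑ i, z i) / m)
  have k2 := le_max_right 0 (P - (∑ i, z i) / m)
  rcases hP with h | h | h | h
  · have := avg_affine hm z (fun i => max 0 (P - z i)) (c := 0) (d := 0) fun i => by
      have := (hz i).1
      rw [max_eq_left (by linarith)]; linarith
    linarith
  · have := avg_affine hm z (fun i => max 0 (P - z i)) (c := P) (d := -1) fun i => by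
      have := (hz i).2
      rw [max_eq_right (by linarith)]; linarith
    linarith
  · have := avg_affine hm z (fun i => max 0 (P - z i)) (c := max 0 (N0 - lo)) (d := 0) fun i => by
      have := (hz i).1
      rw [zero_mul, add_zero]
      exact max_le g2 (by linarith)
    linarith
  · have := avg_affine hm z (fun i => max 0 (P - z i)) (c := P + max 0 (hi - N1)) (d := -1) fun i => by
      have := (hz i).2
      refine max_le (by linarith) (by linarith)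
    linarith

theorem kink_right {m : ℕ} (hm : 1 ≤ m) (z : Fin m → ℝ) {lo hi Q N0 N1 : ℝ} (hz : ∀ i, lo ≤ z i ∧ z i ≤ hi)
    (h0 : N0 ≤ (∑ i, z i) / m) (h1 : (∑ i, z i) / m ≤ N1) (hQ : Q ≤ lo ∨ hi ≤ Q ∨ Q ≤ N0 ∨ N1 ≤ Q) :
    (∑ i, max 0 (z i - Q)) / m - max 0 ((∑ i, z i) / m - Q) ≤ max 0 (hi - N1) + max 0 (N0 - lo) := by
  have g1 := le_max_left 0 (hi - N1)
  have g2 := le_max_left 0 (N0 - lo)
  have g1' := le_max_right 0 (hi - N1)
  have g2' := le_max_right 0 (N0 - lo)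
  have k1 := le_max_left 0 ((∑ i, z i) / m - Q)
  have k2 := le_max_right 0 ((∑ i, z i) / m - Q)
  rcases hQ with h | h | h | h
  · have := avg_affine hm z (fun i => max 0 (z i - Q)) (c := -Q) (d := 1) fun i => by
      have := (hz i).1
      rw [max_eq_right (by linarith)]; linarith
    linarith
  · have := avg_affine hm z (fun i => max 0 (z i - Q)) (c := 0) (d := 0) fun i => by
      have := (hz i).2
      rw [max_eq_left (by linarith)]; linarith
    linarith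
  · have := avg_affine hm z (fun i => max 0 (z i - Q)) (c := -Q + max 0 (N0 - lo)) (d := 1) fun i => by
      have := (hz i).1
      refine max_le (by linarith) (by linarith)
    linarith
  · have := avg_affine hm z (fun i => max 0 (z i - Q)) (c := max 0 (hi - N1)) (d := 0) fun i => by
      have := (hz i).2
      rw [zero_mul, add_zero]
      exact max_le g1 (by linarith)
    linarith

/-- The nodes `p (p+1) / m` outside `(lo, hi)` or at multiples of `(q+1)/m`. -/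
private theorem node {m q : ℕ} (hm0 : (0 : ℝ) < m) (p : ℕ) (n : ℤ) {lo hi : ℝ}
    (hlo : (q : ℝ) ^ 2 / m ≤ lo) (hhi : (m : ℝ) * hi < (q + 1) * (q + 3)) :
    (p : ℝ) * (p + 1) / m ≤ lo ∨ hi ≤ (p : ℝ) * (p + 1) / m ∨
      (p : ℝ) * (p + 1) / m ≤ (n : ℝ) * (((q + 1 : ℕ) : ℝ) / m) ∨
      ((n : ℝ) + 1) * (((q + 1 : ℕ) : ℝ) / m) ≤ (p : ℝ) * (p + 1) / m := by
  have hp0 : (0 : ℝ) ≤ p := Nat.cast_nonneg p
  have hq0 : (0 : ℝ) ≤ q := Nat.cast_nonneg q
  have hv : 0 ≤ ((q + 1 : ℕ) : ℝ) / m := by positivity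
  have main : ∀ k : ℕ, (p : ℝ) * (p + 1) / m = (k : ℝ) * (((q + 1 : ℕ) : ℝ) / m) →
      ((p : ℝ) * (p + 1) / m ≤ (n : ℝ) * (((q + 1 : ℕ) : ℝ) / m) ∨
      ((n : ℝ) + 1) * (((q + 1 : ℕ) : ℝ) / m) ≤ (p : ℝ) * (p + 1) / m) := by
    intro k hk
    rcases le_or_gt (k : ℤ) n with h | h
    · left
      rw [hk]
      have : (k : ℝ) ≤ n := by exact_mod_cast h
      exact mul_le_mul_of_nonneg_right this hv
    · right
      rw [hk]
      have : (n : ℝ) + 1 ≤ k := by exact_mod_cast h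
      exact mul_le_mul_of_nonneg_right this hv
  rcases lt_trichotomy p q with h | h | h
  · left
    refine le_trans ?_ hlo
    have h' : (p : ℝ) + 1 ≤ q := by exact_mod_cast h
    gcongr
    nlinarith
  · right; right
    refine main q ?_
    rw [h]
    push_cast
    ring
  · rcases eq_or_lt_of_le (show q + 1 ≤ p from h) with h2 | h2
    · right; right
      refine main (q + 2) ?_
      rw [← h2]
      push_cast
      ring
    · right; left
      have h' : (q : ℝ) + 2 ≤ p := by exact_mod_cast h2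
      rw [le_div_iff₀ hm0]
      nlinarith

theorem xi_small {m : ℕ} (hm : 100000000 ≤ m) {q : ℕ} (hq : q ∈ Qs m) (hq2 : q + 2 ∈ Qs m) (p0 p1 : ℕ)
    (z : Fin m → ℝ) {lo hi : ℝ} (hz : ∀ i, lo ≤ z i ∧ z i ≤ hi)
    (hlo : (q : ℝ) ^ 2 / m + (1 / 4 + 5 / (m : ℝ)) ≤ lo) (hhi : (m : ℝ) * hi < (q + 1) * (q + 3)) :
    Th m ((∑ i, z i) / m) - ds ((p0 : ℝ) * (p0 + 1) / m) ((p1 : ℝ) * (p1 + 1) / m) ((∑ i, z i) / m) ≤
      (∑ i, (Th m (z i) - ds ((p0 : ℝ) * (p0 + 1) / m) ((p1 : ℝ) * (p1 + 1) / m) (z i))) / m + (hi - lo) := by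
  have hmR : (100000000 : ℝ) ≤ m := by exact_mod_cast hm
  have hm0 : (0 : ℝ) < m := by linarith
  have hs := Qs_spec hq
  have hs2 := Qs_spec hq2
  obtain ⟨w, hw⟩ : ∃ w, w = (∑ i, z i) / m := ⟨_, rfl⟩
  have hwm := mean_mem (by omega) z hz
  rw [← hw] at hwm ⊢
  have hTh : ∀ X : ℝ, lo ≤ X → X ≤ hi → Th m X = ((q + 1 : ℕ) : ℝ) + Fv m (q + 1) X := by
    intro X h1 h2
    have := Th_eq hm hq hq2 (X := X) (by linarith) (by nlinarith)
    rw [this]
    rfl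
  obtain ⟨v, hv⟩ : ∃ v, v = ((q + 1 : ℕ) : ℝ) / m := ⟨_, rfl⟩
  have hv0 : 0 < v := by rw [hv]; positivity
  have hn0 : (⌊w / v⌋ : ℝ) * v ≤ w := by
    have := Int.floor_le (w / v)
    rwa [le_div_iff₀ hv0] at this
  have hn1 : w ≤ ((⌊w / v⌋ : ℝ) + 1) * v := by
    have := (Int.lt_floor_add_one (w / v)).le
    rwa [div_le_iff₀ hv0] at this
  have hFv := Fv_tuple hm (q := q + 1) (by omega) (by omega) z hz ⌊w / v⌋
    (by rw [← hv, ← hw]; exact hn0) (by rw [← hv, ← hw]; exact hn1)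
  rw [← hv, ← hw] at hFv
  have hq2m : (q : ℝ) ^ 2 / m ≤ lo := by
    have : 0 < 5 / (m : ℝ) := by positivity
    linarith
  have hnP := node hm0 p0 ⌊w / v⌋ hq2m hhi
  have hnQ := node hm0 p1 ⌊w / v⌋ hq2m hhi
  rw [← hv] at hnP hnQ
  have kl := kink_left (by omega) z hz (by rw [← hw]; exact hn0) (by rw [← hw]; exact hn1) hnP
  have kr := kink_right (by omega) z hz (by rw [← hw]; exact hn0) (by rw [← hw]; exact hn1) hnQ
  rw [← hw] at kl kr
  obtain ⟨N0, hN0⟩ : ∃ N0, N0 = (⌊w / v⌋ : ℝ) * v := ⟨_, rfl⟩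
  obtain ⟨N1, hN1⟩ : ∃ N1, N1 = ((⌊w / v⌋ : ℝ) + 1) * v := ⟨_, rfl⟩
  rw [← hN0, ← hN1] at hFv kl kr
  have e1 : min N1 hi = hi - max 0 (hi - N1) := by
    rcases le_total N1 hi with h | h
    · rw [min_eq_left h, max_eq_right (by linarith)]; ring
    · rw [min_eq_right h, max_eq_left (by linarith)]; ring
  have e2 : max N0 lo = lo + max 0 (N0 - lo) := by
    rcases le_total N0 lo with h | h
    · rw [max_eq_right h, max_eq_left (by linarith)]; ring
    · rw [max_eq_left h, max_eq_right (by linarith)]; ring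
  rw [e1, e2] at hFv
  rw [hTh w hwm.1 hwm.2]
  have e3 : (∑ i, (Th m (z i) - ds ((p0 : ℝ) * (p0 + 1) / m) ((p1 : ℝ) * (p1 + 1) / m) (z i))) / m =
      ((q + 1 : ℕ) : ℝ) + (∑ i, Fv m (q + 1) (z i)) / m -
        ((∑ i, max 0 ((p0 : ℝ) * (p0 + 1) / m - z i)) / m +
          (∑ i, max 0 (z i - (p1 : ℝ) * (p1 + 1) / m)) / m) / 2 := by
    have h1 : ∀ i, Th m (z i) - ds ((p0 : ℝ) * (p0 + 1) / m) ((p1 : ℝ) * (p1 + 1) / m) (z i) =
        ((q + 1 : ℕ) : ℝ) + Fv m (q + 1) (z i) -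
          (max 0 ((p0 : ℝ) * (p0 + 1) / m - z i) + max 0 (z i - (p1 : ℝ) * (p1 + 1) / m)) / 2 := by
      intro i
      rw [hTh (z i) (hz i).1 (hz i).2]
      rfl
    rw [sum_congr rfl fun i _ => h1 i, sum_sub_distrib, sum_add_distrib, ← sum_div, sum_add_distrib,
      sum_const, card_univ, Fintype.card_fin, nsmul_eq_mul]
    field_simp
  rw [e3]
  unfold ds
  linarith

end Pool.Agent.H86.Z1
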