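import Pool.Agent.H86.Z1.Tri
import Pool.Agent.H86.Z1.Exch
import Pool.Agent.H86.Z1.XiS

/-!
# Project Z1: assembly

`P = p0(p0+1)/m`, `Q = p1(p1+1)/m` with `0.0899 m² + 3m ≤ p0(p0+1)`, `p1(p1+1) ≤ 0.2491 m² - 3m`.

Proof sketches.
* `Xi m p0 p1 x = Th m (m x) - ds P Q (m x)`; `Kx m p0 p1 x = max (F x) (Xi x / m)` for `0.0899 ≤ x ≤ 0.2491`, `F x` otherwise.
* `near_zone`: if `0.0899 ≤ x ≤ 0.2491` and `m F x < Xi x` then `ds P Q (m x) < 51/100`, so `P - 102/100 ≤ m x ≤ Q + 102/100`: `F x ≥ G x = 2√x` (`G_le_F`, `G_sqrt`) and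
  `Th_coarse`: `Th (m x) ≤ 2m√x + √x + 11/m`, `√x ≤ 1/2`.
* `xi_coarse`: the inequality `Xi x ≤ ∑ F (x i) + m (hi - lo)` (`x` the mean) holds if `2 m √x + √x + 11/m ≤ ∑ F (x i) + m (hi - lo)` (`Th_coarse`, `ds ≥ 0`).
* `xi_trivial` (third alternative of `tri`, mean `x` as in `near_zone`). `R = m (hi - lo)`, `u = hi - lo ≤ 1/4 - 64/729 ≤ 0.163`.
  (a) `R ≥ 11/20`: `∑ F + R ≥ 2m√x + R(1 - (5/2) u)`: `u ≤ 1/100`: `R (1-(5/2)u) ≥ 0.536`; `u ≥ 1/100`: `R ≥ m/100`. `xi_coarse`.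
  (b) `R < 11/20`. Let `q = ⌊√(m² lo - κ m)⌋₊`, `κ = 1/4 + 5/m`: `q² ≤ m² lo - κ m < (q+1)²`, `q + 1 ≥ 0.296 m`, `q, q+2` in `Qs m` (`√lo ≥ 8/27`, `lo ≤ 1/4`; for `q + 2 ≤ m/2` use
  `lo ≤ x ≤ 0.2491`). (b1) `m R + κ m ≤ 2 (q+1)`: then `m (m hi) = m (m lo) + m R < (q+1)² + κ m + m R ≤ (q+1)(q+3)`: `xi_small` with `z i = m x i`, bounds `m lo`, `m hi`, gives
  `Xi x ≤ avg Xi (x i) + R`, and `Xi (x i) ≤ m Kx (x i)` because `x i` is within `0.55/m` of `x` and so in `[0.0899, 0.2491]`.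
  (b2) `m R + κ m > 2 (q+1)`: `m² x ≤ m² lo + 0.55 m < (q+1)² + 0.81 m ≤ (q + 5/2)²`, so `√x ≤ (q + 5/2)/m`, and `R > 2(q+1)/m - κ ≥ (q+5/2)/m + 12/m ≥ √x + 12/m`,
  `∑ F + R ≥ 2m√x + R - (5/2) R²/m ≥ 2 m √x + √x + 11/m`. `xi_coarse`.
* `kx_tuple`: the tuple inequality for `Kx`: if `Kx x = F x` for the mean `x`: `F_tuple`, `F ≤ Kx`. Otherwise `Kx x = Xi x/m > F x`, `near_zone`, and `tri`: first alternative
  `xi_coarse` (`√x + 11/m ≤ 1`); second: `exch` (`Xi ≤ Th`); third: `xi_trivial`.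
* `xi_le_F`: `le_F_of` for `Kx`. `zone_eq`: for `P ≤ m x ≤ Q` `ds = 0`, so `Th (m x) ≤ m F x`; the other direction `F_le_T`, `le_Th`.
-/

set_option autoImplicit false

namespace Pool.Agent.H86.Z1

open Finset Pool.Agent.H14RC Pool.Agent.H86.FM

noncomputable def Xi (m p0 p1 : ℕ) (x : ℝ) : ℝ :=
  Th m (m * x) - ds ((p0 : ℝ) * (p0 + 1) / m) ((p1 : ℝ) * (p1 + 1) / m) (m * x)

noncomputable def Kx (m p0 p1 : ℕ) (x : ℝ) : ℝ :=
  if 899 / 10000 ≤ x ∧ x ≤ 2491 / 10000 then max (F m x) (Xi m p0 p1 x / m) else F m x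

theorem F_le_Kx (m p0 p1 : ℕ) (x : ℝ) : F m x ≤ Kx m p0 p1 x := by
  unfold Kx
  split_ifs
  · exact le_max_left _ _
  · exact le_refl _

theorem Xi_le_Kx {m : ℕ} (hm : 1 ≤ m) (p0 p1 : ℕ) {x : ℝ} (h0 : 899 / 10000 ≤ x) (h1 : x ≤ 2491 / 10000) :
    Xi m p0 p1 x ≤ m * Kx m p0 p1 x := by
  have hmR : (0 : ℝ) < m := by exact_mod_cast hm
  unfold Kx
  rw [if_pos ⟨h0, h1⟩]
  have h2 : Xi m p0 p1 x / m ≤ max (F m x) (Xi m p0 p1 x / m) := le_max_right _ _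
  rw [div_le_iff₀ hmR] at h2
  linarith

private theorem sqrt_half {x : ℝ} (h1 : x ≤ 2491 / 10000) : √x ≤ 1 / 2 := by
  rw [show (1 : ℝ) / 2 = √((1 / 2) ^ 2) by rw [Real.sqrt_sq (by norm_num)]]
  apply Real.sqrt_le_sqrt
  norm_num
  linarith

private theorem eleven {m : ℕ} (hm : 1000000000 ≤ m) : (11 : ℝ) / m ≤ 1 / 1000 := by
  have hmR : (1000000000 : ℝ) ≤ m := by exact_mod_cast hm
  rw [div_le_iff₀ (by linarith)]
  linarith

theorem near_zone {m : ℕ} (hm : 1000000000 ≤ m) (p0 p1 : ℕ) {x : ℝ} (h0 : 899 / 10000 ≤ x) (h1 : x ≤ 2491 / 10000)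
    (h : m * F m x < Xi m p0 p1 x) :
    (p0 : ℝ) * (p0 + 1) / m - 102 / 100 ≤ m * x ∧ m * x ≤ (p1 : ℝ) * (p1 + 1) / m + 102 / 100 := by
  have hmR : (1000000000 : ℝ) ≤ m := by exact_mod_cast hm
  have hT := Th_coarse (m := m) (by omega) h0 h1
  have hG : G x ≤ F m x := G_le_F (by omega) (by linarith) (by linarith)
  rw [G_sqrt (by linarith) (by linarith)] at hG
  have hs := sqrt_half h1
  have he := eleven hm
  unfold Xi at h
  have hmG : (m : ℝ) * (2 * √x) ≤ m * F m x := mul_le_mul_of_nonneg_left hG (by linarith)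
  have hd : ds ((p0 : ℝ) * (p0 + 1) / m) ((p1 : ℝ) * (p1 + 1) / m) (m * x) < 51 / 100 := by
    linarith
  unfold ds at hd
  have h3 := le_max_left (0 : ℝ) ((p0 : ℝ) * (p0 + 1) / m - m * x)
  have h4 := le_max_right (0 : ℝ) ((p0 : ℝ) * (p0 + 1) / m - m * x)
  have h5 := le_max_left (0 : ℝ) (m * x - (p1 : ℝ) * (p1 + 1) / m)
  have h6 := le_max_right (0 : ℝ) (m * x - (p1 : ℝ) * (p1 + 1) / m)
  constructor
  · linarith
  · linarith

theorem xi_coarse {m : ℕ} (hm : 1000000000 ≤ m) (p0 p1 : ℕ) {x c : ℝ} (h0 : 899 / 10000 ≤ x) (h1 : x ≤ 2491 / 10000)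
    (h : 2 * m * √x + √x + 11 / m ≤ c) : Xi m p0 p1 x ≤ c := by
  have hT := Th_coarse (m := m) (by omega) h0 h1
  have hd := ds_nonneg ((p0 : ℝ) * (p0 + 1) / m) ((p1 : ℝ) * (p1 + 1) / m) (m * x)
  unfold Xi
  linarith

private theorem zone_bounds {m : ℕ} (hm : 1000000000 ≤ m) (p0 p1 : ℕ)
    (hp0 : 899 / 10000 * (m : ℝ) ^ 2 + 3 * m ≤ (p0 : ℝ) * (p0 + 1))
    (hp1 : (p1 : ℝ) * (p1 + 1) ≤ 2491 / 10000 * (m : ℝ) ^ 2 - 3 * m) :
    899 / 10000 * (m : ℝ) + 3 ≤ (p0 : ℝ) * (p0 + 1) / m ∧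
      (p1 : ℝ) * (p1 + 1) / m ≤ 2491 / 10000 * (m : ℝ) - 3 := by
  have hmR : (1000000000 : ℝ) ≤ m := by exact_mod_cast hm
  have hm0 : (0 : ℝ) < m := by linarith
  constructor
  · rw [le_div_iff₀ hm0]
    nlinarith
  · rw [div_le_iff₀ hm0]
    nlinarith

theorem xi_trivial {m : ℕ} (hm : 1000000000 ≤ m) (p0 p1 : ℕ)
    (hp0 : 899 / 10000 * (m : ℝ) ^ 2 + 3 * m ≤ (p0 : ℝ) * (p0 + 1))
    (hp1 : (p1 : ℝ) * (p1 + 1) ≤ 2491 / 10000 * (m : ℝ) ^ 2 - 3 * m)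
    (x : Fin m → ℝ) {lo hi : ℝ} (hx : ∀ i, lo ≤ x i ∧ x i ≤ hi) (hlo : 64 / 729 ≤ lo) (hhi : hi ≤ 1 / 4)
    (hw0 : (p0 : ℝ) * (p0 + 1) / m - 102 / 100 ≤ m * ((∑ i, x i) / m))
    (hw1 : m * ((∑ i, x i) / m) ≤ (p1 : ℝ) * (p1 + 1) / m + 102 / 100)
    (hF : m * (2 * √((∑ i, x i) / m) - 5 / 2 * (hi - lo) ^ 2) ≤ ∑ i, F m (x i)) :
    Xi m p0 p1 ((∑ i, x i) / m) ≤ ∑ i, Kx m p0 p1 (x i) + m * (hi - lo) := by
  have hmR : (1000000000 : ℝ) ≤ m := by exact_mod_cast hm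
  have hm0 : (0 : ℝ) < m := by linarith
  obtain ⟨hP, hQ⟩ := zone_bounds hm p0 p1 hp0 hp1
  -- the mean lies between `lo` and `hi`
  have hcard : ((Finset.univ : Finset (Fin m)).card : ℝ) = m := by simp
  have hl : lo ≤ (∑ i, x i) / m := by
    rw [le_div_iff₀ hm0]
    have := Finset.card_nsmul_le_sum Finset.univ x lo (fun i _ => (hx i).1)
    rw [nsmul_eq_mul, hcard] at this
    linarith
  have hh : (∑ i, x i) / m ≤ hi := by
    rw [div_le_iff₀ hm0]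
    have := Finset.sum_le_card_nsmul Finset.univ x hi (fun i _ => (hx i).2)
    rw [nsmul_eq_mul, hcard] at this
    linarith
  have hzm : (∑ i, (m : ℝ) * x i) / m = m * ((∑ i, x i) / m) := by
    rw [← Finset.mul_sum]
    ring
  have hKF : ∑ i, F m (x i) ≤ ∑ i, Kx m p0 p1 (x i) := Finset.sum_le_sum fun i _ => F_le_Kx m p0 p1 (x i)
  set w : ℝ := (∑ i, x i) / m with hw
  clear_value w
  have hwl : 899 / 10000 + 198 / 100 / m ≤ w := by
    have : 899 / 10000 * (m : ℝ) + 198 / 100 ≤ m * w := by linarith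
    have e : 899 / 10000 + 198 / 100 / (m : ℝ) = (899 / 10000 * (m : ℝ) + 198 / 100) / m := by
      field_simp
    rw [e, div_le_iff₀ hm0]
    linarith
  have hwu : w ≤ 2491 / 10000 - 198 / 100 / m := by
    have : m * w ≤ 2491 / 10000 * (m : ℝ) - 198 / 100 := by linarith
    have e : 2491 / 10000 - 198 / 100 / (m : ℝ) = (2491 / 10000 * (m : ℝ) - 198 / 100) / m := by
      field_simp
    rw [e, le_div_iff₀ hm0]
    linarith
  have hpos : 0 ≤ 198 / 100 / (m : ℝ) := by positivity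
  have hw0' : 899 / 10000 ≤ w := by linarith
  have hw1' : w ≤ 2491 / 10000 := by linarith
  have hs := sqrt_half hw1'
  have hs0 : 0 ≤ √w := Real.sqrt_nonneg w
  have he := eleven hm
  have hu0 : 0 ≤ hi - lo := by linarith
  have hu1 : hi - lo ≤ 163 / 1000 := by linarith
  by_cases hR : 11 / 20 ≤ m * (hi - lo)
  · -- (a)
    refine xi_coarse hm p0 p1 hw0' hw1' ?_
    have key : 1 / 2 + 1 / 1000 ≤ m * (hi - lo) * (1 - 5 / 2 * (hi - lo)) := by
      rcases le_total (hi - lo) (1 / 100) with h | h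
      · have h1 : (11 / 20 : ℝ) * (39 / 40) ≤ m * (hi - lo) * (1 - 5 / 2 * (hi - lo)) :=
          mul_le_mul hR (by linarith) (by norm_num) (by linarith)
        linarith
      · have h1 : (1000000000 : ℝ) * (1 / 100) ≤ m * (hi - lo) :=
          mul_le_mul hmR h (by norm_num) hm0.le
        have h2 : (1000000000 : ℝ) * (1 / 100) * (1 / 2) ≤ m * (hi - lo) * (1 - 5 / 2 * (hi - lo)) :=
          mul_le_mul h1 (by linarith) (by norm_num) (by linarith)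
        linarith
    linarith
  · -- (b)
    have hR' : m * (hi - lo) < 11 / 20 := not_le.mp hR
    set A : ℝ := (m : ℝ) ^ 2 * lo - (1 / 4 * m + 5) with hA
    have hA1 : (296 / 1000 * (m : ℝ)) ^ 2 ≤ A := by
      have h1 : (m : ℝ) ^ 2 * (64 / 729) ≤ (m : ℝ) ^ 2 * lo := mul_le_mul_of_nonneg_left hlo (by positivity)
      have h2 : (1000000000 : ℝ) * m ≤ m * m := mul_le_mul_of_nonneg_right hmR hm0.le
      linarith
    have hA0 : 0 ≤ A := le_trans (by positivity) hA1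
    set q : ℕ := ⌊√A⌋₊ with hq
    have hq1 : (q : ℝ) ≤ √A := Nat.floor_le (Real.sqrt_nonneg _)
    have hq2 : √A < q + 1 := Nat.lt_floor_add_one _
    have hq1' : (q : ℝ) ^ 2 ≤ A := by
      have : (q : ℝ) ^ 2 ≤ √A ^ 2 := pow_le_pow_left₀ (by positivity) hq1 2
      rwa [Real.sq_sqrt hA0] at this
    have hq2' : A < ((q : ℝ) + 1) ^ 2 := by
      have : √A ^ 2 < ((q : ℝ) + 1) ^ 2 := pow_lt_pow_left₀ hq2 (Real.sqrt_nonneg _) (by norm_num)
      rwa [Real.sq_sqrt hA0] at this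
    clear_value q A
    have hq3 : 296 / 1000 * (m : ℝ) < q + 1 := by
      have h1 : (296 / 1000 * (m : ℝ)) ^ 2 < ((q : ℝ) + 1) ^ 2 := lt_of_le_of_lt hA1 hq2'
      exact lt_of_pow_lt_pow_left₀ 2 (by positivity) h1
    have hq4 : (q : ℝ) ≤ 4992 / 10000 * m := by
      have h1 : (m : ℝ) ^ 2 * lo ≤ (m : ℝ) ^ 2 * (2491 / 10000) :=
        mul_le_mul_of_nonneg_left (hl.trans hw1') (by positivity)
      have h2 : (q : ℝ) ^ 2 ≤ (4992 / 10000 * (m : ℝ)) ^ 2 := by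
        have h3 : (0 : ℝ) ≤ m ^ 2 := by positivity
        linarith
      exact le_of_sq_le_sq h2 (by positivity)
    have hqm : q ∈ Qs m := by
      unfold Qs
      rw [Finset.mem_Icc]
      constructor
      · have : (285 * m / 1000 + 1 : ℕ) ≤ q := by
          have h1 : 296 * m < 1000 * (q + 1) := by
            have : (296 : ℝ) * m < 1000 * (q + 1) := by linarith
            exact_mod_cast this
          omega
        exact this
      · have h1 : 10000 * q ≤ 4992 * m := by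
          have : (10000 : ℝ) * q ≤ 4992 * m := by linarith
          exact_mod_cast this
        omega
    have hqm2 : q + 2 ∈ Qs m := by
      unfold Qs
      rw [Finset.mem_Icc]
      constructor
      · have h1 : 296 * m < 1000 * (q + 1) := by
          have : (296 : ℝ) * m < 1000 * (q + 1) := by linarith
          exact_mod_cast this
        omega
      · have h1 : 10000 * q ≤ 4992 * m := by
          have : (10000 : ℝ) * q ≤ 4992 * m := by linarith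
          exact_mod_cast this
        omega
    by_cases hb : m * (m * (hi - lo)) + (1 / 4 * m + 5) ≤ 2 * ((q : ℝ) + 1)
    · -- (b1)
      have hlo' : (q : ℝ) ^ 2 / m + (1 / 4 + 5 / (m : ℝ)) ≤ m * lo := by
        have e : (q : ℝ) ^ 2 / m + (1 / 4 + 5 / (m : ℝ)) = ((q : ℝ) ^ 2 + (1 / 4 * m + 5)) / m := by
          field_simp
        rw [e, div_le_iff₀ hm0]
        have : m * lo * m = (m : ℝ) ^ 2 * lo := by ring
        rw [this]
        linarith
      have hhi' : (m : ℝ) * (m * hi) < (q + 1) * (q + 3) := by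
        have e : (m : ℝ) * (m * hi) = (m : ℝ) ^ 2 * lo + m * (m * (hi - lo)) := by ring
        have e2 : ((q : ℝ) + 1) * (q + 3) = ((q : ℝ) + 1) ^ 2 + 2 * ((q : ℝ) + 1) := by ring
        rw [e, e2]
        linarith
      have hxs := xi_small (m := m) (by omega) hqm hqm2 p0 p1 (fun i => m * x i) (lo := m * lo) (hi := m * hi)
        (fun i => ⟨mul_le_mul_of_nonneg_left (hx i).1 hm0.le, mul_le_mul_of_nonneg_left (hx i).2 hm0.le⟩)
        hlo' hhi'
      rw [hzm] at hxs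
      have hXiK : ∀ i, Xi m p0 p1 (x i) ≤ m * Kx m p0 p1 (x i) := by
        intro i
        have hd : hi - lo ≤ 11 / 20 / m := by
          rw [le_div_iff₀ hm0]
          linarith
        have hd2 : 11 / 20 / (m : ℝ) ≤ 198 / 100 / m := by
          apply div_le_div_of_nonneg_right _ hm0.le
          norm_num
        refine Xi_le_Kx (by omega) p0 p1 ?_ ?_
        · linarith [(hx i).1]
        · linarith [(hx i).2]
      have hsum : (∑ i, Xi m p0 p1 (x i)) / m ≤ ∑ i, Kx m p0 p1 (x i) := by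
        rw [div_le_iff₀ hm0, Finset.sum_mul]
        exact Finset.sum_le_sum fun i _ => by linarith [hXiK i]
      have hxs' : Xi m p0 p1 w ≤ (∑ i, Xi m p0 p1 (x i)) / m + (m * hi - m * lo) := hxs
      linarith
    · -- (b2)
      have hb' : 2 * ((q : ℝ) + 1) < m * (m * (hi - lo)) + (1 / 4 * m + 5) := not_le.mp hb
      refine xi_coarse hm p0 p1 hw0' hw1' ?_
      have hsw : √w ≤ (q + 5 / 2) / m := by
        apply Real.sqrt_le_iff.2
        refine ⟨by positivity, ?_⟩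
        rw [div_pow, le_div_iff₀ (by positivity)]
        have h1 : w * (m : ℝ) ^ 2 ≤ hi * (m : ℝ) ^ 2 := mul_le_mul_of_nonneg_right hh (by positivity)
        have h2 : m * (m * (hi - lo)) ≤ m * (11 / 20) := mul_le_mul_of_nonneg_left hR'.le hm0.le
        linarith
      have hRl : (q + 5 / 2) / m + 12 / m ≤ m * (hi - lo) := by
        rw [← add_div, div_le_iff₀ hm0]
        linarith
      have hR2 : m * (5 / 2 * (hi - lo) ^ 2) ≤ 1 / m := by
        rw [le_div_iff₀ hm0]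
        have h0 : 0 ≤ m * (hi - lo) := mul_nonneg hm0.le hu0
        have h3 : (m * (hi - lo)) ^ 2 ≤ (11 / 20) ^ 2 := pow_le_pow_left₀ h0 hR'.le 2
        linarith
      have e12 : (12 : ℝ) / m = 11 / m + 1 / m := by ring
      rw [e12] at hRl
      linarith

theorem kx_tuple {m : ℕ} (hm : 1000000000 ≤ m) (p0 p1 : ℕ)
    (hp0 : 899 / 10000 * (m : ℝ) ^ 2 + 3 * m ≤ (p0 : ℝ) * (p0 + 1))
    (hp1 : (p1 : ℝ) * (p1 + 1) ≤ 2491 / 10000 * (m : ℝ) ^ 2 - 3 * m)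
    (x : Fin m → ℝ) {lo hi : ℝ} (hlo : 0 ≤ lo) (hhi : hi ≤ 1) (hx : ∀ i, lo ≤ x i ∧ x i ≤ hi) :
    Kx m p0 p1 ((∑ i, x i) / m) ≤ (∑ i, Kx m p0 p1 (x i)) / m + (hi - lo) := by
  have hmR : (1000000000 : ℝ) ≤ m := by exact_mod_cast hm
  have hm0 : (0 : ℝ) < m := by linarith
  have hKF : ∑ i, F m (x i) ≤ ∑ i, Kx m p0 p1 (x i) := Finset.sum_le_sum fun i _ => F_le_Kx m p0 p1 (x i)
  have hFt : F m ((∑ i, x i) / m) ≤ (∑ i, Kx m p0 p1 (x i)) / m + (hi - lo) := by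
    have h := F_tuple (m := m) (by omega) x hlo hhi hx
    have h2 := div_le_div_of_nonneg_right hKF hm0.le
    linarith
  have e1 : (m : ℝ) * ((∑ i, x i) / m) = ∑ i, x i := by
    field_simp
  by_cases hz : 899 / 10000 ≤ (∑ i, x i) / m ∧ (∑ i, x i) / m ≤ 2491 / 10000
  · have hK : Kx m p0 p1 ((∑ i, x i) / m) =
        max (F m ((∑ i, x i) / m)) (Xi m p0 p1 ((∑ i, x i) / m) / m) := by
      unfold Kx
      rw [if_pos hz]
    rw [hK]
    apply max_le hFt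
    by_cases hlt : m * F m ((∑ i, x i) / m) < Xi m p0 p1 ((∑ i, x i) / m)
    · obtain ⟨hw0, hw1⟩ := near_zone hm p0 p1 hz.1 hz.2 hlt
      have goal : Xi m p0 p1 ((∑ i, x i) / m) ≤ ∑ i, Kx m p0 p1 (x i) + m * (hi - lo) := by
        rcases tri hm x hlo hhi hx hz.1 hz.2 with h | h | h
        · refine xi_coarse hm p0 p1 hz.1 hz.2 ?_
          have hs := sqrt_half hz.2
          have he := eleven hm
          linarith
        · have h2 := exch (m := m) (by omega) x hlo hx h.1 h.2.1 h.2.2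
          have hd := ds_nonneg ((p0 : ℝ) * (p0 + 1) / m) ((p1 : ℝ) * (p1 + 1) / m) (m * ((∑ i, x i) / m))
          unfold Xi
          rw [e1] at hd ⊢
          linarith
        · exact xi_trivial hm p0 p1 hp0 hp1 x hx h.1 h.2.1 hw0 hw1 h.2.2
      rw [div_le_iff₀ hm0]
      have : ((∑ i, Kx m p0 p1 (x i)) / m + (hi - lo)) * m = ∑ i, Kx m p0 p1 (x i) + m * (hi - lo) := by
        field_simp
      rw [this]
      exact goal
    · have h1 : Xi m p0 p1 ((∑ i, x i) / m) / m ≤ F m ((∑ i, x i) / m) := by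
        rw [div_le_iff₀ hm0]
        linarith [not_lt.mp hlt]
      exact h1.trans hFt
  · have hK : Kx m p0 p1 ((∑ i, x i) / m) = F m ((∑ i, x i) / m) := by
      unfold Kx
      rw [if_neg hz]
    rw [hK]
    exact hFt

theorem xi_le_F {m : ℕ} (hm : 1000000000 ≤ m) (p0 p1 : ℕ)
    (hp0 : 899 / 10000 * (m : ℝ) ^ 2 + 3 * m ≤ (p0 : ℝ) * (p0 + 1))
    (hp1 : (p1 : ℝ) * (p1 + 1) ≤ 2491 / 10000 * (m : ℝ) ^ 2 - 3 * m)
    {x : ℝ} (h0 : 899 / 10000 ≤ x) (h1 : x ≤ 2491 / 10000) : Xi m p0 p1 x ≤ m * F m x := by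
  have hmR : (1000000000 : ℝ) ≤ m := by exact_mod_cast hm
  have hm0 : (0 : ℝ) < m := by linarith
  have hK0 : Kx m p0 p1 0 ≤ 0 := by
    unfold Kx
    rw [if_neg (by norm_num)]
    exact (F_zero (by omega)).le
  have hK1 : Kx m p0 p1 1 ≤ 0 := by
    unfold Kx
    rw [if_neg (by norm_num)]
    exact (F_one (by omega)).le
  have hb : ∃ M : ℝ, ∀ y : ℝ, 0 ≤ y → y ≤ 1 → Kx m p0 p1 y ≤ M := by
    refine ⟨3, fun y hy0 hy1 => ?_⟩
    have hF : F m y ≤ 3 := by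
      refine (F_le_sup (m := m) (by omega) hy0 hy1).trans ?_
      rw [div_le_iff₀ (by linarith)]
      linarith
    unfold Kx
    split_ifs with hz
    · refine max_le hF ?_
      rw [div_le_iff₀ hm0]
      refine xi_coarse hm p0 p1 hz.1 hz.2 ?_
      have hs := sqrt_half hz.2
      have he := eleven hm
      have hms : 2 * (m : ℝ) * √y ≤ 2 * m * (1 / 2) := mul_le_mul_of_nonneg_left hs (by linarith)
      linarith
    · exact hF
  have hle : Kx m p0 p1 x ≤ F m x :=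
    le_F_of (by omega) hK0 hK1 hb
      (fun y lo hi hlo hhi hy => kx_tuple hm p0 p1 hp0 hp1 y hlo hhi hy) (by linarith) (by linarith)
  have h2 := Xi_le_Kx (m := m) (by omega) p0 p1 h0 h1
  have h3 : (m : ℝ) * Kx m p0 p1 x ≤ m * F m x := mul_le_mul_of_nonneg_left hle hm0.le
  linarith

theorem zone_eq {m : ℕ} (hm : 1000000000 ≤ m) (p0 p1 : ℕ)
    (hp0 : 899 / 10000 * (m : ℝ) ^ 2 + 3 * m ≤ (p0 : ℝ) * (p0 + 1))
    (hp1 : (p1 : ℝ) * (p1 + 1) ≤ 2491 / 10000 * (m : ℝ) ^ 2 - 3 * m)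
    {x : ℝ} (h0 : (p0 : ℝ) * (p0 + 1) ≤ m ^ 2 * x) (h1 : (m : ℝ) ^ 2 * x ≤ p1 * (p1 + 1)) :
    m * F m x = Th m (m * x) := by
  have hmR : (1000000000 : ℝ) ≤ m := by exact_mod_cast hm
  have hm0 : (0 : ℝ) < m := by linarith
  have hm2 : (0 : ℝ) < (m : ℝ) ^ 2 := by positivity
  have hx0 : 899 / 10000 ≤ x := by
    have : (m : ℝ) ^ 2 * (899 / 10000) ≤ (m : ℝ) ^ 2 * x := by linarith
    exact le_of_mul_le_mul_left this hm2
  have hx1 : x ≤ 2491 / 10000 := by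
    have : (m : ℝ) ^ 2 * x ≤ (m : ℝ) ^ 2 * (2491 / 10000) := by linarith
    exact le_of_mul_le_mul_left this hm2
  have hd : ds ((p0 : ℝ) * (p0 + 1) / m) ((p1 : ℝ) * (p1 + 1) / m) (m * x) = 0 := by
    have h2 : (p0 : ℝ) * (p0 + 1) / m ≤ m * x := by
      rw [div_le_iff₀ hm0]
      linarith
    have h3 : m * x ≤ (p1 : ℝ) * (p1 + 1) / m := by
      rw [le_div_iff₀ hm0]
      linarith
    unfold ds
    rw [max_eq_left (by linarith), max_eq_left (by linarith)]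
    norm_num
  apply le_antisymm
  · exact le_Th (by omega) fun q hq => F_le_T (by omega) hq (by linarith) (by linarith)
  · have h := xi_le_F hm p0 p1 hp0 hp1 hx0 hx1
    unfold Xi at h
    rw [hd] at h
    linarith

end Pool.Agent.H86.Z1
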