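import Pool.Agent.H27.FM.Top
import Pool.Agent.H27.FM.Exact

/-!
# Project Z1 (MP_13a5e6_an, zone 1): the middle equation in the form used here

`Pool.Agent.H27.FM.exact_mid (par _) hm` with `c = m / 4 + 5`; `(c : ℝ) / m ≤ 1/4 + 5/m` (`Nat.cast_div_le`),
`Ft m x = F m (Int.fract x)` (both `Ft`s: `Pool.Agent.H86.FM.Ft`).
-/

set_option autoImplicit false

namespace Pool.Agent.H86.Z1

open Finset Pool.Agent.H14RC

theorem mid {m : ℕ} (hm : 1000000 ≤ m) {x : ℝ} (h0 : 1 / 4 + 5 / (m : ℝ) ≤ x)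
    (h1 : x ≤ 3 / 4 - 5 / (m : ℝ)) : F m x = 1 + Pool.Agent.H86.FM.Ft m (m * x) / m := by
  have hm0 : (0 : ℝ) < m := by
    have : (1000000 : ℝ) ≤ m := by exact_mod_cast hm
    linarith
  have hc : ((m / 4 + 5 : ℕ) : ℝ) / m ≤ 1 / 4 + 5 / (m : ℝ) := by
    have h : ((m / 4 : ℕ) : ℝ) ≤ (m : ℝ) / 4 := by
      have := @Nat.cast_div_le ℝ _ _ _ m 4
      simpa using this
    push_cast
    rw [add_div]
    have : ((m / 4 : ℕ) : ℝ) / m ≤ 1 / 4 := by
      rw [div_le_iff₀ hm0]; linarith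
    linarith
  exact Pool.Agent.H27.FM.exact_mid (Pool.Agent.H27.FM.par (by omega)) hm (by linarith) (by linarith)

end Pool.Agent.H86.Z1
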