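import Pool.Agent.H86.FM.Far
import Pool.Agent.H86.Z1.GB

/-!
# Project Z1: tuples with mean below `1/4 + 5/m` that reach beyond `3/4 - 5/m`

Notation: `S = ∑ x i`, `w = S/m`, range at most `1 - b - a`, `tz` is the trapezoid of `FM/Stab.lean`, `tz_le_F` is in `FM/Far.lean`.
To prove in all cases: `m F((S - D)/m) ≤ Ft D + ∑ F (x i) + m (1 - b - a)`.

Proof sketches.
* `far_core'`: this is the private `far_core` of `FM/Far.lean` with weaker hypotheses: copy its proof (it works with `m/300` instead of `m/10000`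
  and `m/4 - 100 ≤ S`, because `m/4 - 100 - m/300 ≥ m/5 + 15` and `(m/300)/4 = m/1200`).
* `tz_chord`: for `a ≤ t ≤ 1 - b`, `a, b ≤ 1/4`: `4a(1-b-t) + 4b(t-a) ≤ (1-a-b) tz t` (`tz` is concave; three lines), sum over `i`, divide by `m`.
* `om_far_low` (`w ≤ 1/4 - 20/m`; then `a ≤ w ≤ 1/4`). Let `b' = min b (1/4)`, so `b ≤ b' + 5/m` and `x i ≤ 1 - b'`.
  `tz_chord` and `0 < 1-a-b' ≤ 1` give `(∑ tz)/m + (1-a-b') ≥ 1-a-b' + 4a(1-b'-w) + 4b'(w-a) = 1 - b'(1-4w) + a(3-4w-8b') ≥ 3/4 + w`, and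
  `3/4 + w - 2√w = (1/2-√w)(3/2-√w) ≥ 1/2-√w ≥ 1/4-w ≥ 20/m`. So `(∑ F)/m + (1-b-a) ≥ 2√w + 15/m`, and
  `F((S-D)/m) ≤ G((S-D)/m) + 6/m ≤ 2√((S-D)/m) + 6/m ≤ 2√w + 6/m` (`F_le_G`, `G_le_sqrt`), `Ft D ≥ 0` (`Ft_nonneg`).
* `om_far_near` (`1/4 - 20/m ≤ w ≤ 1/4 + 5/m`). Let `a' = min a (1/4)`, `b' = min b (1/4)`, so `a ≤ a' + 5/m` (`a ≤ w`), `b ≤ b' + 5/m`; `w = 1/4 - θ`, `|θ| ≤ 20/m`.
  `tz_chord` for `a', b'`, minus `(a'+b')(1-a'-b')`:
  `(1-a'-b')(avg tz - a' - b') ≥ 2a' + a'^2 + b'^2 - 6a'b' + 4θ(a'-b') ≥ b'^2 + a'/2 - (80/m)(a'+b') ≥ b'^2 + a'/2 - 40/m`.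
  With `F((S-D)/m) ≤ m/(m-1)` (`F_le_sup`) we are done if `∑ F (x i) ≥ m(a+b) + 101/100`. Otherwise `avg tz - a' - b' ≤ 12/m`, so `b'^2 + a'/2 ≤ 52/m`,
  so `a' < 1/4`, `b' < 1/4`, `a = a' ≤ 104/m`, `b = b' ≤ √(52/m)` and `∑ F (x i) ≤ m (a+b) + 2 ≤ m/300` (`m ≥ 10^8`): `far_core'` gives
  `Ft S + m(a+b) ≤ ∑ F (x i)`, and `m F((S-D)/m) ≤ m + Ft(S-D) ≤ m + Ft S + Ft D` (`F_floor`; `Ft_isSub`: subadditive and even).
* `om_far`: the two cases.
-/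

set_option autoImplicit false

namespace Pool.Agent.H86.Z1

open Finset Pool.Agent.H14RC Pool.Agent.H86.FM

private lemma tz_left {x : ℝ} (hx : x ≤ 1 / 4) : 4 * x ≤ tz x := by
  unfold tz
  exact le_min (by linarith) (le_min le_rfl (by linarith))

private lemma tz_right {x : ℝ} (hx : 3 / 4 ≤ x) : 4 * (1 - x) ≤ tz x := by
  unfold tz
  exact le_min (by linarith) (le_min (by linarith) le_rfl)

private lemma tz_mid {x : ℝ} (h1 : 1 / 4 < x) (h2 : x < 3 / 4) : 1 ≤ tz x := by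
  unfold tz
  exact le_min le_rfl (le_min (by linarith) (by linarith))

/-- The main case of `far`: the sum of the values of `F m` is small. -/
theorem far_core' {m : ℕ} (hm : 1000000 ≤ m) (x : Fin m → ℝ) {a b : ℝ} (ha : 0 ≤ a) (hb : 0 ≤ b)
    (hx : ∀ i, a ≤ x i ∧ x i ≤ 1 - b) (hF : ∑ i, F m (x i) ≤ (m : ℝ) / 300)
    (hS1 : (m : ℝ) / 4 - 100 ≤ ∑ i, x i) (hS2 : ∑ i, x i ≤ 3 / 4 * (m : ℝ)) :
    Ft m (∑ i, x i) + m * (a + b) ≤ ∑ i, F m (x i) := by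
  classical
  have hm2 : 2 ≤ m := by omega
  have hmR : (1000000 : ℝ) ≤ m := by exact_mod_cast hm
  have hmpos : (0 : ℝ) < m := by linarith
  have hx0 : ∀ i, 0 ≤ x i ∧ x i ≤ 1 := fun i => ⟨ha.trans (hx i).1, by linarith [(hx i).2]⟩
  set A0 : Finset (Fin m) := univ.filter (fun i => x i ≤ 1 / 4) with hA0
  set A1 : Finset (Fin m) := univ.filter (fun i => 3 / 4 ≤ x i) with hA1
  set Am : Finset (Fin m) := univ.filter (fun i => 1 / 4 < x i ∧ x i < 3 / 4) with hAm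
  have dec : ∀ f : Fin m → ℝ, ∑ i, f i = ∑ i ∈ A0, f i + ∑ i ∈ A1, f i + ∑ i ∈ Am, f i := by
    intro f
    rw [hA0, hA1, hAm, sum_filter, sum_filter, sum_filter, ← sum_add_distrib, ← sum_add_distrib]
    refine sum_congr rfl fun i _ => ?_
    by_cases h1 : x i ≤ 1 / 4
    · rw [if_pos h1, if_neg (show ¬ (3 / 4 ≤ x i) by intro h; linarith),
        if_neg (show ¬ (1 / 4 < x i ∧ x i < 3 / 4) by rintro ⟨h, -⟩; linarith)]
      ring
    · by_cases h2 : 3 / 4 ≤ x i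
      · rw [if_neg h1, if_pos h2,
          if_neg (show ¬ (1 / 4 < x i ∧ x i < 3 / 4) by rintro ⟨-, h⟩; linarith)]
        ring
      · rw [if_neg h1, if_neg h2, if_pos ⟨not_le.1 h1, not_le.1 h2⟩]
        ring
  have mem0 : ∀ i ∈ A0, x i ≤ 1 / 4 := fun i hi => (mem_filter.1 hi).2
  have mem1 : ∀ i ∈ A1, 3 / 4 ≤ x i := fun i hi => (mem_filter.1 hi).2
  have memm : ∀ i ∈ Am, 1 / 4 < x i ∧ x i < 3 / 4 := fun i hi => (mem_filter.1 hi).2
  -- lower bounds for the three parts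
  have low0 : 4 * ∑ i ∈ A0, x i ≤ ∑ i ∈ A0, F m (x i) := by
    rw [mul_sum]
    exact sum_le_sum fun i hi => (tz_left (mem0 i hi)).trans (tz_le_F hm2 (hx0 i).1 (hx0 i).2)
  have low1 : 4 * ∑ i ∈ A1, (1 - x i) ≤ ∑ i ∈ A1, F m (x i) := by
    rw [mul_sum]
    exact sum_le_sum fun i hi => (tz_right (mem1 i hi)).trans (tz_le_F hm2 (hx0 i).1 (hx0 i).2)
  have lowm : (Am.card : ℝ) ≤ ∑ i ∈ Am, F m (x i) := by
    have h : ∑ _i ∈ Am, (1 : ℝ) ≤ ∑ i ∈ Am, F m (x i) :=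
      sum_le_sum fun i hi => (tz_mid (memm i hi).1 (memm i hi).2).trans (tz_le_F hm2 (hx0 i).1 (hx0 i).2)
    simpa using h
  have s0nn : 0 ≤ ∑ i ∈ A0, x i := sum_nonneg fun i _ => (hx0 i).1
  have s1nn : 0 ≤ ∑ i ∈ A1, (1 - x i) := sum_nonneg fun i _ => by linarith [(hx0 i).2]
  have cmnn : (0 : ℝ) ≤ (Am.card : ℝ) := Nat.cast_nonneg _
  have hdecF := dec (fun i => F m (x i))
  have hdecx := dec x
  have hdec1 : (m : ℝ) = (A0.card : ℝ) + (A1.card : ℝ) + (Am.card : ℝ) := by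
    have h := dec (fun _ => (1 : ℝ))
    simpa using h
  have hsum1 : ∑ i ∈ A1, x i = (A1.card : ℝ) - ∑ i ∈ A1, (1 - x i) := by
    rw [sum_sub_distrib]
    simp
  have hmid : ∑ i ∈ Am, x i ≤ 3 / 4 * (Am.card : ℝ) := by
    have h : ∑ i ∈ Am, x i ≤ ∑ _i ∈ Am, (3 / 4 : ℝ) := sum_le_sum fun i hi => (memm i hi).2.le
    have h2 : ∑ _i ∈ Am, (3 / 4 : ℝ) = 3 / 4 * (Am.card : ℝ) := by
      rw [sum_const, nsmul_eq_mul]; ring
    linarith
  have hmidnn : 0 ≤ ∑ i ∈ Am, x i := sum_nonneg fun i _ => (hx0 i).1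
  have hcard1 : (m : ℝ) / 5 + 15 ≤ A1.card := by
    linarith
  have hcard0 : (m : ℝ) / 5 + 15 ≤ A0.card := by
    linarith
  have g0 := group_any hm A0 x (b := a) ha (fun i hi => ⟨(hx i).1, mem0 i hi⟩) (by linarith) hcard0
  have g1 := group_any hm A1 (fun i => 1 - x i) (b := b) hb
    (fun i hi => ⟨by linarith [(hx i).2], by linarith [mem1 i hi]⟩) (by linarith) hcard1
  have g1' : ∑ i ∈ A1, F m (1 - x i) = ∑ i ∈ A1, F m (x i) :=
    sum_congr rfl fun i _ => F_symm hm2 (hx0 i).1 (hx0 i).2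
  have hsub := Ft_isSub hm2
  have hFt : Ft m (∑ i, x i) ≤ Ft m (∑ i ∈ A0, x i) + Ft m (∑ i ∈ A1, (1 - x i))
      + ∑ i ∈ Am, F m (x i) := by
    have e : ∑ i, x i = (∑ i ∈ A0, x i + -(∑ i ∈ A1, (1 - x i)) + ∑ i ∈ Am, x i)
        + ((A1.card : ℤ) : ℝ) := by
      rw [hdecx, hsum1]
      push_cast
      ring
    rw [e, hsub.int]
    have h1 := hsub.sub (∑ i ∈ A0, x i + -(∑ i ∈ A1, (1 - x i))) (∑ i ∈ Am, x i)
    have h2 := hsub.sub (∑ i ∈ A0, x i) (-(∑ i ∈ A1, (1 - x i)))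
    have h3 := hsub.even (∑ i ∈ A1, (1 - x i))
    have h4 := hsub.sum Am x
    have h5 : ∑ i ∈ Am, Ft m (x i) = ∑ i ∈ Am, F m (x i) :=
      sum_congr rfl fun i _ => Ft_of_mem hm2 (hx0 i).1 (hx0 i).2
    linarith
  have e3 : (m : ℝ) * (a + b) = m * a + m * b := by ring
  linarith

theorem tz_chord {m : ℕ} (hm : 1 ≤ m) (x : Fin m → ℝ) {a b : ℝ} (ha : 0 ≤ a) (hb : 0 ≤ b)
    (ha4 : a ≤ 1 / 4) (hb4 : b ≤ 1 / 4) (hx : ∀ i, a ≤ x i ∧ x i ≤ 1 - b) :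
    4 * a * (1 - b - (∑ i, x i) / m) + 4 * b * ((∑ i, x i) / m - a) ≤
      (1 - a - b) * ((∑ i, tz (x i)) / m) := by
  have hm' : (0 : ℝ) < m := by exact_mod_cast hm
  have hpt : ∀ i, 4 * a * (1 - b - x i) + 4 * b * (x i - a) ≤ (1 - a - b) * tz (x i) := by
    intro i
    obtain ⟨h1, h2⟩ := hx i
    have hr : 0 < 1 - a - b := by linarith
    rw [mul_comm (1 - a - b), ← div_le_iff₀ hr]
    unfold tz
    refine le_min ?_ (le_min ?_ ?_)
    · rw [div_le_iff₀ hr]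
      nlinarith [mul_nonneg (show 0 ≤ 1 - 4 * a by linarith) (show 0 ≤ 1 - b - x i by linarith),
        mul_nonneg (show 0 ≤ 1 - 4 * b by linarith) (show 0 ≤ x i - a by linarith)]
    · rw [div_le_iff₀ hr]
      nlinarith [mul_nonneg (show 0 ≤ x i - a by linarith) (show 0 ≤ 1 - 2 * b by linarith)]
    · rw [div_le_iff₀ hr]
      nlinarith [mul_nonneg (show 0 ≤ 1 - b - x i by linarith) (show 0 ≤ 1 - 2 * a by linarith)]
  have hsum : ∑ i, (4 * a * (1 - b - x i) + 4 * b * (x i - a)) ≤ ∑ i, (1 - a - b) * tz (x i) :=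
    sum_le_sum fun i _ => hpt i
  rw [← mul_sum] at hsum
  have e : ∑ i, (4 * a * (1 - b - x i) + 4 * b * (x i - a)) =
      m * (4 * a * (1 - b) - 4 * b * a) + (4 * b - 4 * a) * ∑ i, x i := by
    have e1 : ∀ i, 4 * a * (1 - b - x i) + 4 * b * (x i - a) =
        (4 * a * (1 - b) - 4 * b * a) + (4 * b - 4 * a) * x i := fun i => by ring
    rw [sum_congr rfl fun i _ => e1 i, sum_add_distrib, ← mul_sum, sum_const, card_univ, Fintype.card_fin,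
      nsmul_eq_mul]
  rw [e] at hsum
  rw [← mul_div_assoc, le_div_iff₀ hm']
  have e2 : (4 * a * (1 - b - (∑ i, x i) / m) + 4 * b * ((∑ i, x i) / m - a)) * m =
      m * (4 * a * (1 - b) - 4 * b * a) + (4 * b - 4 * a) * ∑ i, x i := by
    field_simp
    ring
  rw [e2]
  exact hsum

private lemma tz_nonneg' {t : ℝ} (h0 : 0 ≤ t) (h1 : t ≤ 1) : 0 ≤ tz t := by
  unfold tz
  exact le_min (by norm_num) (le_min (by linarith) (by linarith))

theorem om_far_low {m : ℕ} (hm : 1000000 ≤ m) (x : Fin m → ℝ) {a b D : ℝ} (ha : 0 ≤ a) (hb : 0 ≤ b)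
    (hb4 : b ≤ 1 / 4 + 5 / (m : ℝ)) (hx : ∀ i, a ≤ x i ∧ x i ≤ 1 - b)
    (hw : (∑ i, x i) / m ≤ 1 / 4 - 20 / (m : ℝ)) (hD0 : 0 ≤ D) (hD : D ≤ ∑ i, x i) :
    m * F m ((∑ i, x i - D) / m) ≤ Ft m D + ∑ i, F m (x i) + m * (1 - b - a) := by
  have hm2 : 2 ≤ m := by omega
  have hmR : (1000000 : ℝ) ≤ m := by exact_mod_cast hm
  have hmpos : (0 : ℝ) < m := by linarith
  have hx0 : ∀ i, 0 ≤ x i ∧ x i ≤ 1 := fun i => ⟨ha.trans (hx i).1, by linarith [(hx i).2]⟩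
  obtain ⟨S, hS⟩ : ∃ S, S = ∑ i, x i := ⟨_, rfl⟩
  obtain ⟨w, hw'⟩ : ∃ w, w = S / m := ⟨_, rfl⟩
  have h20 : 0 < 20 / (m : ℝ) := by positivity
  have h5 : 0 < 5 / (m : ℝ) := by positivity
  rw [← hS, ← hw'] at hw
  have haw : a ≤ w := by
    rw [hw', le_div_iff₀ hmpos, hS]
    calc a * m = ∑ _i : Fin m, a := by simp [mul_comm]
      _ ≤ ∑ i, x i := sum_le_sum fun i _ => (hx i).1
  have hw0 : 0 ≤ w := ha.trans haw
  obtain ⟨b', hb'⟩ : ∃ b', b' = min b (1 / 4) := ⟨_, rfl⟩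
  have hb'0 : 0 ≤ b' := by rw [hb']; exact le_min hb (by norm_num)
  have hb'1 : b' ≤ 1 / 4 := by rw [hb']; exact min_le_right _ _
  have hb'2 : b' ≤ b := by rw [hb']; exact min_le_left _ _
  have hb'3 : b ≤ b' + 5 / m := by
    rw [hb']
    rcases min_choice b (1 / 4) with h | h <;> rw [h] <;> linarith
  have hc := tz_chord (by omega) x (a := a) (b := b') ha hb'0 (by linarith) hb'1
    (fun i => ⟨(hx i).1, by linarith [(hx i).2]⟩)
  rw [← hS, ← hw'] at hc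
  have htz0 : 0 ≤ (∑ i, tz (x i)) / m :=
    div_nonneg (sum_nonneg fun i _ => tz_nonneg' (hx0 i).1 (hx0 i).2) hmpos.le
  have htzF : (∑ i, tz (x i)) / m ≤ (∑ i, F m (x i)) / m := by
    gcongr with i _
    exact tz_le_F hm2 (hx0 i).1 (hx0 i).2
  obtain ⟨T, hT⟩ : ∃ T, T = (∑ i, tz (x i)) / m := ⟨_, rfl⟩
  rw [← hT] at hc htz0 htzF
  have hT1 : (1 - a - b') * T ≤ T := by nlinarith
  have h1 : 3 / 4 + w ≤ T + (1 - a - b') := by
    nlinarith [mul_nonneg ha (show 0 ≤ 3 - 4 * w - 8 * b' by linarith),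
      mul_nonneg (show 0 ≤ 1 / 4 - b' by linarith) (show 0 ≤ 1 - 4 * w by linarith)]
  have hr : √w ^ 2 = w := Real.sq_sqrt hw0
  have h2 : 2 * √w + 20 / m ≤ 3 / 4 + w := by nlinarith [sq_nonneg (√w - 1 / 2)]
  have hy0 : 0 ≤ (S - D) / m := div_nonneg (by rw [hS]; linarith) hmpos.le
  have hyw : (S - D) / m ≤ w := by rw [hw']; gcongr; linarith
  have h3 : F m ((S - D) / m) ≤ 2 * √w + 6 / m := by
    have h4 := F_le_G hm2 hy0 (by linarith)
    have h5 := G_le_sqrt hy0 (by linarith)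
    have h6 := Real.sqrt_le_sqrt hyw
    linarith
  have hFt := Ft_nonneg hm2 D
  have h7 : F m ((S - D) / m) ≤ (∑ i, F m (x i)) / m + (1 - b - a) := by
    have e1 : 20 / (m : ℝ) = 6 / m + 5 / m + 9 / m := by ring
    have e2 : 0 < 9 / (m : ℝ) := by positivity
    linarith
  have h8 : m * F m ((S - D) / m) ≤ m * ((∑ i, F m (x i)) / m + (1 - b - a)) :=
    mul_le_mul_of_nonneg_left h7 hmpos.le
  have e3 : (m : ℝ) * ((∑ i, F m (x i)) / m + (1 - b - a)) = ∑ i, F m (x i) + m * (1 - b - a) := by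
    field_simp
  rw [e3] at h8
  rw [← hS]
  linarith

theorem om_far_near {m : ℕ} (hm : 100000000 ≤ m) (x : Fin m → ℝ) {a b D : ℝ} (ha : 0 ≤ a) (hb : 0 ≤ b)
    (hb4 : b ≤ 1 / 4 + 5 / (m : ℝ)) (hx : ∀ i, a ≤ x i ∧ x i ≤ 1 - b)
    (hw : (∑ i, x i) / m ≤ 1 / 4 + 5 / (m : ℝ)) (hw' : 1 / 4 - 20 / (m : ℝ) ≤ (∑ i, x i) / m)
    (hD0 : 0 ≤ D) (hD : D ≤ ∑ i, x i) :
    m * F m ((∑ i, x i - D) / m) ≤ Ft m D + ∑ i, F m (x i) + m * (1 - b - a) := by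
  have hm2 : 2 ≤ m := by omega
  have hmR : (100000000 : ℝ) ≤ m := by exact_mod_cast hm
  have hmpos : (0 : ℝ) < m := by linarith
  have hx0 : ∀ i, 0 ≤ x i ∧ x i ≤ 1 := fun i => ⟨ha.trans (hx i).1, by linarith [(hx i).2]⟩
  obtain ⟨S, hS⟩ : ∃ S, S = ∑ i, x i := ⟨_, rfl⟩
  obtain ⟨w, hww⟩ : ∃ w, w = S / m := ⟨_, rfl⟩
  obtain ⟨ε, hε⟩ : ∃ ε, ε = 1 / (m : ℝ) := ⟨_, rfl⟩
  have hε0 : 0 < ε := by rw [hε]; positivity
  have hε1 : ε ≤ 1 / 100000000 := by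
    rw [hε]
    exact one_div_le_one_div_of_le (by norm_num) hmR
  have hmε : (m : ℝ) * ε = 1 := by rw [hε]; field_simp
  have e5 : 5 / (m : ℝ) = 5 * ε := by rw [hε]; ring
  have e20 : 20 / (m : ℝ) = 20 * ε := by rw [hε]; ring
  rw [e5] at hb4 hw
  rw [e20] at hw'
  rw [← hS, ← hww] at hw hw'
  rw [← hS] at hD
  have hmw : (m : ℝ) * w = S := by rw [hww]; field_simp
  have haw : a ≤ w := by
    rw [hww, le_div_iff₀ hmpos, hS]
    calc a * m = ∑ _i : Fin m, a := by simp [mul_comm]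
      _ ≤ ∑ i, x i := sum_le_sum fun i _ => (hx i).1
  -- the upper bound
  have hy0 : 0 ≤ (S - D) / m := div_nonneg (by linarith) hmpos.le
  have hyw : (S - D) / m ≤ w := by rw [hww]; gcongr; linarith
  have hsup : m * F m ((S - D) / m) ≤ m + 101 / 100 := by
    have h1 := F_le_sup hm2 hy0 (by linarith)
    have h2 : (m : ℝ) * F m ((S - D) / m) ≤ m * ((m : ℝ) / (m - 1)) :=
      mul_le_mul_of_nonneg_left h1 hmpos.le
    have h3 : (m : ℝ) * ((m : ℝ) / (m - 1)) ≤ m + 101 / 100 := by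
      rw [← mul_div_assoc, div_le_iff₀ (by linarith)]
      nlinarith
    linarith
  have hFtD := Ft_nonneg hm2 D
  have em : (m : ℝ) * (1 - b - a) = m - m * (a + b) := by ring
  rw [← hS]
  by_cases hbig : m * (a + b) + 101 / 100 ≤ ∑ i, F m (x i)
  · rw [em]; linarith
  push Not at hbig
  obtain ⟨a', ha'⟩ : ∃ a', a' = min a (1 / 4) := ⟨_, rfl⟩
  have ha'0 : 0 ≤ a' := by rw [ha']; exact le_min ha (by norm_num)
  have ha'1 : a' ≤ 1 / 4 := by rw [ha']; exact min_le_right _ _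
  have ha'2 : a' ≤ a := by rw [ha']; exact min_le_left _ _
  have ha'3 : a ≤ a' + 5 * ε := by
    rw [ha']
    rcases min_choice a (1 / 4) with h | h <;> rw [h] <;> linarith
  obtain ⟨b', hb'⟩ : ∃ b', b' = min b (1 / 4) := ⟨_, rfl⟩
  have hb'0 : 0 ≤ b' := by rw [hb']; exact le_min hb (by norm_num)
  have hb'1 : b' ≤ 1 / 4 := by rw [hb']; exact min_le_right _ _
  have hb'2 : b' ≤ b := by rw [hb']; exact min_le_left _ _
  have hb'3 : b ≤ b' + 5 * ε := by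
    rw [hb']
    rcases min_choice b (1 / 4) with h | h <;> rw [h] <;> linarith
  have hc := tz_chord (by omega) x (a := a') (b := b') ha'0 hb'0 ha'1 hb'1
    (fun i => ⟨by linarith [(hx i).1], by linarith [(hx i).2]⟩)
  rw [← hS, ← hww] at hc
  have htzF : (∑ i, tz (x i)) / m ≤ (∑ i, F m (x i)) / m := by
    gcongr with i _
    exact tz_le_F hm2 (hx0 i).1 (hx0 i).2
  obtain ⟨T, hT⟩ : ∃ T, T = (∑ i, tz (x i)) / m := ⟨_, rfl⟩
  rw [← hT] at hc htzF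
  have hTu : T - a' - b' ≤ 12 * ε := by
    have h1 : (∑ i, F m (x i)) / m ≤ (a + b) + 101 / 100 * ε := by
      rw [div_le_iff₀ hmpos]
      have : ((a + b) + 101 / 100 * ε) * m = m * (a + b) + 101 / 100 * (m * ε) := by ring
      rw [this, hmε]
      linarith
    linarith
  have hY : (1 - a' - b') * (T - a' - b') ≤ 12 * ε := by
    rcases le_total 0 (T - a' - b') with h | h
    · have : (1 - a' - b') * (T - a' - b') ≤ 1 * (T - a' - b') :=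
        mul_le_mul_of_nonneg_right (by linarith) h
      linarith
    · have : (1 - a' - b') * (T - a' - b') ≤ 0 :=
        mul_nonpos_of_nonneg_of_nonpos (by linarith) h
      linarith
  obtain ⟨θ, hθ⟩ : ∃ θ, θ = 1 / 4 - w := ⟨_, rfl⟩
  have hθ1 : θ ≤ 20 * ε := by linarith
  have hθ2 : -(5 * ε) ≤ θ := by linarith
  have hZ : 2 * a' + a' ^ 2 + b' ^ 2 - 6 * a' * b' + 4 * θ * (a' - b') ≤ 12 * ε := by
    have e : w = 1 / 4 - θ := by linarith
    rw [e] at hc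
    nlinarith
  have hθab : -(20 * ε) ≤ 4 * θ * (a' - b') := by
    have h1 : |θ| ≤ 20 * ε := abs_le.2 ⟨by linarith, hθ1⟩
    have h2 : |a' - b'| ≤ 1 / 4 := abs_le.2 ⟨by linarith, by linarith⟩
    have h3 : |4 * θ * (a' - b')| ≤ 20 * ε := by
      rw [abs_mul, abs_mul]
      have h4 : |θ| * |a' - b'| ≤ 20 * ε * (1 / 4) :=
        mul_le_mul h1 h2 (abs_nonneg _) (by linarith)
      have h5 : |(4 : ℝ)| = 4 := by norm_num
      rw [h5]
      linarith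
    exact (abs_le.1 h3).1
  have hab6 : 6 * a' * b' ≤ 3 / 2 * a' := by nlinarith
  have hQ : b' ^ 2 + a' / 2 ≤ 32 * ε := by nlinarith [sq_nonneg a']
  have ha3 : a' ≤ 64 * ε := by nlinarith [sq_nonneg b']
  have hb3 : b' ≤ 6 / 10000 := by
    by_contra hcon
    push Not at hcon
    nlinarith
  have haa : a = a' := by
    rw [ha'] at ha3 ⊢
    rcases min_choice a (1 / 4) with h | h
    · exact h.symm
    · rw [h] at ha3; linarith
  have hbb : b = b' := by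
    rw [hb'] at hb3 ⊢
    rcases min_choice b (1 / 4) with h | h
    · exact h.symm
    · rw [h] at hb3; linarith
  have hma : (m : ℝ) * a ≤ 64 := by
    rw [haa]
    have : (m : ℝ) * a' ≤ m * (64 * ε) := mul_le_mul_of_nonneg_left ha3 hmpos.le
    have e : (m : ℝ) * (64 * ε) = 64 * (m * ε) := by ring
    rw [e, hmε] at this
    linarith
  have hmb : (m : ℝ) * b ≤ m * (6 / 10000) := by
    rw [hbb]; exact mul_le_mul_of_nonneg_left hb3 hmpos.le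
  have eab : (m : ℝ) * (a + b) = m * a + m * b := by ring
  have hSlow : (m : ℝ) / 4 - 20 ≤ S := by
    have h1 : (m : ℝ) * (1 / 4 - 20 * ε) ≤ m * w := mul_le_mul_of_nonneg_left hw' hmpos.le
    have e : (m : ℝ) * (1 / 4 - 20 * ε) = m / 4 - 20 * (m * ε) := by ring
    rw [e, hmε, hmw] at h1
    linarith
  have hSup : S ≤ (m : ℝ) / 4 + 5 := by
    have h1 : (m : ℝ) * w ≤ m * (1 / 4 + 5 * ε) := mul_le_mul_of_nonneg_left hw hmpos.le
    have e : (m : ℝ) * (1 / 4 + 5 * ε) = m / 4 + 5 * (m * ε) := by ring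
    rw [e, hmε, hmw] at h1
    linarith
  have hcore := far_core' (by omega) x ha hb hx (by linarith) (by rw [← hS]; linarith)
    (by rw [← hS]; linarith)
  rw [← hS] at hcore
  have hfl := F_floor hm2 hy0 (by linarith)
  have e1 : (m : ℝ) * ((S - D) / m) = S - D := by field_simp
  rw [e1] at hfl
  have hfl2 : m * F m ((S - D) / m) ≤ m + Ft m (S - D) := by
    have h1 : (m : ℝ) * F m ((S - D) / m) ≤ m * (1 + F m (Int.fract (S - D)) / m) :=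
      mul_le_mul_of_nonneg_left hfl hmpos.le
    have e : (m : ℝ) * (1 + F m (Int.fract (S - D)) / m) = m + F m (Int.fract (S - D)) := by
      field_simp
    rw [e] at h1
    exact h1
  have hsub := Ft_isSub hm2
  have h9 := hsub.sub S (-D)
  rw [hsub.even, ← sub_eq_add_neg] at h9
  rw [em]
  linarith

theorem om_far {m : ℕ} (hm : 100000000 ≤ m) (x : Fin m → ℝ) {a b D : ℝ} (ha : 0 ≤ a) (hb : 0 ≤ b)
    (hb4 : b ≤ 1 / 4 + 5 / (m : ℝ)) (hx : ∀ i, a ≤ x i ∧ x i ≤ 1 - b)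
    (hw : (∑ i, x i) / m ≤ 1 / 4 + 5 / (m : ℝ)) (hD0 : 0 ≤ D) (hD : D ≤ ∑ i, x i) :
    m * F m ((∑ i, x i - D) / m) ≤ Ft m D + ∑ i, F m (x i) + m * (1 - b - a) := by
  rcases le_total ((∑ i, x i) / m) (1 / 4 - 20 / (m : ℝ)) with h | h
  · exact om_far_low (by omega) x ha hb hb4 hx h hD0 hD
  · exact om_far_near hm x ha hb hb4 hx hw h hD0 hD

end Pool.Agent.H86.Z1
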