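import Pool.Agent.H86.FM.Reals
import Pool.Agent.H86.Z1.Mid
import Pool.Agent.H86.Z1.OmFar

/-!
# Project Z1: the monotonicity inequality (OM), by maximality

`om : F (w - D/m) ≤ F w + Ft D / m` for `0 ≤ w ≤ 1/2`, `0 ≤ D ≤ m w`.

Proof sketches. Let `κ = 1/4 + 5/m`.
* `om_mid` (`κ ≤ w ≤ 3/4 - 5/m`): `F_floor` for `w - D/m`: `F (w - D/m) ≤ 1 + Ft (m w - D)/m ≤ 1 + (Ft (m w) + Ft D)/m = F w + Ft D/m` (`mid`, `Ft_isSub`).
* `Kf m w = sSup {y | ∃ D, 0 ≤ D ∧ D ≤ m w ∧ y = F (w - D/m) - Ft D/m}` if `w < κ`, `= F w` otherwise. `Kf_ge : F w ≤ Kf w` (`D = 0`), bounded by `m/(m-1)`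
  (`F_le_sup`, `Ft_nonneg`), `Kf_lower : F (w - D/m) - Ft D/m ≤ Kf m w` for all `0 ≤ w ≤ 3/4 - 5/m`, `0 ≤ D ≤ m w` (`le_csSup` or `om_mid`).
* `om_low`: the tuple inequality when all `x i ≥ D/m` and `x i ≤ 3/4 - 5/m`: `F_tuple` for `x i - D/m`.
* `om_set`: (choice of `Z`, `j`) if `x i ≥ 0`, `0 ≤ e`, some `x i < e` and `∑ (x i - e) ≥ 0` then there are a set `Z` and `j ∉ Z` with `x i < e → i ∈ Z`,
  and `0 ≤ ∑_Z (e - x i) ≤ x j - e`. (Induction/`Finset.exists_maximal`-type argument: among the sets `Z ⊇ {x i < e}` with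
  `0 ≤ ∑_Z (e - x i)` take one of maximal cardinality; if `Z = univ` then the sum over `Z` is `≤ 0`, hence `= 0`; to get `j` in this case
  remove an element of `Z` with `x j ≥ e` first. So: take `Z` maximal among those with `∑_Z (e - x i) > 0`; it is not `univ`; any `j ∉ Z` has `x j ≥ e` and
  by maximality `∑_Z (e - x i) + (e - x j) ≤ 0`.)
* `om_move`: the tuple inequality when some `x i < e = D/m`, all `x i ≤ hi ≤ 3/4 - 5/m`: with `e' = ∑_Z (e - x i)` apply `F_tuple` with bounds `0`, `hi - e` to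
  `z i = 0` (`i ∈ Z`), `z j = x j - e - e'`, `z i = x i - e` (others); `hi - e ≤ hi - lo`. Sum of the values:
  `F (x i - e) ≤ Kf (x i) + Ft D/m`, `F (x j - (e + e')) ≤ Kf (x j) + Ft (D + m e')/m ≤ Kf (x j) + Ft D/m + Ft (m e')/m`, `F 0 = 0`, and
  `m e' = |Z| D - ∑_Z m x i`, so `Ft (m e')/m ≤ |Z| Ft D/m + ∑_Z F (x i)` (`Ft (m y) ≤ m F y`: `Ft_isSub`, `Sub.sum` with `m` copies), `F (x i) ≤ Kf (x i)`.
  Total `≤ ∑ Kf (x i) + Ft D`.
* `om_kf`: `Kf m ≤ F m` by `le_F_of`: mean `w ≥ κ`: `F_tuple` and `Kf_ge`. Mean `w < κ`: `csSup_le`, for every `D`: if `hi ≤ 3/4 - 5/m` `om_low` or `om_move`,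
  otherwise `om_far` with `a = lo`, `b = 1 - hi`.
* `om`: `w < κ`: `om_kf`; otherwise `om_mid` (`1/2 ≤ 3/4 - 5/m`).
-/

set_option autoImplicit false

namespace Pool.Agent.H86.Z1

open Finset Pool.Agent.H14RC Pool.Agent.H86.FM

private lemma mpos {m : ℕ} (hm : 2 ≤ m) : (0 : ℝ) < m := by
  have : 0 < m := by omega
  exact_mod_cast this

private lemma Ft_zero {m : ℕ} (hm : 2 ≤ m) : Ft m 0 = 0 := (Ft_isSub hm).zero

private lemma sub_mem {m : ℕ} (hm : 2 ≤ m) {w D : ℝ} (h1 : w ≤ 1) (hD0 : 0 ≤ D) (hD : D ≤ m * w) :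
    0 ≤ w - D / m ∧ w - D / m ≤ 1 := by
  have hmp := mpos hm
  have h : D / m ≤ w := by
    rw [div_le_iff₀ hmp]
    linarith [mul_comm (m : ℝ) w]
  have h' : 0 ≤ D / m := div_nonneg hD0 hmp.le
  exact ⟨by linarith, by linarith⟩

theorem om_mid {m : ℕ} (hm : 100000000 ≤ m) {w D : ℝ} (h0 : 1 / 4 + 5 / (m : ℝ) ≤ w) (h1 : w ≤ 3 / 4 - 5 / (m : ℝ))
    (hD0 : 0 ≤ D) (hD : D ≤ m * w) : F m (w - D / m) ≤ F m w + Ft m D / m := by
  have hm2 : 2 ≤ m := by omega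
  have hmp := mpos hm2
  have h5 : 0 < 5 / (m : ℝ) := by positivity
  obtain ⟨h2, h3⟩ := sub_mem hm2 (by linarith) hD0 hD
  have hf := F_floor hm2 h2 h3
  have e1 : (m : ℝ) * (w - D / m) = m * w + -D := by field_simp; ring
  rw [e1] at hf
  have hs := (Ft_isSub hm2).sub (m * w) (-D)
  rw [(Ft_isSub hm2).even] at hs
  have hs' : F m (Int.fract (m * w + -D)) / m ≤ (Ft m (m * w) + Ft m D) / m :=
    div_le_div_of_nonneg_right hs hmp.le
  rw [add_div] at hs'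
  rw [mid (by omega) h0 h1]
  linarith

noncomputable def Kf (m : ℕ) (w : ℝ) : ℝ :=
  if w < 1 / 4 + 5 / (m : ℝ) then sSup {y : ℝ | ∃ D : ℝ, 0 ≤ D ∧ D ≤ m * w ∧ y = F m (w - D / m) - Ft m D / m}
  else F m w

private lemma kset_le {m : ℕ} (hm : 2 ≤ m) {w : ℝ} (h1 : w ≤ 1) :
    ∀ y ∈ {y : ℝ | ∃ D : ℝ, 0 ≤ D ∧ D ≤ m * w ∧ y = F m (w - D / m) - Ft m D / m}, y ≤ (m : ℝ) / (m - 1) := by
  rintro y ⟨D, hD0, hD, rfl⟩
  obtain ⟨h2, h3⟩ := sub_mem hm h1 hD0 hD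
  have h4 := F_le_sup hm h2 h3
  have h5 : 0 ≤ Ft m D / m := div_nonneg (Ft_nonneg hm D) (mpos hm).le
  linarith

private lemma kset_ne {m : ℕ} (hm : 2 ≤ m) {w : ℝ} (h0 : 0 ≤ w) :
    F m w ∈ {y : ℝ | ∃ D : ℝ, 0 ≤ D ∧ D ≤ m * w ∧ y = F m (w - D / m) - Ft m D / m} := by
  refine ⟨0, le_refl _, mul_nonneg (mpos hm).le h0, ?_⟩
  rw [Ft_zero hm]
  simp

theorem Kf_le {m : ℕ} (hm : 2 ≤ m) {w : ℝ} (h0 : 0 ≤ w) (h1 : w ≤ 1) : Kf m w ≤ (m : ℝ) / (m - 1) := by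
  unfold Kf
  split_ifs with h
  · exact csSup_le ⟨_, kset_ne hm h0⟩ (kset_le hm h1)
  · exact F_le_sup hm h0 h1

theorem Kf_ge {m : ℕ} (hm : 2 ≤ m) {w : ℝ} (h0 : 0 ≤ w) (h1 : w ≤ 1) : F m w ≤ Kf m w := by
  unfold Kf
  split_ifs with h
  · exact le_csSup ⟨_, kset_le hm h1⟩ (kset_ne hm h0)
  · exact le_refl _

theorem Kf_lower {m : ℕ} (hm : 100000000 ≤ m) {w D : ℝ} (h0 : 0 ≤ w) (h1 : w ≤ 3 / 4 - 5 / (m : ℝ))
    (hD0 : 0 ≤ D) (hD : D ≤ m * w) : F m (w - D / m) - Ft m D / m ≤ Kf m w := by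
  have hm2 : 2 ≤ m := by omega
  have hmp := mpos hm2
  have h5 : 0 < 5 / (m : ℝ) := by positivity
  unfold Kf
  split_ifs with h
  · exact le_csSup ⟨_, kset_le hm2 (by linarith)⟩ ⟨D, hD0, hD, rfl⟩
  · have := om_mid hm (not_lt.1 h) h1 hD0 hD
    linarith

theorem om_low {m : ℕ} (hm : 100000000 ≤ m) (x : Fin m → ℝ) {lo hi D : ℝ} (hlo : 0 ≤ lo) (hhi : hi ≤ 3 / 4 - 5 / (m : ℝ))
    (hx : ∀ i, lo ≤ x i ∧ x i ≤ hi) (hD0 : 0 ≤ D) (hD : ∀ i, D / m ≤ x i) :
    F m ((∑ i, x i - D) / m) - Ft m D / m ≤ (∑ i, Kf m (x i)) / m + (hi - lo) := by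
  have hm2 : 2 ≤ m := by omega
  have hmp := mpos hm2
  have h5 : 0 < 5 / (m : ℝ) := by positivity
  have hDm : 0 ≤ D / m := div_nonneg hD0 hmp.le
  have ht := F_tuple hm2 (fun i => x i - D / m) (lo := max lo (D / m) - D / m) (hi := hi - D / m)
    (by linarith [le_max_right lo (D / (m : ℝ))]) (by linarith)
    (fun i => ⟨by linarith [max_le (hx i).1 (hD i)], by linarith [(hx i).2]⟩)
  have e1 : ∑ i, (x i - D / m) = ∑ i, x i - D := by
    rw [Finset.sum_sub_distrib, Finset.sum_const, Finset.card_univ, Fintype.card_fin, nsmul_eq_mul]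
    congr 1
    field_simp
  rw [e1] at ht
  have h2 : ∑ i, F m (x i - D / m) ≤ ∑ i, (Kf m (x i) + Ft m D / m) := by
    refine Finset.sum_le_sum fun i _ => ?_
    have h3 : D ≤ m * x i := by
      have := (div_le_iff₀ hmp).1 (hD i)
      linarith [mul_comm (m : ℝ) (x i)]
    have h4 := Kf_lower hm (hlo.trans (hx i).1) ((hx i).2.trans hhi) hD0 h3
    linarith
  have e2 : ∑ i, (Kf m (x i) + Ft m D / m) = ∑ i, Kf m (x i) + Ft m D := by
    rw [Finset.sum_add_distrib, Finset.sum_const, Finset.card_univ, Fintype.card_fin, nsmul_eq_mul]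
    congr 1
    field_simp
  rw [e2] at h2
  have h3 : (∑ i, F m (x i - D / m)) / m ≤ (∑ i, Kf m (x i)) / m + Ft m D / m := by
    rw [← add_div]
    exact div_le_div_of_nonneg_right h2 hmp.le
  have h4 := le_max_left lo (D / (m : ℝ))
  linarith

theorem om_set {ι : Type*} [Fintype ι] [DecidableEq ι] (x : ι → ℝ) {e : ℝ} (h0 : ∃ i, x i < e) (hs : 0 ≤ ∑ i, (x i - e)) :
    ∃ (Z : Finset ι) (j : ι), j ∉ Z ∧ (∀ i, x i < e → i ∈ Z) ∧ 0 ≤ ∑ i ∈ Z, (e - x i) ∧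
      ∑ i ∈ Z, (e - x i) ≤ x j - e := by
  classical
  set P : Finset (Finset ι) := univ.powerset.filter
    (fun Z => (∀ i, x i < e → i ∈ Z) ∧ 0 < ∑ i ∈ Z, (e - x i)) with hP
  have hmem : ∀ Z : Finset ι, Z ∈ P ↔ (∀ i, x i < e → i ∈ Z) ∧ 0 < ∑ i ∈ Z, (e - x i) := by
    intro Z
    rw [hP, Finset.mem_filter]
    constructor
    · exact fun h => h.2
    · exact fun h => ⟨Finset.mem_powerset.2 (Finset.subset_univ _), h⟩
  have hne : P.Nonempty := by
    refine ⟨univ.filter (fun i => x i < e), (hmem _).2 ⟨fun i hi => by simp [hi], ?_⟩⟩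
    obtain ⟨i, hi⟩ := h0
    refine Finset.sum_pos (fun k hk => ?_) ⟨i, by simp [hi]⟩
    have := (Finset.mem_filter.1 hk).2
    linarith
  obtain ⟨Z, hZ, hmax⟩ := Finset.exists_max_image P Finset.card hne
  obtain ⟨hZ1, hZ2⟩ := (hmem Z).1 hZ
  have hneu : Z ≠ univ := by
    intro h
    rw [h] at hZ2
    have : ∑ i, (e - x i) = -∑ i, (x i - e) := by
      rw [← Finset.sum_neg_distrib]
      exact Finset.sum_congr rfl fun i _ => by ring
    linarith
  obtain ⟨j, hj⟩ : ∃ j, j ∉ Z := by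
    by_contra hcon
    push Not at hcon
    exact hneu (Finset.eq_univ_iff_forall.2 hcon)
  refine ⟨Z, j, hj, hZ1, hZ2.le, ?_⟩
  by_contra hcon
  push Not at hcon
  have hin : insert j Z ∈ P := by
    refine (hmem _).2 ⟨fun i hi => Finset.mem_insert_of_mem (hZ1 i hi), ?_⟩
    rw [Finset.sum_insert hj]
    linarith
  have := hmax _ hin
  rw [Finset.card_insert_of_notMem hj] at this
  omega

private lemma Ft_mul_le {m : ℕ} (hm : 2 ≤ m) {y : ℝ} (h0 : 0 ≤ y) (h1 : y ≤ 1) : Ft m (m * y) ≤ m * F m y := by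
  have h := (Ft_isSub hm).sum (Finset.range m) (fun _ => y)
  rw [Finset.sum_const, Finset.card_range, nsmul_eq_mul, Finset.sum_const, Finset.card_range, nsmul_eq_mul,
    Ft_of_mem hm h0 h1] at h
  exact h

theorem om_move {m : ℕ} (hm : 100000000 ≤ m) (x : Fin m → ℝ) {lo hi D : ℝ} (hlo : 0 ≤ lo) (hhi : hi ≤ 3 / 4 - 5 / (m : ℝ))
    (hx : ∀ i, lo ≤ x i ∧ x i ≤ hi) (hD0 : 0 ≤ D) (hD : D ≤ ∑ i, x i) (hi' : ∃ i, x i < D / m) :
    F m ((∑ i, x i - D) / m) - Ft m D / m ≤ (∑ i, Kf m (x i)) / m + (hi - lo) := by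
  classical
  have hm2 : 2 ≤ m := by omega
  have hmp := mpos hm2
  have h5 : 0 < 5 / (m : ℝ) := by positivity
  obtain ⟨e, he⟩ : ∃ e, e = D / m := ⟨_, rfl⟩
  have hme : (m : ℝ) * e = D := by rw [he]; field_simp
  have he0 : 0 ≤ e := by rw [he]; exact div_nonneg hD0 hmp.le
  rw [← he] at hi'
  have hsum : ∑ i, (x i - e) = ∑ i, x i - D := by
    rw [Finset.sum_sub_distrib, Finset.sum_const, Finset.card_univ, Fintype.card_fin, nsmul_eq_mul, hme]
  obtain ⟨Z, j, hj, hZ, hZ0, hZ1⟩ := om_set x hi' (by rw [hsum]; linarith)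
  obtain ⟨e', he'⟩ : ∃ e', e' = ∑ i ∈ Z, (e - x i) := ⟨_, rfl⟩
  rw [← he'] at hZ0 hZ1
  have hge : ∀ i, i ∉ Z → e ≤ x i := fun i hi => by
    by_contra hcon
    exact hi (hZ i (not_le.1 hcon))
  have hjhi := (hx j).2
  have hloe : lo ≤ e := by
    obtain ⟨i, hi⟩ := hi'
    exact (hx i).1.trans hi.le
  have hx01 : ∀ i, 0 ≤ x i ∧ x i ≤ 1 := fun i => ⟨hlo.trans (hx i).1, by linarith [(hx i).2]⟩
  obtain ⟨z, hz⟩ : ∃ z : Fin m → ℝ, z = fun i => if i ∈ Z then 0 else if i = j then x i - e - e' else x i - e := ⟨_, rfl⟩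
  have hzZ : ∀ i ∈ Z, z i = 0 := fun i hi => by rw [hz]; simp [hi]
  have hzj : z j = x j - e - e' := by rw [hz]; simp [hj]
  have hzo : ∀ i, i ∉ Z → i ≠ j → z i = x i - e := fun i hi hij => by rw [hz]; simp [hi, hij]
  have hzb : ∀ i, 0 ≤ z i ∧ z i ≤ hi - e := by
    intro i
    by_cases h1 : i ∈ Z
    · rw [hzZ i h1]
      exact ⟨le_refl _, by linarith⟩
    · by_cases h2 : i = j
      · subst h2
        rw [hzj]
        exact ⟨by linarith, by linarith⟩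
      · rw [hzo i h1 h2]
        exact ⟨by linarith [hge i h1], by linarith [(hx i).2]⟩
  have ht := F_tuple hm2 z (lo := 0) (hi := hi - e) (le_refl _) (by linarith) hzb
  -- splitting sums
  have hjc : j ∈ Zᶜ := Finset.mem_compl.2 hj
  have split : ∀ f : Fin m → ℝ, ∑ i, f i = ∑ i ∈ Z, f i + (f j + ∑ i ∈ Zᶜ.erase j, f i) := by
    intro f
    rw [← Finset.sum_add_sum_compl Z f, Finset.add_sum_erase _ _ hjc]
  have hmemo : ∀ i ∈ Zᶜ.erase j, i ∉ Z ∧ i ≠ j := fun i hi =>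
    ⟨Finset.mem_compl.1 (Finset.mem_of_mem_erase hi), Finset.ne_of_mem_erase hi⟩
  have hzsum : ∑ i, z i = ∑ i, x i - D := by
    have h1 : ∑ i ∈ Z, (x i - e) = -e' := by
      rw [he', ← Finset.sum_neg_distrib]
      exact Finset.sum_congr rfl fun i _ => by ring
    rw [← hsum, split z, split (fun i => x i - e), h1, hzj,
      Finset.sum_eq_zero (fun i hi => hzZ i hi),
      Finset.sum_congr rfl (fun i hi => hzo i (hmemo i hi).1 (hmemo i hi).2)]
    ring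
  rw [hzsum] at ht
  -- the values
  have hvo : ∀ i ∈ Zᶜ.erase j, F m (z i) ≤ Kf m (x i) + Ft m D / m := by
    intro i hi
    obtain ⟨h1, h2⟩ := hmemo i hi
    rw [hzo i h1 h2, he]
    have h3 : D ≤ m * x i := by
      have := mul_le_mul_of_nonneg_left (hge i h1) hmp.le
      rw [hme] at this
      exact this
    have h4 := Kf_lower hm (hx01 i).1 ((hx i).2.trans hhi) hD0 h3
    linarith
  have hvj : F m (z j) ≤ Kf m (x j) + Ft m D / m + Ft m (m * e') / m := by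
    rw [hzj]
    have h3 : D + m * e' ≤ m * x j := by
      have := mul_le_mul_of_nonneg_left hZ1 hmp.le
      rw [mul_sub, hme] at this
      linarith
    have h4 := Kf_lower hm (hx01 j).1 ((hx j).2.trans hhi) (D := D + m * e')
      (add_nonneg hD0 (mul_nonneg hmp.le hZ0)) h3
    have e1 : x j - (D + m * e') / m = x j - e - e' := by
      rw [he]
      field_simp
      ring
    rw [e1] at h4
    have h6 : Ft m (D + m * e') / m ≤ Ft m D / m + Ft m (m * e') / m := by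
      rw [← add_div]
      exact div_le_div_of_nonneg_right ((Ft_isSub hm2).sub _ _) hmp.le
    linarith
  have hme' : (m : ℝ) * e' = ∑ i ∈ Z, (D + -(m * x i)) := by
    rw [he', Finset.mul_sum]
    exact Finset.sum_congr rfl fun i _ => by rw [mul_sub, hme]; ring
  have hFt : Ft m (m * e') ≤ Z.card * Ft m D + m * ∑ i ∈ Z, Kf m (x i) := by
    rw [hme']
    refine ((Ft_isSub hm2).sum Z _).trans ?_
    have h1 : ∑ i ∈ Z, Ft m (D + -(m * x i)) ≤ ∑ i ∈ Z, (Ft m D + m * Kf m (x i)) := by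
      refine Finset.sum_le_sum fun i _ => ?_
      have h2 := (Ft_isSub hm2).sub D (-(m * x i))
      rw [(Ft_isSub hm2).even] at h2
      have h3 := Ft_mul_le hm2 (hx01 i).1 (hx01 i).2
      have h4 := mul_le_mul_of_nonneg_left (Kf_ge hm2 (hx01 i).1 (hx01 i).2) hmp.le
      linarith
    refine h1.trans (le_of_eq ?_)
    rw [Finset.sum_add_distrib, Finset.sum_const, nsmul_eq_mul, Finset.mul_sum]
  have hFt' : Ft m (m * e') / m ≤ Z.card * (Ft m D / m) + ∑ i ∈ Z, Kf m (x i) := by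
    rw [div_le_iff₀ hmp]
    have h8 : Ft m D / m * m = Ft m D := div_mul_cancel₀ _ hmp.ne'
    have h9 : (Z.card * (Ft m D / m) + ∑ i ∈ Z, Kf m (x i)) * m
        = Z.card * (Ft m D / m * m) + m * ∑ i ∈ Z, Kf m (x i) := by ring
    rw [h9, h8]
    exact hFt
  have hcard : (Z.card : ℝ) + (1 + (Zᶜ.erase j).card) = m := by
    have := split (fun _ => (1 : ℝ))
    simp only [Finset.sum_const, nsmul_eq_mul, mul_one, Finset.card_univ, Fintype.card_fin] at this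
    linarith
  have htot : ∑ i, F m (z i) ≤ ∑ i, Kf m (x i) + Ft m D := by
    have h1 : ∑ i ∈ Z, F m (z i) = 0 :=
      Finset.sum_eq_zero fun i hi => by rw [hzZ i hi, F_zero hm2]
    have h2 : ∑ i ∈ Zᶜ.erase j, F m (z i) ≤ ∑ i ∈ Zᶜ.erase j, Kf m (x i) + (Zᶜ.erase j).card * (Ft m D / m) := by
      refine (Finset.sum_le_sum hvo).trans (le_of_eq ?_)
      rw [Finset.sum_add_distrib, Finset.sum_const, nsmul_eq_mul]
    rw [split (fun i => F m (z i)), split (fun i => Kf m (x i)), h1]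
    have h3 : (Z.card : ℝ) * (Ft m D / m) + (Ft m D / m + (Zᶜ.erase j).card * (Ft m D / m)) = Ft m D := by
      have h4 : (Z.card : ℝ) * (Ft m D / m) + (Ft m D / m + (Zᶜ.erase j).card * (Ft m D / m))
          = ((Z.card : ℝ) + (1 + (Zᶜ.erase j).card)) * (Ft m D / m) := by ring
      rw [h4, hcard]
      exact mul_div_cancel₀ _ hmp.ne'
    linarith
  have htot' : (∑ i, F m (z i)) / m ≤ (∑ i, Kf m (x i)) / m + Ft m D / m := by
    rw [← add_div]
    exact div_le_div_of_nonneg_right htot hmp.le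
  linarith

theorem om_kf {m : ℕ} (hm : 100000000 ≤ m) {w : ℝ} (h0 : 0 ≤ w) (h1 : w ≤ 1) : Kf m w ≤ F m w := by
  have hm2 : 2 ≤ m := by omega
  have hmp := mpos hm2
  have hmR : (100000000 : ℝ) ≤ m := by exact_mod_cast hm
  have h5 : 0 < 5 / (m : ℝ) := by positivity
  have h5' : 5 / (m : ℝ) ≤ 1 / 4 := by
    rw [div_le_div_iff₀ hmp (by norm_num)]
    linarith
  refine le_F_of hm2 ?_ ?_ ?_ ?_ h0 h1
  · -- at zero
    unfold Kf
    rw [if_pos (by linarith)]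
    refine csSup_le ⟨_, kset_ne hm2 (le_refl _)⟩ ?_
    rintro y ⟨D, hD0, hD, rfl⟩
    have hD' : D = 0 := le_antisymm (by simpa using hD) hD0
    subst hD'
    rw [Ft_zero hm2]
    simp [F_zero hm2]
  · unfold Kf
    rw [if_neg (by linarith), F_one hm2]
  · exact ⟨(m : ℝ) / (m - 1), fun x hx0 hx1 => Kf_le hm2 hx0 hx1⟩
  · intro x lo hi hlo hhi hx
    have hx01 : ∀ i, 0 ≤ x i ∧ x i ≤ 1 := fun i => ⟨hlo.trans (hx i).1, (hx i).2.trans hhi⟩
    have hFK : ∑ i, F m (x i) ≤ ∑ i, Kf m (x i) :=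
      Finset.sum_le_sum fun i _ => Kf_ge hm2 (hx01 i).1 (hx01 i).2
    have hFK' : (∑ i, F m (x i)) / m ≤ (∑ i, Kf m (x i)) / m := div_le_div_of_nonneg_right hFK hmp.le
    have hS0 : 0 ≤ ∑ i, x i := Finset.sum_nonneg fun i _ => (hx01 i).1
    by_cases hW : (∑ i, x i) / m < 1 / 4 + 5 / (m : ℝ)
    · have hKf : Kf m ((∑ i, x i) / m) = sSup {y : ℝ | ∃ D : ℝ, 0 ≤ D ∧ D ≤ m * ((∑ i, x i) / m) ∧
          y = F m ((∑ i, x i) / m - D / m) - Ft m D / m} := by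
        unfold Kf
        rw [if_pos hW]
      rw [hKf]
      refine csSup_le ⟨_, kset_ne hm2 (div_nonneg hS0 hmp.le)⟩ ?_
      rintro y ⟨D, hD0, hD, rfl⟩
      have e1 : (m : ℝ) * ((∑ i, x i) / m) = ∑ i, x i := by field_simp
      rw [e1] at hD
      rw [← sub_div]
      rcases le_or_gt hi (3 / 4 - 5 / (m : ℝ)) with hh | hh
      · by_cases hall : ∀ i, D / m ≤ x i
        · exact om_low hm x hlo hh hx hD0 hall
        · push Not at hall
          exact om_move hm x hlo hh hx hD0 hD hall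
      · have hf := om_far hm x (a := lo) (b := 1 - hi) (D := D) hlo (by linarith) (by linarith)
          (fun i => ⟨(hx i).1, by linarith [(hx i).2]⟩) hW.le hD0 hD
        have e2 : 1 - (1 - hi) - lo = hi - lo := by ring
        rw [e2] at hf
        have h6 : F m ((∑ i, x i - D) / m) ≤ Ft m D / m + (∑ i, F m (x i)) / m + (hi - lo) := by
          have h7 : F m ((∑ i, x i - D) / m) ≤ (Ft m D + ∑ i, F m (x i) + m * (hi - lo)) / m := by
            rw [le_div_iff₀ hmp]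
            linarith [mul_comm (m : ℝ) (F m ((∑ i, x i - D) / m))]
          have e3 : (Ft m D + ∑ i, F m (x i) + m * (hi - lo)) / m =
              Ft m D / m + (∑ i, F m (x i)) / m + (hi - lo) := by
            field_simp
          rw [e3] at h7
          exact h7
        linarith
    · have hKf : Kf m ((∑ i, x i) / m) = F m ((∑ i, x i) / m) := by
        unfold Kf
        rw [if_neg hW]
      rw [hKf]
      have := F_tuple hm2 x hlo hhi hx
      linarith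

theorem om {m : ℕ} (hm : 100000000 ≤ m) {w D : ℝ} (h0 : 0 ≤ w) (h1 : w ≤ 1 / 2) (hD0 : 0 ≤ D) (hD : D ≤ m * w) :
    F m (w - D / m) ≤ F m w + Ft m D / m := by
  have hm2 : 2 ≤ m := by omega
  have hmp := mpos hm2
  have hmR : (100000000 : ℝ) ≤ m := by exact_mod_cast hm
  have h5' : 5 / (m : ℝ) ≤ 1 / 4 := by
    rw [div_le_div_iff₀ hmp (by norm_num)]
    linarith
  rcases lt_or_ge w (1 / 4 + 5 / (m : ℝ)) with h | h
  · have h2 := Kf_lower hm h0 (by linarith) hD0 hD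
    have h3 := om_kf hm h0 (by linarith)
    linarith
  · exact om_mid hm h (by linarith) hD0 hD

end Pool.Agent.H86.Z1
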