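import Pool.Agent.H86.Z1.Chord

/-!
# Project Z1: stability, tuples with `lo ≤ 64/729` and `hi ≤ 1/4`

Proof sketches. `w = r²`, `Y = t²`, `r ≤ t ≤ 1/2`, `0.2998 ≤ r ≤ 0.4991`.
* `st_lo_arith`: with `h = t - r`, `p = t + r`, `D = t² - a` the quantity is `D² - h D (27/4 p - 2) + 2 h p t (27/8 t - 1)`.
  Either the discriminant is negative, or the vertex is beyond `D = t²`.
* `st_lo`: `G_chord_avg` with `A = (27/4) a` (`G_ge_lin`), `B = 2t = G Y` (`G_sqrt`, `Y ≥ w ≥ 64/729`).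
-/

set_option autoImplicit false

namespace Pool.Agent.H86.Z1

open Finset Pool.Agent.H14RC Pool.Agent.H86.FM

/-- The discriminant at `r = ρ` bounds the one at `r ≥ ρ`. -/
private lemma disc_mono {ρ r t : ℝ} (hρ : 29983 / 100000 ≤ ρ) (hr : ρ ≤ r) (hrt : r ≤ t) (ht : t ≤ 46 / 100) :
    (t - r) * (27 / 4 * (t + r) - 2) ^ 2 ≤ (t - ρ) * (27 / 4 * (t + ρ) - 2) ^ 2 := by
  obtain ⟨d, hd⟩ : ∃ d, d = r - ρ := ⟨_, rfl⟩
  obtain ⟨h, hh⟩ : ∃ h, h = t - r := ⟨_, rfl⟩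
  obtain ⟨A, hA⟩ : ∃ A, A = 27 / 4 * (t + ρ) - 2 := ⟨_, rfl⟩
  have hd0 : 0 ≤ d := by linarith
  have hh0 : 0 ≤ h := by linarith
  have e1 : 27 / 4 * (t + r) - 2 = A + 27 / 4 * d := by rw [hA, hd]; ring
  have e2 : t - ρ = h + d := by linarith
  have hA0 : 2 ≤ A := by rw [hA]; linarith
  have hA1 : 27 / 2 * (h + d) + 5 / 10 ≤ A := by rw [hA, hh, hd]; linarith
  rw [e1, e2, ← hA, ← hh]
  have h2 : 27 / 2 * h * A + 729 / 16 * (h * d) ≤ A ^ 2 := by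
    have h3 : h * d ≤ 7 / 1000 := by
      have : h + d ≤ 17 / 100 := by linarith
      nlinarith [sq_nonneg (h - d)]
    nlinarith
  nlinarith [mul_le_mul_of_nonneg_left h2 hd0]

/-- Negative discriminant. -/
private lemma case_disc {a r t κ : ℝ} (ha' : a ≤ 64 / 729) (hr : 29983 / 100000 ≤ r)
    (hrt : r ≤ t) (ht : t ≤ 1 / 2) (hκ : 1 / 2500 ≤ κ)
    (h : (t - r) * (27 / 4 * (t + r) - 2) ^ 2 + κ ≤ 8 * (t + r) * t * (27 / 8 * t - 1)) :
    1 / 100000000 ≤ (t ^ 2 - a) ^ 2 + 27 / 4 * a * (t ^ 2 - r ^ 2) + 2 * t * (r ^ 2 - a) - 2 * r * (t ^ 2 - a) := by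
  obtain ⟨u, hu⟩ : ∃ u, u = t - r := ⟨_, rfl⟩
  obtain ⟨A, hA⟩ : ∃ A, A = 27 / 4 * (t + r) - 2 := ⟨_, rfl⟩
  obtain ⟨D, hD⟩ : ∃ D, D = t ^ 2 - a := ⟨_, rfl⟩
  have hu0 : 0 ≤ u := by linarith
  have hA0 : 0 ≤ A := by rw [hA]; linarith
  have hA5 : A ≤ 19 / 4 := by rw [hA]; linarith
  have hD0 : 21 / 10000 ≤ D := by rw [hD]; nlinarith
  have e : (t ^ 2 - a) ^ 2 + 27 / 4 * a * (t ^ 2 - r ^ 2) + 2 * t * (r ^ 2 - a) - 2 * r * (t ^ 2 - a) =
      (D - u * A / 2) ^ 2 + u * (8 * (t + r) * t * (27 / 8 * t - 1) - u * A ^ 2) / 4 := by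
    rw [hD, hA, hu]; ring
  rw [e]
  rw [← hu, ← hA] at h
  have h1 : 1 / 2500 ≤ 8 * (t + r) * t * (27 / 8 * t - 1) - u * A ^ 2 := by linarith
  rcases le_total u (1 / 5000) with h2 | h2
  · have h3 : u * A / 2 ≤ 1 / 2000 := by nlinarith
    have h4 : 16 / 10000 ≤ D - u * A / 2 := by linarith
    have h5 : 0 ≤ u * (8 * (t + r) * t * (27 / 8 * t - 1) - u * A ^ 2) / 4 := by
      have := mul_nonneg hu0 (show 0 ≤ 8 * (t + r) * t * (27 / 8 * t - 1) - u * A ^ 2 by linarith)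
      linarith
    nlinarith
  · have h5 : 1 / 5000 * (1 / 2500) ≤ u * (8 * (t + r) * t * (27 / 8 * t - 1) - u * A ^ 2) :=
      mul_le_mul h2 h1 (by norm_num) hu0
    nlinarith [sq_nonneg (D - u * A / 2)]

/-- Vertex beyond `t²`. -/
private lemma case_vertex {a r t : ℝ} (ha : 0 ≤ a) (hr : 29983 / 100000 ≤ r) (hr1 : r ≤ 33 / 100)
    (ht0 : 44 / 100 ≤ t) (ht : t ≤ 1 / 2) (h : 2 * t ^ 2 ≤ (t - r) * (27 / 4 * (t + r) - 2)) :
    1 / 100000000 ≤ (t ^ 2 - a) ^ 2 + 27 / 4 * a * (t ^ 2 - r ^ 2) + 2 * t * (r ^ 2 - a) - 2 * r * (t ^ 2 - a) := by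
  have e : (t ^ 2 - a) ^ 2 + 27 / 4 * a * (t ^ 2 - r ^ 2) + 2 * t * (r ^ 2 - a) - 2 * r * (t ^ 2 - a) =
      t * (t ^ 3 - 2 * r * t + 2 * r ^ 2) + a * ((t - r) * (27 / 4 * (t + r) - 2) - 2 * t ^ 2) + a ^ 2 := by
    ring
  rw [e]
  have h1 : 1 / 1000 ≤ t ^ 3 - 2 * r * t + 2 * r ^ 2 := by
    have h2 : 0 ≤ (t - 447 / 1000) ^ 2 * (t + 894 / 1000) := by positivity
    have h3 : 0 ≤ (r - 29983 / 100000) * (2 * (r + 29983 / 100000) - 2 * t) :=
      mul_nonneg (by linarith) (by linarith)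
    nlinarith
  have h2 : 0 ≤ a * ((t - r) * (27 / 4 * (t + r) - 2) - 2 * t ^ 2) := mul_nonneg ha (by linarith)
  nlinarith [sq_nonneg a]

theorem st_lo_arith {a r t : ℝ} (ha : 0 ≤ a) (ha' : a ≤ 64 / 729) (hr : 29983 / 100000 ≤ r) (hrt : r ≤ t) (ht : t ≤ 1 / 2) :
    1 / 100000000 ≤ (t ^ 2 - a) ^ 2 + 27 / 4 * a * (t ^ 2 - r ^ 2) + 2 * t * (r ^ 2 - a) - 2 * r * (t ^ 2 - a) := by
  rcases le_total t (44 / 100) with h1 | h1
  · -- small `t`
    apply case_disc (κ := 1 / 2500) ha' hr hrt ht le_rfl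
    have h2 := disc_mono (ρ := 29983 / 100000) le_rfl hr hrt (by linarith)
    have h3 : 8 * (t + 29983 / 100000) * t * (27 / 8 * t - 1) ≤ 8 * (t + r) * t * (27 / 8 * t - 1) := by
      have : 0 ≤ t * (27 / 8 * t - 1) := mul_nonneg (by linarith) (by linarith)
      nlinarith [mul_nonneg (show 0 ≤ r - 29983 / 100000 by linarith) this]
    have h4 : (t - 29983 / 100000) * (27 / 4 * (t + 29983 / 100000) - 2) ^ 2 + 1 / 2500 ≤
        8 * (t + 29983 / 100000) * t * (27 / 8 * t - 1) := by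
      have ht0 : 29983 / 100000 ≤ t := by linarith
      nlinarith [mul_nonneg (show 0 ≤ t - 29983 / 100000 by linarith) (show 0 ≤ 44 / 100 - t by linarith),
        mul_nonneg (mul_nonneg (show 0 ≤ t - 29983 / 100000 by linarith) (show 0 ≤ 44 / 100 - t by linarith))
          (show 0 ≤ t - 29983 / 100000 by linarith)]
    linarith
  rcases le_total r (31 / 100) with h2 | h2
  · apply case_vertex ha hr (by linarith) h1 ht
    have h3 : (t - 31 / 100) * (27 / 4 * (t + 31 / 100) - 2) ≤ (t - r) * (27 / 4 * (t + r) - 2) := by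
      nlinarith [mul_nonneg (show 0 ≤ 31 / 100 - r by linarith) (show 0 ≤ 2 - 27 / 4 * (r + 31 / 100) + 3 by linarith)]
    nlinarith
  rcases le_total r (33 / 100) with h3 | h3
  · rcases le_total t (46 / 100) with h4 | h4
    · apply case_disc (κ := 1 / 2500) ha' hr hrt ht le_rfl
      have h5 := disc_mono (ρ := 31 / 100) (by norm_num) h2 hrt h4
      have h6 : 8 * (t + 31 / 100) * t * (27 / 8 * t - 1) ≤ 8 * (t + r) * t * (27 / 8 * t - 1) := by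
        have : 0 ≤ t * (27 / 8 * t - 1) := mul_nonneg (by linarith) (by linarith)
        nlinarith [mul_nonneg (show 0 ≤ r - 31 / 100 by linarith) this]
      have h7 : (t - 31 / 100) * (27 / 4 * (t + 31 / 100) - 2) ^ 2 + 1 / 2500 ≤
          8 * (t + 31 / 100) * t * (27 / 8 * t - 1) := by
        nlinarith [mul_nonneg (show 0 ≤ t - 44 / 100 by linarith) (show 0 ≤ 46 / 100 - t by linarith),
          mul_nonneg (mul_nonneg (show 0 ≤ t - 44 / 100 by linarith) (show 0 ≤ 46 / 100 - t by linarith))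
            (show 0 ≤ t - 44 / 100 by linarith)]
      linarith
    · apply case_vertex ha hr h3 h1 ht
      have h5 : (t - 33 / 100) * (27 / 4 * (t + 33 / 100) - 2) ≤ (t - r) * (27 / 4 * (t + r) - 2) := by
        nlinarith [mul_nonneg (show 0 ≤ 33 / 100 - r by linarith) (show 0 ≤ 2 - 27 / 4 * (r + 33 / 100) + 3 by linarith)]
      nlinarith
  · have h4 := Pool.Agent.H14.Z1.poly_A2 (a := a) (b := t) (r := r) (g := 27 / 4 * a) ha' h3 hrt ht le_rfl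
    have h5 : 2 / 100 ≤ t ^ 2 - a := by nlinarith
    nlinarith

theorem st_lo {m : ℕ} (hm : 1 ≤ m) (x : Fin m → ℝ) {a Y : ℝ} (ha : 0 ≤ a) (ha' : a ≤ 64 / 729) (hY4 : Y ≤ 1 / 4)
    (hx : ∀ i, a ≤ x i ∧ x i ≤ Y) (h1 : 899 / 10000 ≤ (∑ i, x i) / m) (h2 : (∑ i, x i) / m ≤ 2491 / 10000) :
    2 * √((∑ i, x i) / m) + 1 / 100000000 ≤ (∑ i, G (x i)) / m + (Y - a) := by
  obtain ⟨h3, h4⟩ := mean_mem hm x hx
  have hGY : G Y = 2 * √Y := G_sqrt (by linarith) hY4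
  have hc := G_chord_avg hm x ha (by linarith) (G_ge_lin ha ha') (le_of_eq hGY.symm) hx
  set w := (∑ i, x i) / m
  have hw : √w ^ 2 = w := Real.sq_sqrt (by linarith)
  have hsY : √Y ^ 2 = Y := Real.sq_sqrt (by linarith)
  have hr : 29983 / 100000 ≤ √w := by
    apply Real.le_sqrt_of_sq_le; norm_num; linarith
  have ht : √Y ≤ 1 / 2 := by
    rw [show (1 : ℝ) / 2 = √(1 / 4) by rw [show (1 : ℝ) / 4 = (1 / 2) ^ 2 by norm_num, Real.sqrt_sq (by norm_num)]]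
    exact Real.sqrt_le_sqrt hY4
  have h5 := st_lo_arith (a := a) (r := √w) (t := √Y) ha ha' hr (Real.sqrt_le_sqrt h4) ht
  rw [hw, hsY] at h5
  have hd : 0 < Y - a := by linarith
  have h6 : (Y - a) * (2 * √w + 1 / 100000000) ≤ (Y - a) * ((∑ i, G (x i)) / m + (Y - a)) := by
    nlinarith
  exact le_of_mul_le_mul_left h6 hd

end Pool.Agent.H86.Z1
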