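import Pool.Agent.H86.Z1.Chord

/-!
# Project Z1: stability, tuples with `1/4 ≤ hi ≤ 3/4`

Notation: `w = r²` the mean, `0.2998 ≤ r ≤ 0.4991`, `Y = hi`, `a = lo`, `J = avg G + (Y - a)`, `η = 10^(-9)`.
`G_chord_avg` with `B = 1` (`G_ge_one`) and `A = G a =: g` gives `(Y-a)(J - 2r) ≥ (Y-a)² + (Y-w) g + (w-a) - 2r(Y-a) = (Y-a-r)² + (Y-w) g - a =: D`.

* `st_mid_arith1` (`a ≥ 64/729`, `g = 2b`, `b = √a`), `st_mid_arith2` (`a ≤ 64/729`, `g = (27/4) a`),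
* `st_mid_count`: `ex t := G t - t/Y ≥ 0` on `[0,Y]`, `ex t ≥ 0.0065` on `[0.01, Y - 0.01]`.
-/

set_option autoImplicit false

namespace Pool.Agent.H86.Z1

open Finset Pool.Agent.H14RC Pool.Agent.H86.FM

theorem st_mid_arith1 {b r Y : ℝ} (hb : 8 / 27 ≤ b) (hbr : b ≤ r) (hr : r ^ 2 ≤ 2491 / 10000) (hY : 1 / 4 ≤ Y) :
    1 / 10000000 ≤ (Y - b ^ 2 - r) ^ 2 + (Y - r ^ 2) * (2 * b) - b ^ 2 := by
  obtain ⟨u, hu⟩ : ∃ u, u = Y - b ^ 2 := ⟨_, rfl⟩
  obtain ⟨h, hh⟩ : ∃ h, h = r - b := ⟨_, rfl⟩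
  have hr1 : r ≤ 4991 / 10000 := by nlinarith
  have hh0 : 0 ≤ h := by linarith
  have hu0 : 9 / 10000 ≤ u := by rw [hu]; nlinarith
  have e : (Y - b ^ 2 - r) ^ 2 + (Y - r ^ 2) * (2 * b) - b ^ 2 =
      (u - h) ^ 2 + h * (2 * b * (1 - b - r)) := by
    rw [hu, hh]; ring
  rw [e]
  have h1 : 1 / 1000 ≤ 2 * b * (1 - b - r) := by nlinarith
  have h2 : 0 ≤ h * (2 * b * (1 - b - r)) := mul_nonneg hh0 (by linarith)
  rcases le_total h (45 / 100000) with h3 | h3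
  · have h4 : 45 / 100000 ≤ u - h := by linarith
    nlinarith
  · have h4 : 45 / 100000 * (1 / 1000) ≤ h * (2 * b * (1 - b - r)) :=
      mul_le_mul h3 h1 (by norm_num) hh0
    nlinarith [sq_nonneg (u - h)]

theorem st_mid_arith2 {a r Y : ℝ} (ha : 0 ≤ a) (ha' : a ≤ 64 / 729) (hr0 : 0 ≤ r) (hr : 899 / 10000 ≤ r ^ 2)
    (hr' : r ^ 2 ≤ 2491 / 10000)
    (hD : (Y - a - r) ^ 2 + (Y - r ^ 2) * (27 / 4 * a) - a < 1 / 1000000000) :
    a ≤ 12 / 100000000 ∧ |Y - r| ≤ 4 / 10000 := by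
  have hr1 : r ≤ 4991 / 10000 := by nlinarith
  have hr2 : 29983 / 100000 ≤ r := by nlinarith
  have e : (Y - a - r) ^ 2 + (Y - r ^ 2) * (27 / 4 * a) - a =
      (Y - r + 19 / 8 * a) ^ 2 + a * (27 / 4 * (r - r ^ 2) - 1 - 297 / 64 * a) := by ring
  rw [e] at hD
  have h1 : 2099 / 10000 ≤ r - r ^ 2 := by nlinarith
  have h2 : 9 / 1000 ≤ 27 / 4 * (r - r ^ 2) - 1 - 297 / 64 * a := by linarith
  have h3 : a * (9 / 1000) ≤ a * (27 / 4 * (r - r ^ 2) - 1 - 297 / 64 * a) :=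
    mul_le_mul_of_nonneg_left h2 ha
  have h4 : 0 ≤ (Y - r + 19 / 8 * a) ^ 2 := sq_nonneg _
  have ha1 : a ≤ 12 / 100000000 := by linarith
  refine ⟨ha1, ?_⟩
  have h5 : (Y - r + 19 / 8 * a) ^ 2 ≤ (1 / 10000) ^ 2 := by
    have : 0 ≤ a * (9 / 1000) := by positivity
    norm_num; linarith
  have h6 := abs_le_of_sq_le_sq' h5 (by norm_num)
  rw [abs_le]
  constructor <;> linarith [h6.1, h6.2]

private lemma ex_lower {t Y : ℝ} (hY0 : 2994 / 10000 ≤ Y) (hY1 : Y ≤ 4996 / 10000) (ht0 : 0 ≤ t) (htY : t ≤ Y) :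
    0 ≤ Y * G t - t ∧ (1 / 100 ≤ t → t ≤ Y - 1 / 100 → 19 / 10000 ≤ Y * G t - t) := by
  rcases le_total t (1 / 4) with h | h
  · have h1 := G_ge_four ht0 h
    have h2 : Y * (4 * t) ≤ Y * G t := mul_le_mul_of_nonneg_left h1 (by linarith)
    have h3 : 19 / 100 * t ≤ (4 * Y - 1) * t := mul_le_mul_of_nonneg_right (by linarith) ht0
    constructor
    · nlinarith
    · intro h4 _
      nlinarith
  · have h1 := G_ge_one h (by linarith)
    have h2 : Y * 1 ≤ Y * G t := mul_le_mul_of_nonneg_left h1 (by linarith)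
    constructor
    · linarith
    · intro _ h4
      linarith

theorem st_mid_count {m : ℕ} (hm : 1000000000 ≤ m) (x : Fin m → ℝ) {a Y r : ℝ} (ha : 0 ≤ a)
    (hx : ∀ i, a ≤ x i ∧ x i ≤ Y) (hr0 : 0 ≤ r) (hw : (∑ i, x i) / m = r ^ 2) (hr : 899 / 10000 ≤ r ^ 2)
    (hr' : r ^ 2 ≤ 2491 / 10000) (ha' : a ≤ 12 / 100000000) (hY : |Y - r| ≤ 4 / 10000)
    (hJ : (∑ i, G (x i)) / m + (Y - a) < 2 * r + 1 / 1000000000) :
    (m : ℝ) / 5 + 15 ≤ ((univ.filter (fun i => x i ≤ 1 / 100)).card : ℝ) := by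
  classical
  have hmR : (1000000000 : ℝ) ≤ m := by exact_mod_cast hm
  have hm0 : (0 : ℝ) < m := by linarith
  have hr1 : r ≤ 4991 / 10000 := by nlinarith
  have hr2 : 2998 / 10000 ≤ r := by nlinarith
  rw [abs_le] at hY
  have hY0 : 2994 / 10000 ≤ Y := by linarith
  have hY1 : Y ≤ 4996 / 10000 := by linarith
  have hsum : ∑ i, x i = m * r ^ 2 := by rw [← hw]; field_simp
  set A := univ.filter fun i => x i ≤ 1 / 100 with hA
  set B := univ.filter fun i => ¬ (x i ≤ 1 / 100) with hB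
  set M := B.filter fun i => x i ≤ Y - 1 / 100 with hM
  set T := B.filter fun i => ¬ (x i ≤ Y - 1 / 100) with hT
  have dec1 : ∀ f : Fin m → ℝ, ∑ i, f i = ∑ i ∈ A, f i + ∑ i ∈ B, f i := fun f =>
    (Finset.sum_filter_add_sum_filter_not univ _ f).symm
  have dec2 : ∀ f : Fin m → ℝ, ∑ i ∈ B, f i = ∑ i ∈ M, f i + ∑ i ∈ T, f i := fun f =>
    (Finset.sum_filter_add_sum_filter_not B _ f).symm
  have hcard : (m : ℝ) = A.card + M.card + T.card := by
    have h1 := dec1 (fun _ => (1 : ℝ))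
    have h2 := dec2 (fun _ => (1 : ℝ))
    rw [h2] at h1
    have h3 : (m : ℝ) = A.card + (M.card + T.card) := by simpa using h1
    linarith
  have x0 : ∀ i, 0 ≤ x i := fun i => ha.trans (hx i).1
  -- the number of large points
  have hTn : (T.card : ℝ) * (Y - 1 / 100) ≤ m * r ^ 2 := by
    have h1 := card_nsmul_le_sum T x (Y - 1 / 100) fun i hi => (not_le.1 (mem_filter.1 hi).2).le
    rw [nsmul_eq_mul] at h1
    have h2 := dec1 x
    have h3 := dec2 x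
    have h4 : 0 ≤ ∑ i ∈ A, x i := sum_nonneg fun i _ => x0 i
    have h5 : 0 ≤ ∑ i ∈ M, x i := sum_nonneg fun i _ => x0 i
    linarith
  have hTc : (T.card : ℝ) ≤ 52 / 100 * m := by
    have h1 : r ^ 2 ≤ 52 / 100 * (Y - 1 / 100) := by nlinarith
    have h2 : (m : ℝ) * r ^ 2 ≤ m * (52 / 100 * (Y - 1 / 100)) := mul_le_mul_of_nonneg_left h1 hm0.le
    have h3 : (T.card : ℝ) * (Y - 1 / 100) ≤ (52 / 100 * m) * (Y - 1 / 100) := by
      linarith
    exact le_of_mul_le_mul_right h3 (by linarith)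
  -- the number of middle points
  have hex : ∑ i, (Y * G (x i) - x i) ≤ m * (13 / 100000000) := by
    rw [sum_sub_distrib, ← mul_sum, hsum]
    have h1 : ∑ i, G (x i) < m * (2 * r + 1 / 1000000000 - (Y - a)) := by
      have h2 : (∑ i, G (x i)) / m < 2 * r + 1 / 1000000000 - (Y - a) := by linarith
      rwa [div_lt_iff₀' hm0] at h2
    have h3 : Y * ∑ i, G (x i) ≤ Y * (m * (2 * r + 1 / 1000000000 - (Y - a))) :=
      mul_le_mul_of_nonneg_left h1.le (by linarith)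
    have h4 : Y * (2 * r + 1 / 1000000000 - (Y - a)) - r ^ 2 ≤ 13 / 100000000 := by
      nlinarith [sq_nonneg (Y - r)]
    have h5 : (m : ℝ) * (Y * (2 * r + 1 / 1000000000 - (Y - a)) - r ^ 2) ≤ m * (13 / 100000000) :=
      mul_le_mul_of_nonneg_left h4 hm0.le
    nlinarith
  have hMn : (M.card : ℝ) * (19 / 10000) ≤ m * (13 / 100000000) := by
    have h1 := dec1 (fun i => Y * G (x i) - x i)
    have h2 := dec2 (fun i => Y * G (x i) - x i)
    have h3 : 0 ≤ ∑ i ∈ A, (Y * G (x i) - x i) := sum_nonneg fun i _ => (ex_lower hY0 hY1 (x0 i) (hx i).2).1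
    have h4 : 0 ≤ ∑ i ∈ T, (Y * G (x i) - x i) := sum_nonneg fun i _ => (ex_lower hY0 hY1 (x0 i) (hx i).2).1
    have h5 := card_nsmul_le_sum M (fun i => Y * G (x i) - x i) (19 / 10000) fun i hi => by
      have h6 := mem_filter.1 hi
      have h7 := (mem_filter.1 h6.1).2
      exact (ex_lower hY0 hY1 (x0 i) (hx i).2).2 (not_le.1 h7).le h6.2
    rw [nsmul_eq_mul] at h5
    linarith
  linarith

theorem st_mid {m : ℕ} (hm : 1000000000 ≤ m) (x : Fin m → ℝ) {a Y : ℝ} (ha : 0 ≤ a) (hY4 : 1 / 4 ≤ Y) (hY : Y ≤ 3 / 4)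
    (hx : ∀ i, a ≤ x i ∧ x i ≤ Y) (h1 : 899 / 10000 ≤ (∑ i, x i) / m) (h2 : (∑ i, x i) / m ≤ 2491 / 10000) :
    2 * √((∑ i, x i) / m) + 1 / 1000000000 ≤ (∑ i, G (x i)) / m + (Y - a) ∨
      (29 / 100 ≤ Y ∧ Y ≤ 4999 / 10000 ∧
        (m : ℝ) / 5 + 15 ≤ ((univ.filter (fun i => x i ≤ 1 / 100)).card : ℝ)) := by
  have hm1 : 1 ≤ m := by omega
  obtain ⟨h3, h4⟩ := mean_mem hm1 x hx
  obtain ⟨w, hw⟩ : ∃ w, w = (∑ i, x i) / m := ⟨_, rfl⟩
  rw [← hw] at h1 h2 h3 h4 ⊢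
  have hr2 : √w ^ 2 = w := Real.sq_sqrt (by linarith)
  have hr0 := Real.sqrt_nonneg w
  have hr499 : √w ≤ 4991 / 10000 := by nlinarith
  have hd : 0 < Y - a := by linarith
  rcases le_total (64 / 729) a with h5 | h5
  · left
    have hc := G_chord_avg hm1 x ha (by linarith) (le_refl (G a)) (G_ge_one hY4 hY) hx
    rw [← hw, G_sqrt h5 (by linarith)] at hc
    have hs : √a ^ 2 = a := Real.sq_sqrt ha
    have h827 : 8 / 27 ≤ √a := by
      apply Real.le_sqrt_of_sq_le; norm_num; linarith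
    have h6 := st_mid_arith1 (b := √a) (r := √w) (Y := Y) h827 (Real.sqrt_le_sqrt h3) (by rw [hr2]; exact h2) hY4
    rw [hs, hr2] at h6
    have h7 : (Y - a) * (2 * √w + 1 / 1000000000) ≤ (Y - a) * ((∑ i, G (x i)) / m + (Y - a)) := by
      nlinarith
    exact le_of_mul_le_mul_left h7 hd
  · by_cases hJ : 2 * √w + 1 / 1000000000 ≤ (∑ i, G (x i)) / m + (Y - a)
    · exact Or.inl hJ
    · right
      push Not at hJ
      have hc := G_chord_avg hm1 x ha (by linarith) (G_ge_lin ha h5) (G_ge_one hY4 hY) hx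
      rw [← hw] at hc
      have h7 : (Y - a) * ((∑ i, G (x i)) / m + (Y - a)) ≤ (Y - a) * (2 * √w + 1 / 1000000000) :=
        mul_le_mul_of_nonneg_left hJ.le hd.le
      obtain ⟨h8, h9⟩ := st_mid_arith2 (a := a) (r := √w) (Y := Y) ha h5 hr0 (by rw [hr2]; exact h1)
        (by rw [hr2]; exact h2) (by
          rw [hr2]
          nlinarith)
      have h10 := abs_le.1 h9
      have hr299 : 2998 / 10000 ≤ √w := by
        apply Real.le_sqrt_of_sq_le; norm_num; linarith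
      refine ⟨by linarith, by linarith, ?_⟩
      exact st_mid_count hm x ha hx hr0 (by rw [hr2]; exact hw.symm) (by rw [hr2]; exact h1)
        (by rw [hr2]; exact h2) h8 h9 hJ

end Pool.Agent.H86.Z1
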