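import Pool.Agent.H86.Z1.Om

/-!
# Project Z1: the exchange inequality S(q/m)

`sv : 1 + F (α + β - q/m) ≤ F α + F β` for `0 ≤ α, β ≤ q/m ≤ α + β`, `0.285 m ≤ q ≤ m/2`.

Proof sketches. Let `κ = 1/4 + 5/m`, `v = q/m`.
* `sv_mid`: `κ ≤ α` (then `α ≤ 1/2 ≤ 3/4 - 5/m`): `F α = 1 + Ft (m α)/m` (`mid`), and `om` with `w = β`, `D = q - m α ∈ [0, m β]`: `β - D/m = α + β - v`,
  `Ft (q - m α) = Ft (m α)` (`Ft_add_int`, `Ft_neg`).
* `sv_low`: `α, β < κ`. By concavity (`G_conc`; `κ ≤ 3/4` so `G κ ≥ 1`), with `σ = α + β`: `G α + G β ≥ G κ + G (σ - κ)` (`α, β ∈ [σ - κ, κ]`; note `σ - κ ≥ v - κ > 0`),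
  and with `p = σ - v ∈ [0, 2κ - v]`, `2κ - v ≤ 0.2152`, `h = v - κ ≥ 0.0349`, `s = h/(κ - p) ≥ h/κ ≥ 0.13`: `σ - κ = (1-s) p + s κ`, so
  `G (σ - κ) - G p ≥ s (1 - G p) ≥ 0.13 * (1 - 2 √0.2152) ≥ 0.13 * 0.07 ≥ 6/m`. Then `F_le_G` for `p` and `G_le_F` for `α`, `β`.
* `sv`: the cases (symmetric in `α`, `β`).
-/

set_option autoImplicit false

namespace Pool.Agent.H86.Z1

open Finset Pool.Agent.H14RC Pool.Agent.H86.FM

theorem sv_mid {m : ℕ} (hm : 100000000 ≤ m) {q : ℕ} (hq2 : 2 * q ≤ m) {α β : ℝ}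
    (hα : 1 / 4 + 5 / (m : ℝ) ≤ α) (hα' : α ≤ (q : ℝ) / m) (hβ : 0 ≤ β) (hβ' : β ≤ (q : ℝ) / m)
    (hs : (q : ℝ) / m ≤ α + β) : 1 + F m (α + β - (q : ℝ) / m) ≤ F m α + F m β := by
  have hmR : (100000000 : ℝ) ≤ m := by exact_mod_cast hm
  have hm0 : (0 : ℝ) < m := by linarith
  have h5 : 5 / (m : ℝ) ≤ 1 / 4 := by
    rw [div_le_iff₀ hm0]
    linarith
  have hq2R : 2 * (q : ℝ) ≤ m := by exact_mod_cast hq2
  have hv : (q : ℝ) / m ≤ 1 / 2 := by
    rw [div_le_iff₀ hm0]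
    linarith
  have h1 := mid (m := m) (by omega) hα (by linarith)
  have hD0 : 0 ≤ (q : ℝ) - m * α := by
    rw [le_div_iff₀ hm0] at hα'
    linarith
  have hD : (q : ℝ) - m * α ≤ m * β := by
    rw [div_le_iff₀ hm0] at hs
    linarith
  have h2 := om hm hβ (by linarith) hD0 hD
  have e1 : β - ((q : ℝ) - m * α) / m = α + β - (q : ℝ) / m := by
    field_simp
    ring
  have e2 : Ft m ((q : ℝ) - m * α) = Ft m (m * α) := by
    have h3 := Ft_add_int m (-(m * α)) (q : ℤ)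
    rw [Ft_neg (by omega)] at h3
    rw [← h3]
    congr 1
    push_cast
    ring
  rw [e1, e2] at h2
  linarith

theorem sv_low {m : ℕ} (hm : 100000000 ≤ m) {q : ℕ} (hq : 285 * m ≤ 1000 * q) (hq2 : 2 * q ≤ m) {α β : ℝ}
    (hα : 0 ≤ α) (hα' : α ≤ 1 / 4 + 5 / (m : ℝ)) (hβ : 0 ≤ β) (hβ' : β ≤ 1 / 4 + 5 / (m : ℝ))
    (hs : (q : ℝ) / m ≤ α + β) : 1 + F m (α + β - (q : ℝ) / m) ≤ F m α + F m β := by
  have hmR : (100000000 : ℝ) ≤ m := by exact_mod_cast hm
  have hm0 : (0 : ℝ) < m := by linarith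
  have h5 : 5 / (m : ℝ) ≤ 1 / 20000000 := by
    rw [div_le_iff₀ hm0]
    linarith
  have h50 : 0 ≤ 5 / (m : ℝ) := by positivity
  have h6 : 6 / (m : ℝ) ≤ 91 / 10000 := by
    rw [div_le_iff₀ hm0]
    linarith
  have hqR : 285 * (m : ℝ) ≤ 1000 * q := by exact_mod_cast hq
  have hq2R : 2 * (q : ℝ) ≤ m := by exact_mod_cast hq2
  obtain ⟨v, hv⟩ : ∃ v, v = (q : ℝ) / m := ⟨_, rfl⟩
  have hv1 : 285 / 1000 ≤ v := by
    rw [hv, le_div_iff₀ hm0]
    linarith
  have hv2 : v ≤ 1 / 2 := by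
    rw [hv, div_le_iff₀ hm0]
    linarith
  obtain ⟨κ, hκ⟩ : ∃ κ, κ = 1 / 4 + 5 / (m : ℝ) := ⟨_, rfl⟩
  rw [← hκ] at hα' hβ'
  rw [← hv] at hs ⊢
  have hκ1 : 1 / 4 ≤ κ := by rw [hκ]; linarith
  have hκ2 : κ ≤ 1 / 4 + 1 / 20000000 := by rw [hκ]; linarith
  have hGκ : 1 ≤ G κ := G_ge_one hκ1 (by linarith)
  -- the majorization
  have hmaj : G κ + G (α + β - κ) ≤ G α + G β := by
    rcases eq_or_lt_of_le (show α + β ≤ 2 * κ by linarith) with h | h
    · have ha : α = κ := by linarith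
      have hb : β = κ := by linarith
      rw [ha, hb]
      have : κ + κ - κ = κ := by ring
      rw [this]
    · have hd : 0 < 2 * κ - (α + β) := by linarith
      obtain ⟨l, hl⟩ : ∃ l, l = (κ - β) / (2 * κ - (α + β)) := ⟨_, rfl⟩
      have hl0 : 0 ≤ l := by
        rw [hl]
        exact div_nonneg (by linarith) hd.le
      have hl1 : l ≤ 1 := by
        rw [hl, div_le_one hd]
        linarith
      have hle : l * (2 * κ - (α + β)) = κ - β := by
        rw [hl, div_mul_cancel₀ _ hd.ne']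
      have c1 := G_conc (x := κ) (y := α + β - κ) (s := l) (t := 1 - l) (by linarith) (by linarith)
        (by linarith) (by linarith) hl0 (by linarith) (by ring)
      have c2 := G_conc (x := κ) (y := α + β - κ) (s := 1 - l) (t := l) (by linarith) (by linarith)
        (by linarith) (by linarith) (by linarith) hl0 (by ring)
      have e1 : l * κ + (1 - l) * (α + β - κ) = α := by linear_combination hle
      have e2 : (1 - l) * κ + l * (α + β - κ) = β := by linear_combination (-1 : ℝ) * hle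
      rw [e1] at c1
      rw [e2] at c2
      linarith
  -- the second step
  obtain ⟨p, hp⟩ : ∃ p, p = α + β - v := ⟨_, rfl⟩
  rw [← hp]
  have hp0 : 0 ≤ p := by linarith
  have hp1 : p ≤ 2152 / 10000 := by linarith
  have hd : 0 < κ - p := by linarith
  obtain ⟨t, ht⟩ : ∃ t, t = (v - κ) / (κ - p) := ⟨_, rfl⟩
  have ht0 : 13 / 100 ≤ t := by
    rw [ht, le_div_iff₀ hd]
    linarith
  have ht1 : t ≤ 1 := by
    rw [ht, div_le_one hd]
    linarith
  have hte : t * (κ - p) = v - κ := by rw [ht, div_mul_cancel₀ _ hd.ne']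
  have c3 := G_conc (x := p) (y := κ) (s := 1 - t) (t := t) hp0 (by linarith)
    (by linarith) (by linarith) (by linarith) (by linarith) (by ring)
  have e3 : (1 - t) * p + t * κ = α + β - κ := by
    rw [hp] at hte ⊢
    linear_combination hte
  rw [e3] at c3
  have hGp : G p ≤ 93 / 100 := by
    have h1 := G_le_sqrt hp0 (by linarith)
    have h2 : √p ≤ 465 / 1000 := by
      rw [Real.sqrt_le_left (by norm_num)]
      linarith
    linarith
  have h7 : G p + 91 / 10000 ≤ G (α + β - κ) := by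
    have h8 : t * 1 ≤ t * G κ := mul_le_mul_of_nonneg_left hGκ (by linarith)
    have h9 : 13 / 100 * (7 / 100) ≤ t * (1 - G p) :=
      mul_le_mul ht0 (by linarith) (by norm_num) (by linarith)
    linarith
  have h10 := F_le_G (m := m) (by omega) hp0 (by linarith)
  have h11 := G_le_F (m := m) (by omega) hα (by linarith)
  have h12 := G_le_F (m := m) (by omega) hβ (by linarith)
  linarith

theorem sv {m : ℕ} (hm : 100000000 ≤ m) {q : ℕ} (hq : 285 * m ≤ 1000 * q) (hq2 : 2 * q ≤ m) {α β : ℝ}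
    (hα : 0 ≤ α) (hα' : α ≤ (q : ℝ) / m) (hβ : 0 ≤ β) (hβ' : β ≤ (q : ℝ) / m)
    (hs : (q : ℝ) / m ≤ α + β) : 1 + F m (α + β - (q : ℝ) / m) ≤ F m α + F m β := by
  rcases le_total (1 / 4 + 5 / (m : ℝ)) α with h | h
  · exact sv_mid hm hq2 h hα' hβ hβ' hs
  rcases le_total (1 / 4 + 5 / (m : ℝ)) β with h' | h'
  · have := sv_mid hm hq2 h' hβ' hα hα' (by linarith)
    rw [add_comm β α] at this
    linarith
  · exact sv_low hm hq hq2 hα h hβ h' hs

end Pool.Agent.H86.Z1
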