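import Pool.Agent.H86.Z1.Tq

/-!
# Project Z1: `Th X = min_q T_q X`

Proof sketches.
* `Th_le`: `Finset.inf'_le`. `le_Th`: `Finset.le_inf'` (`Qs m` is not empty).
* `Th_core`: `(q+1)q ≤ m X < (q+1)(q+2)`: `T_(q+1) X ≤ T_p X` for all `p` in `Qs m`: for `p ≥ q+1` by `T_lt` (induction on `p - (q+1)`), for `p ≤ q+1` by `T_ge`
  (downward induction). All the intermediate indices are in `Qs m` (`Qs_spec`).
* `Th_eq`: if `m X < (q+1)q`: `T_left` for `q` gives `T_q X = T_(q+1) X`, and `Th_core` for the index `q` (`q = p + 1`; `m X ≥ q² ≥ q(q-1)`);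
  if `m X ≥ (q+1)(q+2)`: `T_right` for the index `q + 1` gives `T_(q+1) X = T_(q+2) X`, and `Th_core` for the index `q + 2`; otherwise `Th_core` for `q + 1`.
* `Th_coarse`: `X = m x`, `r = √x`. Let `q ≥ 1` be the natural number with `q(q-1) ≤ m X < q(q+1)` (`Nat.find`, or `q = ⌊(1+√(1+4mX))/2⌋`), so `√(mX) = m r ∈ (q-1, q+1)`, `q` in `Qs m`.
  `Th X ≤ T_q X = q + n + F a`, `X = n q/m + a`, `0 ≤ a < q/m`. `F a ≤ 2√a + 6/m ≤ q/m + a m/q + 6/m` (`F_le_G`, `G_le_sqrt`, AM-GM), so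
  `T_q X ≤ q + m X/q + q/m + 6/m` and `q + mX/q - 2√(mX) = (q - √(mX))²/q ≤ 1/q ≤ 4/m`; finally `q/m ≤ r + 1/m`.
* `F_le_T`: `x ≤ 1/4`, `n = ⌊m x m/q⌋` (`≤ m²x/q ≤ m/(4·0.285) ≤ m - 2`), `a = m x - n q/m ∈ [0, q/m)`: `F_tuple` for the tuple with `n` entries `q/m`, one entry `a`, the others `0`,
  bounds `0`, `q/m`: `F x ≤ (n F (q/m) + F a)/m + q/m` and `F (q/m) = 1`.
-/

set_option autoImplicit false

namespace Pool.Agent.H86.Z1

open Finset Pool.Agent.H14RC Pool.Agent.H86.FM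

/-- The range of the faces `q`. -/
def Qs (m : ℕ) : Finset ℕ := Finset.Icc (285 * m / 1000 + 1) (m / 2)

theorem Qs_spec {m q : ℕ} (h : q ∈ Qs m) : 285 * m ≤ 1000 * q ∧ 2 * q ≤ m := by
  unfold Qs at h
  rw [Finset.mem_Icc] at h
  omega

theorem Qs_nonempty {m : ℕ} (hm : 100000000 ≤ m) : (Qs m).Nonempty := ⟨m / 2, by
  unfold Qs
  rw [Finset.mem_Icc]
  omega⟩

noncomputable def Th (m : ℕ) (X : ℝ) : ℝ :=
  if h : (Qs m).Nonempty then (Qs m).inf' h (fun q => T m q X) else 0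

theorem Th_le {m q : ℕ} (hq : q ∈ Qs m) (X : ℝ) : Th m X ≤ T m q X := by
  unfold Th
  rw [dif_pos ⟨q, hq⟩]
  exact Finset.inf'_le (fun q => T m q X) hq

theorem le_Th {m : ℕ} (hm : 100000000 ≤ m) {X c : ℝ} (h : ∀ q ∈ Qs m, c ≤ T m q X) : c ≤ Th m X := by
  unfold Th
  rw [dif_pos (Qs_nonempty hm)]
  exact Finset.le_inf' _ _ h

private theorem Qs_conv {m p q r : ℕ} (hp : p ∈ Qs m) (hr : r ∈ Qs m) (h1 : p ≤ q) (h2 : q ≤ r) :
    q ∈ Qs m := by
  unfold Qs at *
  rw [Finset.mem_Icc] at *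
  omega

private theorem mpos {m : ℕ} (hm : 100000000 ≤ m) : (0 : ℝ) < m := by
  have : 0 < m := by omega
  exact_mod_cast this

private theorem qpos {m : ℕ} (hm : 100000000 ≤ m) {q : ℕ} (hq : 285 * m ≤ 1000 * q) : (0 : ℝ) < q := by
  have : 0 < q := by omega
  exact_mod_cast this

private theorem decomp {m : ℕ} (hm : 100000000 ≤ m) {q : ℕ} (hq : 285 * m ≤ 1000 * q) (X : ℝ) :
    ∃ (n : ℤ) (a : ℝ), X = a + n * ((q : ℝ) / m) ∧ 0 ≤ a ∧ a < (q : ℝ) / m ∧ Fv m q X = n + F m a := by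
  have h1 := mpos hm
  have h2 := qpos hm hq
  refine ⟨⌊X * m / q⌋, X - (⌊X * m / q⌋ : ℝ) * ((q : ℝ) / m), by ring, ?_, ?_, rfl⟩
  · have h3 := Int.floor_le (X * m / q)
    rw [le_div_iff₀ h2] at h3
    have h4 : (⌊X * m / q⌋ : ℝ) * ((q : ℝ) / m) ≤ X := by
      rw [← mul_div_assoc, div_le_iff₀ h1]
      exact h3
    linarith
  · have h3 := Int.lt_floor_add_one (X * m / q)
    rw [div_lt_iff₀ h2] at h3
    have h4 : X < ((⌊X * m / q⌋ : ℝ) + 1) * ((q : ℝ) / m) := by
      rw [← mul_div_assoc, lt_div_iff₀ h1]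
      exact h3
    linarith

theorem Th_core {m : ℕ} (hm : 100000000 ≤ m) {q : ℕ} (hq : q + 1 ∈ Qs m) {X : ℝ}
    (h0 : ((q : ℝ) + 1) * q ≤ m * X) (h1 : (m : ℝ) * X < (q + 1) * (q + 2)) : Th m X = T m (q + 1) X := by
  have hm0 := mpos hm
  have hX : 0 ≤ X := by
    by_contra hcon
    push Not at hcon
    have h2 : (0 : ℝ) ≤ ((q : ℝ) + 1) * q := by positivity
    nlinarith
  refine le_antisymm (Th_le hq X) (le_Th hm fun p hp => ?_)
  rcases le_total (q + 1) p with h | h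
  · obtain ⟨k, rfl⟩ := Nat.exists_eq_add_of_le h
    clear h
    induction k with
    | zero => exact le_refl _
    | succ k ih =>
      have hp' : q + 1 + k ∈ Qs m := Qs_conv hq hp (by omega) (by omega)
      refine (ih hp').trans ?_
      have h2 := Qs_spec hp
      have h3 := Qs_spec hp'
      refine T_lt hm h3.1 h2.2 hX ?_
      push_cast
      have hk : (0 : ℝ) ≤ k := Nat.cast_nonneg k
      have hq0 : (0 : ℝ) ≤ q := Nat.cast_nonneg q
      nlinarith
  · obtain ⟨k, hk⟩ := Nat.exists_eq_add_of_le h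
    have key : ∀ (k p : ℕ), p ∈ Qs m → q + 1 = p + k → T m (q + 1) X ≤ T m p X := by
      intro k
      induction k with
      | zero =>
        intro p _ hk
        have : p = q + 1 := by omega
        rw [this]
      | succ k ih =>
        intro p hp hk
        have hp' : p + 1 ∈ Qs m := Qs_conv hp hq (by omega) (by omega)
        refine (ih (p + 1) hp' (by omega)).trans ?_
        have h2 := Qs_spec hp
        have h3 := Qs_spec hp'
        refine T_ge hm h2.1 h3.2 ?_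
        have hpq : (p : ℝ) ≤ q := by
          have : p ≤ q := by omega
          exact_mod_cast this
        have hp0 : (0 : ℝ) ≤ p := Nat.cast_nonneg p
        nlinarith
    exact key k p hp hk

theorem Th_eq {m : ℕ} (hm : 100000000 ≤ m) {q : ℕ} (hq : q ∈ Qs m) (hq2 : q + 2 ∈ Qs m) {X : ℝ}
    (h0 : (q : ℝ) ^ 2 / m + (1 / 4 + 5 / (m : ℝ)) ≤ X) (h1 : (m : ℝ) * X < (q + 1) * (q + 3)) :
    Th m X = T m (q + 1) X := by
  have hm0 := mpos hm
  have hs := Qs_spec hq
  have hs2 := Qs_spec hq2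
  have hq1 : q + 1 ∈ Qs m := Qs_conv hq hq2 (by omega) (by omega)
  have hq0 := qpos hm hs.1
  rcases lt_or_ge ((m : ℝ) * X) (((q : ℝ) + 1) * q) with h | h
  · rw [← T_left hm hs.1 (by omega) h0 (by linarith)]
    obtain ⟨p, rfl⟩ : ∃ p, q = p + 1 := ⟨q - 1, by omega⟩
    refine Th_core hm hq ?_ ?_
    · have h2 : ((p + 1 : ℕ) : ℝ) ^ 2 / m ≤ X := by
        have : (0 : ℝ) < 5 / (m : ℝ) := by positivity
        linarith
      rw [div_le_iff₀ hm0] at h2
      push_cast at h2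
      have hp0 : (0 : ℝ) ≤ p := Nat.cast_nonneg p
      nlinarith
    · push_cast at h
      linarith
  · rcases lt_or_ge ((m : ℝ) * X) (((q : ℝ) + 1) * (q + 2)) with h' | h'
    · exact Th_core hm hq1 h h'
    · have hs1 := Qs_spec hq1
      have e := T_right (X := X) hm hs1.1 (by omega) (by push_cast; linarith) (by push_cast; linarith)
      rw [e]
      refine Th_core hm hq2 ?_ ?_
      · push_cast
        linarith
      · push_cast
        nlinarith

theorem Th_coarse {m : ℕ} (hm : 100000000 ≤ m) {x : ℝ} (h0 : 899 / 10000 ≤ x) (h1 : x ≤ 2491 / 10000) :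
    Th m (m * x) ≤ 2 * m * √x + √x + 11 / m := by
  have hm0 := mpos hm
  have hmR : (100000000 : ℝ) ≤ m := by exact_mod_cast hm
  have hx0 : 0 ≤ x := by linarith
  set r := √x with hr
  have hrr : r * r = x := Real.mul_self_sqrt hx0
  have hr0 : 0 ≤ r := Real.sqrt_nonneg x
  have hr1 : 2998 / 10000 ≤ r := by nlinarith
  have hr2 : r ≤ 4991 / 10000 := by nlinarith
  set q := ⌊(m : ℝ) * r⌋₊ with hqd
  have hq1 : (q : ℝ) ≤ m * r := Nat.floor_le (by positivity)
  have hq2 : (m : ℝ) * r < q + 1 := Nat.lt_floor_add_one _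
  have hlow : (285 : ℝ) / 1000 * m + 2 ≤ q := by nlinarith
  have hhigh : 2 * (q : ℝ) ≤ m := by nlinarith
  have hqQ : q ∈ Qs m := by
    unfold Qs
    rw [Finset.mem_Icc]
    constructor
    · have h2 : 285 * m + 1000 ≤ 1000 * q := by
        have : (285 : ℝ) * m + 1000 ≤ 1000 * q := by linarith
        exact_mod_cast this
      omega
    · have h2 : 2 * q ≤ m := by exact_mod_cast hhigh
      omega
  have hs := Qs_spec hqQ
  have hq0 := qpos hm hs.1
  refine (Th_le hqQ _).trans ?_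
  obtain ⟨n, a, hX, ha0, ha1, hF⟩ := decomp hm hs.1 ((m : ℝ) * x)
  have hv : (0 : ℝ) < (q : ℝ) / m := by positivity
  have hv1 : (q : ℝ) / m ≤ r := by
    rw [div_le_iff₀ hm0]
    linarith
  have ha1' : a ≤ 1 := by linarith
  have hFa := (F_le_G (m := m) (by omega) ha0 ha1').trans
    (add_le_add_left (G_le_sqrt ha0 ha1') (6 / (m : ℝ)))
  have hsq : √a * √a = a := Real.mul_self_sqrt ha0
  have hsa : 2 * √a ≤ (q : ℝ) / m + a / ((q : ℝ) / m) := by
    have h2 : 0 ≤ (√a - (q : ℝ) / m) ^ 2 / ((q : ℝ) / m) := by positivity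
    have h3 : (√a - (q : ℝ) / m) ^ 2 / ((q : ℝ) / m) = √a * √a / ((q : ℝ) / m) + (q : ℝ) / m - 2 * √a := by
      field_simp
      ring
    rw [h3, hsq] at h2
    linarith
  have hXv : a / ((q : ℝ) / m) + n = (m : ℝ) * m * x / q := by
    have h2 : (m : ℝ) * x / ((q : ℝ) / m) = a / ((q : ℝ) / m) + n := by
      rw [hX, add_div, mul_div_assoc, div_self hv.ne', mul_one]
    rw [← h2]
    field_simp
  have hmain : (q : ℝ) + (m : ℝ) * m * x / q ≤ 2 * m * r + 4 / m := by
    have h2 : (q : ℝ) + (m : ℝ) * m * x / q - 2 * m * r = (m * r - q) ^ 2 / q := by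
      rw [← hrr]
      field_simp
      ring
    have h3 : (m * r - q) ^ 2 ≤ 1 := by nlinarith
    have h4 : (m * r - q) ^ 2 / (q : ℝ) ≤ 1 / q := div_le_div_of_nonneg_right h3 hq0.le
    have h5 : 1 / (q : ℝ) ≤ 4 / m := by
      rw [div_le_div_iff₀ hq0 hm0]
      linarith
    linarith
  unfold T
  rw [hF]
  have e1 : (11 : ℝ) / m = 6 / m + 4 / m + 1 / m := by ring
  have e2 : 0 < 1 / (m : ℝ) := by positivity
  linarith

theorem F_le_T {m : ℕ} (hm : 100000000 ≤ m) {q : ℕ} (hq : q ∈ Qs m) {x : ℝ} (h0 : 0 ≤ x) (h1 : x ≤ 1 / 4) :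
    m * F m x ≤ T m q (m * x) := by
  have hm0 := mpos hm
  have hs := Qs_spec hq
  have hq0 := qpos hm hs.1
  have hmR : (100000000 : ℝ) ≤ m := by exact_mod_cast hm
  have hqR : 285 * (m : ℝ) ≤ 1000 * (q : ℝ) := by exact_mod_cast hs.1
  have hq2R : 2 * (q : ℝ) ≤ m := by exact_mod_cast hs.2
  obtain ⟨n, a, hX, ha0, ha1, hF⟩ := decomp hm hs.1 ((m : ℝ) * x)
  have hv : (0 : ℝ) < (q : ℝ) / m := by positivity
  have hv1 : (q : ℝ) / m ≤ 1 := by
    rw [div_le_iff₀ hm0]
    linarith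
  have hn : 0 ≤ n := by
    by_contra hcon
    push Not at hcon
    have h3 : (n : ℝ) ≤ -1 := by
      have : n ≤ -1 := by omega
      exact_mod_cast this
    have h4 : 0 ≤ (m : ℝ) * x := by positivity
    nlinarith
  obtain ⟨k, rfl⟩ := Int.eq_ofNat_of_zero_le hn
  have hX' : (m : ℝ) * x = a + (k : ℝ) * ((q : ℝ) / m) := by
    rw [hX]
    push_cast
    ring
  have hkm : k < m := by
    by_contra hcon
    push Not at hcon
    have h3 : (m : ℝ) ≤ k := by exact_mod_cast hcon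
    have h4 : (285 : ℝ) / 1000 ≤ (q : ℝ) / m := by
      rw [le_div_iff₀ hm0]
      linarith
    have h5 : (m : ℝ) * (285 / 1000) ≤ k * ((q : ℝ) / m) :=
      mul_le_mul h3 h4 (by norm_num) (by positivity)
    nlinarith
  set z : Fin m → ℝ := fun i => if (i : ℕ) < k then (q : ℝ) / m else if (i : ℕ) = k then a else 0 with hz
  have hsum : ∀ A B : ℝ, ∑ i : Fin m, (if (i : ℕ) < k then A else if (i : ℕ) = k then B else 0) =
      k * A + B := by
    intro A B
    rw [← Finset.sum_range (fun i => if i < k then A else if i = k then B else 0)]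
    obtain ⟨l, hl⟩ : ∃ l, m = k + 1 + l := ⟨m - k - 1, by omega⟩
    rw [hl, Finset.sum_range_add, Finset.sum_range_succ]
    have e1 : ∑ x ∈ range k, (if x < k then A else if x = k then B else 0) = k * A := by
      rw [Finset.sum_congr rfl (fun x hx => if_pos (Finset.mem_range.1 hx)), Finset.sum_const,
        Finset.card_range, nsmul_eq_mul]
    have e2 : ∑ x ∈ range l, (if k + 1 + x < k then A else if k + 1 + x = k then B else 0) = 0 := by
      refine Finset.sum_eq_zero fun x _ => ?_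
      rw [if_neg (by omega), if_neg (by omega)]
    rw [e1, e2, if_neg (lt_irrefl k), if_pos rfl, add_zero]
  have hm2 : 2 ≤ m := by omega
  have h2 := F_tuple hm2 z (le_refl 0) hv1 (by
    intro i
    simp only [hz]
    split_ifs
    · exact ⟨hv.le, le_refl _⟩
    · exact ⟨ha0, ha1.le⟩
    · exact ⟨le_refl _, hv.le⟩)
  have h3 : ∑ i, z i = k * ((q : ℝ) / m) + a := hsum _ _
  have h4 : ∑ i, F m (z i) = k * 1 + F m a := by
    rw [← hsum]
    refine Finset.sum_congr rfl fun i _ => ?_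
    simp only [hz]
    split_ifs
    · exact F_node hm hs.1 hs.2
    · rfl
    · exact F_zero hm2
  have h5 : (∑ i, z i) / m = x := by
    rw [h3, add_comm, ← hX', mul_div_cancel_left₀ _ hm0.ne']
  rw [h5, h4] at h2
  unfold T
  rw [hF]
  have h6 : (m : ℝ) * F m x ≤ m * ((k * 1 + F m a) / m + ((q : ℝ) / m - 0)) :=
    mul_le_mul_of_nonneg_left h2 hm0.le
  have h7 : (m : ℝ) * ((k * 1 + F m a) / m + ((q : ℝ) / m - 0)) = k + F m a + q := by
    field_simp
    ring
  rw [h7] at h6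
  push_cast
  linarith

end Pool.Agent.H86.Z1
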