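import Pool.Agent.H86.Z1.Main

/-!
# Project Z1: the theorem on zone 1

Proof sketch. `p0 = q - 1`, `p1 = q` in `zone_eq`, i.e. `P = q(q-1)/m`, `Q = q(q+1)/m` (`3 m ≤ 10 q`, `1000 q ≤ 499 m` give the two hypotheses: `q(q-1) ≥ 0.09 m² - 0.3 m ≥ 0.0899 m² + 3m`,
`q(q+1) ≤ 0.249001 m² + 0.499 m ≤ 0.2491 m² - 3m`). `Th_eq` or `Th_core` gives `m F x = T_q (m x) = q + Fv q (m x)`, and `Fv q (m x) = q - 1 + F (m x - (q-1) q/m)` for
`q(q-1) ≤ m² x ≤ q²`, `= q + F (m x - q²/m)` for `q² ≤ m² x ≤ q(q+1)` (`QSub.int`, `Fv_of_mem`). At the right end point `m² x = q (q+1)` use the index `q + 1`, or continuity: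
`T_(q+1) = T_q` there (`T_right`).
-/

set_option autoImplicit false

namespace Pool.Agent.H86.Z1

open Finset Pool.Agent.H14RC Pool.Agent.H86.FM

/-- `m F x = T_q (m x)` on the whole zone. -/
private theorem Top_eq {m : ℕ} (hm : 1000000000 ≤ m) {q : ℕ} (hq : 3 * m ≤ 10 * q)
    (hq' : 1000 * q ≤ 499 * m) {x : ℝ} (h0 : (q : ℝ) * (q - 1) ≤ (m : ℝ) ^ 2 * x)
    (h1 : (m : ℝ) ^ 2 * x ≤ (q : ℝ) * (q + 1)) : m * F m x = (q : ℝ) + Fv m q (m * x) := by
  have hmR : (1000000000 : ℝ) ≤ m := by exact_mod_cast hm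
  have hqR : 3 * (m : ℝ) ≤ 10 * q := by exact_mod_cast hq
  have hqR' : 1000 * (q : ℝ) ≤ 499 * m := by exact_mod_cast hq'
  obtain ⟨p, rfl⟩ : ∃ p, q = p + 1 := ⟨q - 1, by omega⟩
  have hcast : ((p + 1 : ℕ) : ℝ) = (p : ℝ) + 1 := by push_cast; ring
  rw [hcast] at hqR hqR' h0 h1
  have e1 : 899 / 10000 * (m : ℝ) ^ 2 + 3 * m ≤ (p : ℝ) * (p + 1) := by
    have h2 : 3 / 10 * (m : ℝ) - 1 ≤ p := by linarith
    have h3 : (3 / 10 * (m : ℝ) - 1) * (3 / 10 * m) ≤ (p : ℝ) * (p + 1) := by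
      apply mul_le_mul h2 (by linarith) (by linarith)
      linarith
    nlinarith
  have e2 : ((p + 1 : ℕ) : ℝ) * (((p + 1 : ℕ) : ℝ) + 1) ≤
      2491 / 10000 * (m : ℝ) ^ 2 - 3 * m := by
    rw [hcast]
    have h2 : (p : ℝ) + 1 ≤ 499 / 1000 * m := by linarith
    have h3 : ((p : ℝ) + 1) * ((p : ℝ) + 1 + 1) ≤ (499 / 1000 * m) * (499 / 1000 * m + 1) := by
      apply mul_le_mul h2 (by linarith) (by positivity)
      linarith
    nlinarith
  have h2 : m * F m x = Th m (m * x) := by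
    refine zone_eq hm p (p + 1) e1 e2 ?_ ?_
    · calc (p : ℝ) * (p + 1) = ((p : ℝ) + 1) * (p + 1 - 1) := by ring
        _ ≤ _ := h0
    · rw [hcast]
      exact h1
  have hX : (m : ℝ) * (m * x) = m ^ 2 * x := by ring
  have hq1 : p + 1 ∈ Qs m := by
    unfold Qs
    rw [Finset.mem_Icc]
    omega
  have hq2 : p + 1 + 1 ∈ Qs m := by
    unfold Qs
    rw [Finset.mem_Icc]
    omega
  have h3 : Th m (m * x) = T m (p + 1) (m * x) := by
    rcases h1.lt_or_eq with h | h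
    · refine Th_core (by omega) hq1 ?_ ?_
      · rw [hX]
        calc ((p : ℝ) + 1) * p = ((p : ℝ) + 1) * (p + 1 - 1) := by ring
          _ ≤ _ := h0
      · rw [hX]
        calc (m : ℝ) ^ 2 * x < ((p : ℝ) + 1) * (p + 1 + 1) := h
          _ = (p + 1) * (p + 2) := by ring
    · have h4 : Th m (m * x) = T m (p + 1 + 1) (m * x) := by
        refine Th_core (q := p + 1) (by omega) hq2 ?_ ?_
        · rw [hX, h, hcast]
          apply le_of_eq
          ring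
        · rw [hX, h, hcast]
          have : (0 : ℝ) ≤ p := Nat.cast_nonneg _
          nlinarith
      have h5 : T m (p + 1) (m * x) = T m (p + 1 + 1) (m * x) := by
        refine T_right (q := p + 1) (by omega) (by omega) (by omega) ?_ ?_
        · rw [hX, h, hcast]
        · rw [hX, h, hcast]
          have : (0 : ℝ) ≤ p := Nat.cast_nonneg _
          nlinarith
      rw [h4, h5]
  rw [h2, h3]
  rfl

theorem zone_one {m : ℕ} (hm : 1000000000 ≤ m) {q : ℕ} (hq : 3 * m ≤ 10 * q) (hq' : 1000 * q ≤ 499 * m) {x : ℝ} :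
    ((q : ℝ) * (q - 1) / m ^ 2 ≤ x → x ≤ (q : ℝ) ^ 2 / m ^ 2 →
      F m x = (2 * q - 1 + F m (m * x - q * (q - 1) / m)) / m) ∧
    ((q : ℝ) ^ 2 / m ^ 2 ≤ x → x ≤ (q : ℝ) * (q + 1) / m ^ 2 →
      F m x = (2 * q + F m (m * x - q ^ 2 / m)) / m) := by
  have hmR : (1000000000 : ℝ) ≤ m := by exact_mod_cast hm
  have hm0 : (0 : ℝ) < m := by linarith
  have hm2 : (0 : ℝ) < (m : ℝ) ^ 2 := by positivity
  have hq0 : (0 : ℝ) ≤ q := Nat.cast_nonneg _
  have hm8 : 100000000 ≤ m := by omega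
  have hqa : 285 * m ≤ 1000 * q := by omega
  have hqb : 2 * q ≤ m := by omega
  have hQ := Fv_qsub hm8 hqa hqb
  constructor
  · intro h0 h1
    rw [div_le_iff₀ hm2] at h0
    rw [le_div_iff₀ hm2] at h1
    have h2 := Top_eq hm hq hq' (x := x) (by linarith) (by nlinarith)
    have h3 := hQ.int (m * x - (q : ℝ) * (q - 1) / m) ((q : ℤ) - 1)
    have h4 : (m * x - (q : ℝ) * (q - 1) / m) + (((q : ℤ) - 1 : ℤ) : ℝ) * ((q : ℝ) / m) = m * x := by
      push_cast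
      ring
    rw [h4] at h3
    have h5 : 0 ≤ m * x - (q : ℝ) * (q - 1) / m := by
      rw [sub_nonneg, div_le_iff₀ hm0]
      nlinarith
    have h6 : m * x - (q : ℝ) * (q - 1) / m ≤ (q : ℝ) / m := by
      rw [sub_le_iff_le_add, ← add_div, le_div_iff₀ hm0]
      nlinarith
    rw [Fv_of_mem hm8 hqa hqb h5 h6] at h3
    rw [eq_div_iff hm0.ne', mul_comm, h2, h3]
    push_cast
    ring
  · intro h0 h1
    rw [div_le_iff₀ hm2] at h0
    rw [le_div_iff₀ hm2] at h1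
    have h2 := Top_eq hm hq hq' (x := x) (by nlinarith) (by linarith)
    have h3 := hQ.int (m * x - (q : ℝ) ^ 2 / m) (q : ℤ)
    have h4 : (m * x - (q : ℝ) ^ 2 / m) + ((q : ℤ) : ℝ) * ((q : ℝ) / m) = m * x := by
      push_cast
      ring
    rw [h4] at h3
    have h5 : 0 ≤ m * x - (q : ℝ) ^ 2 / m := by
      rw [sub_nonneg, div_le_iff₀ hm0]
      nlinarith
    have h6 : m * x - (q : ℝ) ^ 2 / m ≤ (q : ℝ) / m := by
      rw [sub_le_iff_le_add, ← add_div, le_div_iff₀ hm0]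
      nlinarith
    rw [Fv_of_mem hm8 hqa hqb h5 h6] at h3
    rw [eq_div_iff hm0.ne', mul_comm, h2, h3]
    push_cast
    ring

end Pool.Agent.H86.Z1
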