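import Pool.Agent.H86.Z1.Fv

/-!
# Project Z1: the functions `T_q X = q + Fv q X` and their comparison

`T_q` and `T_(q+1)` cross at `X = q(q+1)/m`. Range of `q`: `285 m ≤ 1000 q`, `2 (q+1) ≤ m`.

Proof sketches.
* `T_ge`: `m X ≥ q(q+1)`: `T_(q+1) ≤ T_q`. Put `Y = X - q(q+1)/m ≥ 0`. `Fv q X = (q+1) + Fv q Y` (`q(q+1)/m = (q+1)(q/m)`), `Fv (q+1) X = q + Fv (q+1) Y`, (`QSub.int`).
  With `Y = a + n q/m`, `0 ≤ a < q/m`, `n ≥ 0`: `Fv (q+1) Y ≤ n Fv (q+1) (q/m) + Fv (q+1) a = n F (q/m) + F a = n + F a = Fv q Y` (`Fv_of_mem`, `F_node`; for `n` copies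
  use `QSub.sum` with a sum over `range n`, or induction).
* `T_lt`: `0 ≤ X`, `m X < q(q+1)`: `T_q ≤ T_(q+1)`. `X = a + n (q+1)/m`, `0 ≤ a < (q+1)/m`, `0 ≤ n ≤ q - 1`. `T_(q+1) X = q + 1 + n + F a`;
  `T_q X = q + n + Fv q (n/m + a)`. If `a ≤ q/m`: `Fv q (n/m + a) ≤ F (n/m) + F a ≤ 1 + F a` (`F (n/m) ≤ 1` by `F_floor`). If `a = q/m + a'`,
  `0 < a' < 1/m`: `Fv q (n/m + a) = 1 + F (n/m + a')`, `F (n/m + a') ≤ 1 + Ft (m a')/m` (`F_floor`), `F a = 1 + Ft (m a)/m = 1 + Ft (m a')/m` (`mid`).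
* `T_right`: `q(q+1) ≤ m X < q(q+2)`: equality; with `Y = X - q(q+1)/m ∈ [0, q/m)` both are `2q + 1 + F Y`.
* `T_left`: `q²/m + 1/4 + 5/m ≤ X ≤ q(q+1)/m`: equality; `y = q(q+1)/m - X ∈ [0, q/m - κ]`: `T_q X = 2q + F (q/m - y)`, `T_(q+1) X = 2q + F ((q+1)/m - y)`,
  both arguments are in the middle zone and `m` times them differ by `1` (`mid`, `Ft_add_int`).
-/

set_option autoImplicit false

namespace Pool.Agent.H86.Z1

open Finset Pool.Agent.H14RC Pool.Agent.H86.FM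

noncomputable def T (m q : ℕ) (X : ℝ) : ℝ := q + Fv m q X

private theorem Fv_add_int {m : ℕ} (hm : 100000000 ≤ m) {q : ℕ} (hq : 285 * m ≤ 1000 * q)
    (hq2 : 2 * q ≤ m) (X : ℝ) (n : ℤ) : Fv m q (X + n * ((q : ℝ) / m)) = Fv m q X + n := by
  have h := (Fv_qsub hm hq hq2).int X n
  rwa [mul_one] at h

private theorem Fv_nat_mul {m : ℕ} (hm : 100000000 ≤ m) {q : ℕ} (hq : 285 * m ≤ 1000 * q)
    (hq2 : 2 * q ≤ m) {v : ℝ} (n : ℕ) : Fv m q (n * v) ≤ n * Fv m q v := by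
  have hs := Fv_qsub hm hq hq2
  induction n with
  | zero => simp [hs.zero]
  | succ n ih =>
    have h1 := hs.sub (n * v) v
    have h2 : ((n + 1 : ℕ) : ℝ) * v = n * v + v := by push_cast; ring
    rw [h2]
    push_cast
    linarith

private theorem mpos {m : ℕ} (hm : 100000000 ≤ m) : (0 : ℝ) < m := by
  have : 0 < m := by omega
  exact_mod_cast this

private theorem qpos {m : ℕ} (hm : 100000000 ≤ m) {q : ℕ} (hq : 285 * m ≤ 1000 * q) : (0 : ℝ) < q := by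
  have : 0 < q := by omega
  exact_mod_cast this

/-- Decomposition of a real number with respect to `q/m`. -/
private theorem decomp {m : ℕ} (hm : 100000000 ≤ m) {q : ℕ} (hq : 285 * m ≤ 1000 * q) (X : ℝ) :
    ∃ (n : ℤ) (a : ℝ), X = a + n * ((q : ℝ) / m) ∧ 0 ≤ a ∧ a < (q : ℝ) / m ∧ Fv m q X = n + F m a := by
  have h1 := mpos hm
  have h2 := qpos hm hq
  refine ⟨⌊X * m / q⌋, X - (⌊X * m / q⌋ : ℝ) * ((q : ℝ) / m), by ring, ?_, ?_, rfl⟩
  · have h3 := Int.floor_le (X * m / q)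
    rw [le_div_iff₀ h2] at h3
    have h4 : (⌊X * m / q⌋ : ℝ) * ((q : ℝ) / m) ≤ X := by
      rw [← mul_div_assoc, div_le_iff₀ h1]
      exact h3
    linarith
  · have h3 := Int.lt_floor_add_one (X * m / q)
    rw [div_lt_iff₀ h2] at h3
    have h4 : X < ((⌊X * m / q⌋ : ℝ) + 1) * ((q : ℝ) / m) := by
      rw [← mul_div_assoc, lt_div_iff₀ h1]
      exact h3
    linarith

/-- For `Y ≥ 0` the extension decreases with `q`. -/
private theorem Fv_succ_le {m : ℕ} (hm : 100000000 ≤ m) {q : ℕ} (hq : 285 * m ≤ 1000 * q)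
    (hq2 : 2 * (q + 1) ≤ m) {Y : ℝ} (hY : 0 ≤ Y) : Fv m (q + 1) Y ≤ Fv m q Y := by
  have h1 := mpos hm
  have h2 := qpos hm hq
  have hq' : 285 * m ≤ 1000 * (q + 1) := by omega
  have hq2' : 2 * q ≤ m := by omega
  obtain ⟨n, a, hX, ha0, ha1, hF⟩ := decomp hm hq Y
  have hv : (0 : ℝ) < (q : ℝ) / m := by positivity
  have hv' : (q : ℝ) / m ≤ ((q + 1 : ℕ) : ℝ) / m := by
    push_cast
    exact div_le_div_of_nonneg_right (by linarith) h1.le
  have hn : 0 ≤ n := by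
    by_contra hcon
    push Not at hcon
    have h3 : (n : ℝ) ≤ -1 := by
      have : n ≤ -1 := by omega
      exact_mod_cast this
    nlinarith
  obtain ⟨k, rfl⟩ := Int.eq_ofNat_of_zero_le hn
  rw [hF]
  have hs := Fv_qsub hm hq' hq2
  have h4 := hs.sub a ((k : ℝ) * ((q : ℝ) / m))
  have h5 := Fv_nat_mul hm hq' hq2 (v := (q : ℝ) / m) k
  have h6 : Fv m (q + 1) ((q : ℝ) / m) = 1 := by
    rw [Fv_of_mem hm hq' hq2 hv.le hv', F_node hm hq hq2']
  have h7 : Fv m (q + 1) a = F m a := Fv_of_mem hm hq' hq2 ha0 (ha1.le.trans hv')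
  rw [h6, mul_one] at h5
  rw [h7] at h4
  have h8 : Y = a + (k : ℝ) * ((q : ℝ) / m) := by
    rw [hX]
    push_cast
    ring
  rw [h8]
  push_cast
  linarith

theorem T_ge {m : ℕ} (hm : 100000000 ≤ m) {q : ℕ} (hq : 285 * m ≤ 1000 * q) (hq2 : 2 * (q + 1) ≤ m) {X : ℝ}
    (h : (q : ℝ) * (q + 1) ≤ m * X) : T m (q + 1) X ≤ T m q X := by
  have h1 := mpos hm
  have hq' : 285 * m ≤ 1000 * (q + 1) := by omega
  have hq2' : 2 * q ≤ m := by omega
  have hY : 0 ≤ X - (q : ℝ) * (q + 1) / m := by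
    have : (q : ℝ) * (q + 1) / m ≤ X := by
      rw [div_le_iff₀ h1]
      linarith
    linarith
  have h2 := Fv_succ_le hm hq hq2 hY
  have h3 := Fv_add_int hm hq hq2' (X - (q : ℝ) * (q + 1) / m) ((q : ℤ) + 1)
  have h4 := Fv_add_int hm hq' hq2 (X - (q : ℝ) * (q + 1) / m) (q : ℤ)
  have h5 : X - (q : ℝ) * (q + 1) / m + (((q : ℤ) + 1 : ℤ) : ℝ) * ((q : ℝ) / m) = X := by
    push_cast
    ring
  have h6 : X - (q : ℝ) * (q + 1) / m + ((q : ℤ) : ℝ) * (((q + 1 : ℕ) : ℝ) / m) = X := by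
    push_cast
    ring
  rw [h5] at h3
  rw [h6] at h4
  unfold T
  rw [h3, h4]
  push_cast
  linarith

theorem T_lt {m : ℕ} (hm : 100000000 ≤ m) {q : ℕ} (hq : 285 * m ≤ 1000 * q) (hq2 : 2 * (q + 1) ≤ m) {X : ℝ}
    (h0 : 0 ≤ X) (h : (m : ℝ) * X < q * (q + 1)) : T m q X ≤ T m (q + 1) X := by
  have h1 := mpos hm
  have hq' : 285 * m ≤ 1000 * (q + 1) := by omega
  have hq2' : 2 * q ≤ m := by omega
  have hm2 : 2 ≤ m := by omega
  have hq0 := qpos hm hq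
  have hq2R : 2 * ((q : ℝ) + 1) ≤ m := by exact_mod_cast hq2
  have hqR : 285 * (m : ℝ) ≤ 1000 * (q : ℝ) := by exact_mod_cast hq
  have hmR : (100000000 : ℝ) ≤ m := by exact_mod_cast hm
  obtain ⟨n, a, hX, ha0, ha1, hF⟩ := decomp hm hq' X
  have hv' : (0 : ℝ) < ((q + 1 : ℕ) : ℝ) / m := by positivity
  have hn : 0 ≤ n := by
    by_contra hcon
    push Not at hcon
    have h3 : (n : ℝ) ≤ -1 := by
      have : n ≤ -1 := by omega
      exact_mod_cast this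
    nlinarith
  obtain ⟨k, rfl⟩ := Int.eq_ofNat_of_zero_le hn
  have hk : k + 1 ≤ q := by
    by_contra hcon
    push Not at hcon
    have h3 : (q : ℝ) ≤ k := by
      have : q ≤ k := by omega
      exact_mod_cast this
    have h4 : (m : ℝ) * X = m * a + k * (q + 1) := by
      rw [hX]
      push_cast
      field_simp
    have h5 : 0 ≤ (m : ℝ) * a := by positivity
    nlinarith
  have hkR : (k : ℝ) + 1 ≤ q := by exact_mod_cast hk
  have h2 := Fv_add_int hm hq hq2' (a + (k : ℝ) / m) (k : ℤ)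
  have h3 : a + (k : ℝ) / m + ((k : ℤ) : ℝ) * ((q : ℝ) / m) = X := by
    rw [hX]
    push_cast
    ring
  rw [h3] at h2
  have hkm : (k : ℝ) / m ≤ (q : ℝ) / m := div_le_div_of_nonneg_right (by linarith) h1.le
  have hkm0 : 0 ≤ (k : ℝ) / m := by positivity
  have hqm : (q : ℝ) / m ≤ 1 / 2 := by
    rw [div_le_iff₀ h1]
    linarith
  have key : Fv m q (a + (k : ℝ) / m) ≤ 1 + F m a := by
    rcases le_or_gt a ((q : ℝ) / m) with h4 | h4
    · have h5 := (Fv_qsub hm hq hq2').sub a ((k : ℝ) / m)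
      rw [Fv_of_mem hm hq hq2' ha0 h4, Fv_of_mem hm hq hq2' hkm0 hkm] at h5
      have h6 := F_floor hm2 hkm0 (by linarith : (k : ℝ) / m ≤ 1)
      have h7 : (m : ℝ) * ((k : ℝ) / m) = k := by field_simp
      rw [h7, Int.fract_natCast, F_zero hm2] at h6
      simp only [zero_div, add_zero] at h6
      linarith
    · have h5 := Fv_add_int hm hq hq2' (a - (q : ℝ) / m + (k : ℝ) / m) (1 : ℤ)
      have h6 : a - (q : ℝ) / m + (k : ℝ) / m + ((1 : ℤ) : ℝ) * ((q : ℝ) / m) = a + (k : ℝ) / m := by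
        push_cast
        ring
      rw [h6] at h5
      have ha1' : a < (q : ℝ) / m + 1 / m := by
        have : ((q + 1 : ℕ) : ℝ) / m = (q : ℝ) / m + 1 / m := by
          push_cast
          ring
        linarith
      have h7 : 0 ≤ a - (q : ℝ) / m + (k : ℝ) / m := by linarith
      have hk1 : (k : ℝ) / m + 1 / m ≤ (q : ℝ) / m := by
        rw [← add_div]
        exact div_le_div_of_nonneg_right hkR h1.le
      have h8 : a - (q : ℝ) / m + (k : ℝ) / m ≤ (q : ℝ) / m := by linarith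
      rw [Fv_of_mem hm hq hq2' h7 h8] at h5
      have h9 := F_floor hm2 h7 (by linarith : a - (q : ℝ) / m + (k : ℝ) / m ≤ 1)
      have h10 : (m : ℝ) * (a - (q : ℝ) / m + (k : ℝ) / m) = m * a + (((k : ℤ) - (q : ℤ) : ℤ) : ℝ) := by
        push_cast
        field_simp
        ring
      have h11 : F m (Int.fract ((m : ℝ) * (a - (q : ℝ) / m + (k : ℝ) / m))) = Ft m (m * a) := by
        rw [h10]
        exact Ft_add_int m (m * a) _
      rw [h11] at h9
      have h12 : 1 / 4 + 5 / (m : ℝ) ≤ a := by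
        have h13 : (285 : ℝ) / 1000 ≤ (q : ℝ) / m := by
          rw [le_div_iff₀ h1]
          linarith
        have h14 : 5 / (m : ℝ) ≤ 1 / 100 := by
          rw [div_le_iff₀ h1]
          linarith
        linarith
      have h13 : a ≤ 3 / 4 - 5 / (m : ℝ) := by
        have h14 : 5 / (m : ℝ) ≤ 1 / 100 := by
          rw [div_le_iff₀ h1]
          linarith
        have h15 : 1 / (m : ℝ) ≤ 1 / 100 := by
          rw [div_le_iff₀ h1]
          linarith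
        linarith
      have h14 := mid (by omega : 1000000 ≤ m) h12 h13
      push_cast at h5
      linarith
  unfold T
  rw [h2, hF]
  push_cast
  linarith

theorem T_right {m : ℕ} (hm : 100000000 ≤ m) {q : ℕ} (hq : 285 * m ≤ 1000 * q) (hq2 : 2 * (q + 1) ≤ m) {X : ℝ}
    (h0 : (q : ℝ) * (q + 1) ≤ m * X) (h1 : (m : ℝ) * X < q * (q + 2)) : T m q X = T m (q + 1) X := by
  have hm0 := mpos hm
  have hq' : 285 * m ≤ 1000 * (q + 1) := by omega
  have hq2' : 2 * q ≤ m := by omega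
  have hY : 0 ≤ X - (q : ℝ) * (q + 1) / m := by
    have : (q : ℝ) * (q + 1) / m ≤ X := by
      rw [div_le_iff₀ hm0]
      linarith
    linarith
  have hY1 : X - (q : ℝ) * (q + 1) / m ≤ (q : ℝ) / m := by
    have : X < q * (q + 2) / m := by
      rw [lt_div_iff₀ hm0]
      linarith
    have h2 : (q : ℝ) * (q + 2) / m = (q : ℝ) * (q + 1) / m + (q : ℝ) / m := by ring
    linarith
  have hY2 : X - (q : ℝ) * (q + 1) / m ≤ ((q + 1 : ℕ) : ℝ) / m := by
    refine hY1.trans ?_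
    push_cast
    exact div_le_div_of_nonneg_right (by linarith) hm0.le
  have h3 := Fv_add_int hm hq hq2' (X - (q : ℝ) * (q + 1) / m) ((q : ℤ) + 1)
  have h4 := Fv_add_int hm hq' hq2 (X - (q : ℝ) * (q + 1) / m) (q : ℤ)
  have h5 : X - (q : ℝ) * (q + 1) / m + (((q : ℤ) + 1 : ℤ) : ℝ) * ((q : ℝ) / m) = X := by
    push_cast
    ring
  have h6 : X - (q : ℝ) * (q + 1) / m + ((q : ℤ) : ℝ) * (((q + 1 : ℕ) : ℝ) / m) = X := by
    push_cast
    ring
  rw [h5, Fv_of_mem hm hq hq2' hY hY1] at h3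
  rw [h6, Fv_of_mem hm hq' hq2 hY hY2] at h4
  unfold T
  rw [h3, h4]
  push_cast
  ring

theorem T_left {m : ℕ} (hm : 100000000 ≤ m) {q : ℕ} (hq : 285 * m ≤ 1000 * q) (hq2 : 2 * (q + 1) ≤ m) {X : ℝ}
    (h0 : (q : ℝ) ^ 2 / m + (1 / 4 + 5 / (m : ℝ)) ≤ X) (h1 : (m : ℝ) * X ≤ q * (q + 1)) :
    T m q X = T m (q + 1) X := by
  have hm0 := mpos hm
  have hq' : 285 * m ≤ 1000 * (q + 1) := by omega
  have hq2' : 2 * q ≤ m := by omega
  have hq0 := qpos hm hq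
  have hq2R : 2 * ((q : ℝ) + 1) ≤ m := by exact_mod_cast hq2
  have hmR : (100000000 : ℝ) ≤ m := by exact_mod_cast hm
  have h5m : 5 / (m : ℝ) ≤ 1 / 100 := by
    rw [div_le_iff₀ hm0]
    linarith
  have h1m : 0 < 1 / (m : ℝ) := by positivity
  have h1m' : 1 / (m : ℝ) ≤ 1 / 100 := by
    rw [div_le_iff₀ hm0]
    linarith
  have h5m0 : 0 < 5 / (m : ℝ) := by positivity
  have hqm : (q : ℝ) / m ≤ 1 / 2 := by
    rw [div_le_iff₀ hm0]
    linarith
  have hz : 1 / 4 + 5 / (m : ℝ) ≤ X - (q : ℝ) ^ 2 / m := by linarith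
  have hz1 : X - (q : ℝ) ^ 2 / m ≤ (q : ℝ) / m := by
    have h2 : X ≤ q * (q + 1) / m := by
      rw [le_div_iff₀ hm0]
      linarith
    have h3 : (q : ℝ) * (q + 1) / m = (q : ℝ) ^ 2 / m + (q : ℝ) / m := by ring
    linarith
  have e1 : ((q + 1 : ℕ) : ℝ) / m = (q : ℝ) / m + 1 / m := by
    push_cast
    ring
  have h3 := Fv_add_int hm hq hq2' (X - (q : ℝ) ^ 2 / m) (q : ℤ)
  have h4 := Fv_add_int hm hq' hq2 (X - (q : ℝ) ^ 2 / m + 1 / m) ((q : ℤ) - 1)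
  have h5 : X - (q : ℝ) ^ 2 / m + ((q : ℤ) : ℝ) * ((q : ℝ) / m) = X := by
    push_cast
    ring
  have h6 : X - (q : ℝ) ^ 2 / m + 1 / m + (((q : ℤ) - 1 : ℤ) : ℝ) * (((q + 1 : ℕ) : ℝ) / m) = X := by
    push_cast
    field_simp
    ring
  have m1 := mid (by omega : 1000000 ≤ m) hz (by linarith)
  have m2 := mid (x := X - (q : ℝ) ^ 2 / m + 1 / m) (by omega : 1000000 ≤ m) (by linarith) (by linarith)
  have v1 := Fv_of_mem (X := X - (q : ℝ) ^ 2 / m) hm hq hq2' (by linarith) hz1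
  have v2 := Fv_of_mem (X := X - (q : ℝ) ^ 2 / m + 1 / m) hm hq' hq2 (by linarith) (by linarith)
  rw [h5, v1, m1] at h3
  rw [h6, v2, m2] at h4
  have h7 : (m : ℝ) * (X - (q : ℝ) ^ 2 / m + 1 / m) = m * (X - (q : ℝ) ^ 2 / m) + ((1 : ℤ) : ℝ) := by
    push_cast
    field_simp
  rw [h7, Ft_add_int] at h4
  unfold T
  rw [h3, h4]
  push_cast
  ring

end Pool.Agent.H86.Z1
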