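import Pool.Agent.H86.FM.Base
import Pool.Agent.H86.Z1.StLo
import Pool.Agent.H86.Z1.StMid

/-!
# Project Z1: the three kinds of tuples with mean in zone 1

Proof sketch: `hi ≥ 3/4`: `st_hi`; `1/4 ≤ hi ≤ 3/4`: `st_mid`; `hi ≤ 1/4`: `lo ≤ 64/729`: `st_lo`, `lo ≥ 64/729`: `st_tr`. `F ≥ G` (`G_le_F`), and `m/10^9 ≥ 1`.
-/

set_option autoImplicit false

namespace Pool.Agent.H86.Z1

open Finset Pool.Agent.H14RC Pool.Agent.H86.FM

theorem tri {m : ℕ} (hm : 1000000000 ≤ m) (x : Fin m → ℝ) {lo hi : ℝ} (hlo : 0 ≤ lo) (hhi : hi ≤ 1)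
    (hx : ∀ i, lo ≤ x i ∧ x i ≤ hi) (h1 : 899 / 10000 ≤ (∑ i, x i) / m) (h2 : (∑ i, x i) / m ≤ 2491 / 10000) :
    2 * m * √((∑ i, x i) / m) + 1 ≤ ∑ i, F m (x i) + m * (hi - lo) ∨
    (29 / 100 ≤ hi ∧ hi ≤ 4999 / 10000 ∧
        (m : ℝ) / 5 + 15 ≤ ((univ.filter (fun i => x i ≤ 1 / 100)).card : ℝ)) ∨
    (64 / 729 ≤ lo ∧ hi ≤ 1 / 4 ∧
      m * (2 * √((∑ i, x i) / m) - 5 / 2 * (hi - lo) ^ 2) ≤ ∑ i, F m (x i)) := by
  have hm1 : 1 ≤ m := by omega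
  have hm2 : 2 ≤ m := by omega
  have hmR : (1000000000 : ℝ) ≤ m := by exact_mod_cast hm
  have hm0 : (0 : ℝ) < m := by linarith
  obtain ⟨h3, h4⟩ := mean_mem hm1 x hx
  have hGF : ∑ i, G (x i) ≤ ∑ i, F m (x i) := sum_le_sum fun i _ =>
    G_le_F hm2 (hlo.trans (hx i).1) ((hx i).2.trans hhi)
  -- from the average to the sum
  have key : ∀ c : ℝ, 1 / 1000000000 ≤ c →
      2 * √((∑ i, x i) / m) + c ≤ (∑ i, G (x i)) / m + (hi - lo) →
      2 * m * √((∑ i, x i) / m) + 1 ≤ ∑ i, F m (x i) + m * (hi - lo) := by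
    intro c hc h
    have h5 : (m : ℝ) * (2 * √((∑ i, x i) / m) + c) ≤ m * ((∑ i, G (x i)) / m + (hi - lo)) :=
      mul_le_mul_of_nonneg_left h hm0.le
    have h6 : (m : ℝ) * ((∑ i, G (x i)) / m + (hi - lo)) = ∑ i, G (x i) + m * (hi - lo) := by
      field_simp
    rw [h6] at h5
    have h7 : 1 ≤ (m : ℝ) * c := by
      have : (1000000000 : ℝ) * (1 / 1000000000) ≤ m * c := mul_le_mul hmR hc (by norm_num) hm0.le
      linarith
    nlinarith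
  rcases le_total (3 / 4) hi with h5 | h5
  · left
    exact key _ (by norm_num) (st_hi hm1 x hlo hhi h5 hx h1 h2)
  rcases le_total (1 / 4) hi with h6 | h6
  · rcases st_mid hm x hlo h6 h5 hx h1 h2 with h7 | h7
    · left
      exact key _ (by norm_num) h7
    · right; left; exact h7
  rcases le_total lo (64 / 729) with h7 | h7
  · left
    exact key _ (by norm_num) (st_lo hm1 x hlo h7 h6 hx h1 h2)
  · right; right
    refine ⟨h7, h6, ?_⟩
    have h8 := st_tr hm1 x h7 h6 hx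
    rw [le_div_iff₀ hm0] at h8
    linarith

end Pool.Agent.H86.Z1
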